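import Pool.Agent.SFR.Defs

/-!
# Reductions of finite dimensional spaces of functions: statements of the modules
-/

set_option autoImplicit false

noncomputable section

namespace Pool.Agent.SFR

open scoped Classical
open Pool.Agent.EN2 Pool.Agent.SRF Pool.Agent.DIS Pool.Agent.SFB IsLocalRing

/-! ## The norm trick -/

/-- VAN: polynomials vanishing to order `m` at a point. -/
def Stmt_VAN : Prop :=
  ∀ (k : Type) [Field k] (a : Fin 2 → k),
    (∀ (m : ℕ) (q : MvPolynomial (Fin 2) k), Van a m q → q.totalDegree < m → q = 0) ∧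
    (∀ (m : ℕ) (q r : MvPolynomial (Fin 2) k), Van a m q → Van a m r → Van a m (q + r)) ∧
    (∀ (m n : ℕ) (q r : MvPolynomial (Fin 2) k), Van a m q → Van a n r → Van a (m + n) (q * r)) ∧
    (∀ (m : ℕ) (h q : MvPolynomial (Fin 2) k), MvPolynomial.eval a h ≠ 0 → Van a m (h * q) →
      Van a m q) ∧
    ∀ m : ℕ, ∃ φ : MvPolynomial (Fin 2) k →ₗ[k] (Fin ((m + 1).choose 2) → k),
      ∀ q, φ q = 0 → Van a m q

/-- NRM: the norm of a section is a polynomial of bounded degree. -/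
def Stmt_NRM : Prop :=
  ∀ (k Ω : Type) [Field k] [Field Ω] [Algebra k Ω] (σ : Fin 3 → Ω), IsPl k σ →
    FiniteDimensional (PF k σ) Ω → ∀ (n n₀ : ℕ) (f : Ω), IntS k σ n n₀ f →
    ∃ Q : MvPolynomial (Fin 2) k, Q.totalDegree ≤ Module.finrank (PF k σ) Ω * n ∧
      (Algebra.norm (PF k σ) (f ^ n₀ / σ 0 ^ n) : Ω) = ev σ Q

/-- MUT: a space of large dimension contains an element whose norm vanishes to a high order at
some point (`h`: denominator of the norm; `t`: a prescribed non zero element, a unit at the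
point). -/
def Stmt_MUT : Prop :=
  ∀ (k Ω : Type) [Field k] [Infinite k] [Field Ω] [Algebra k Ω] (σ : Fin 3 → Ω), IsPl k σ →
    FiniteDimensional (PF k σ) Ω → ∀ (Y : Submodule (PF k σ) Ω) (U : Submodule k Ω),
    FiniteDimensional k U → (∀ f ∈ U, f ∈ Y) → ∀ m : ℕ,
    Module.finrank (PF k σ) Y * (m + 1).choose 2 < Module.finrank k U →
    ∀ t : PF k σ, t ≠ 0 → ∃ f ∈ U, f ≠ 0 ∧ ∃ (a : Fin 2 → k) (h Q A B : MvPolynomial (Fin 2) k),
      MvPolynomial.eval a h ≠ 0 ∧ MvPolynomial.eval a A ≠ 0 ∧ MvPolynomial.eval a B ≠ 0 ∧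
      (Algebra.norm (PF k σ) f : Ω) * ev σ h = ev σ Q ∧ (t : Ω) * ev σ B = ev σ A ∧
      Van a (Module.finrank (PF k σ) Ω * m) Q

/-! ## Components: the facts of helper97 -/

/-- CFI: finitely many components (`EN2.comp_finite`). -/
def Stmt_CFI : Prop :=
  ∀ (K : Type) [Field K] [IsAlgClosed K] (O : ValuationSubring K), Arch O →
    ∀ (F : Type) [Field F] [Algebra K F] (x y : F), IsSurf K x y → Finite (Comp O x y)

/-- CVG: the value group of a component is the value group of `K` (`EN2.comp_vg`). -/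
def Stmt_CVG : Prop :=
  ∀ (K : Type) [Field K] [IsAlgClosed K] (O : ValuationSubring K), Arch O →
    ∀ (F : Type) [Field F] [Algebra K F] (x y : F), IsSurf K x y →
    VG (fun c : Comp O x y => c.1)

/-- CSP: separation of components (`EN2.comp_sep`). -/
def Stmt_CSP : Prop :=
  ∀ (K : Type) [Field K] [IsAlgClosed K] (O : ValuationSubring K), Arch O →
    ∀ (F : Type) [Field F] [Algebra K F] (x y : F), IsSurf K x y → ∀ c : Comp O x y,
    ∃ q : F, q ∈ c.1.W ∧ c.1.res q ≠ 0 ∧ ∀ c' : Comp O x y, c' ≠ c → q ∈ c'.1.W.nonunits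

/-! ## Valuations -/

/-- VAL: components are valuations with values in the value group of `O`. -/
def Stmt_VAL : Prop :=
  ∀ (K : Type) [Field K] (O : ValuationSubring K) (F : Type) [Field F] [Algebra K F] (x y : F),
    VG (fun c : Comp O x y => c.1) → ∀ c : Comp O x y,
    ∃ ν : Valuation F O.ValueGroup, IsNu O c.1 ν

/-- LVL: complete discrete subfields. -/
def Stmt_LVL : Prop :=
  ∀ (K : Type) [Field K] (O : ValuationSubring K), Dvrs O → ∀ A : Finset K,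
    ∃ (K₁ : Subfield K) (ϖ : K), Lvl O K₁ ϖ ∧ ∀ a ∈ A, a ∈ K₁

/-- DSN: descent of finitely many functions to a finite extension of `K₁(x, y)`. -/
def Stmt_DSN : Prop :=
  ∀ (K : Type) [Field K] (F : Type) [Field F] [Algebra K F] (x y : F), IsSurf K x y →
    ∀ B : Finset F, ∃ A : Finset K, ∀ K₁ : Subfield K, (∀ a ∈ A, a ∈ K₁) →
    ∃ E : IntermediateField (Pf x y K₁) F, (∀ b ∈ B, b ∈ E) ∧
      FiniteDimensional (Pf x y K₁) E ∧ Module.finrank (Pf x y K₁) E ≤ deg K x y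

/-- GAU: the restriction of a component to `K₁(x, y)` is the Gauss valuation. -/
def Stmt_GAU : Prop :=
  ∀ (K : Type) [Field K] (O : ValuationSubring K) (F : Type) [Field F] [Algebra K F] (x y : F)
    (K₁ : Subfield K), ∀ f ∈ Pf x y K₁, f ≠ 0 → ∃ α ∈ K₁, α ≠ 0 ∧ ∀ c : Comp O x y,
    α⁻¹ • f ∈ c.1.W ∧ c.1.res (α⁻¹ • f) ≠ 0 ∧
      c.1.res (α⁻¹ • f) ∈ PF (ResidueField O) (xi O x y c.1)

/-- LFT: the elements of the residue field generated by the residues of `G` are residues of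
elements of the field `E`. -/
def Stmt_LFT : Prop :=
  ∀ (K : Type) [Field K] (O : ValuationSubring K) (F : Type) [Field F] [Algebra K F]
    (K₁ : Subfield K) (ϖ : K), Lvl O K₁ ϖ → ∀ E : Subfield F,
    (∀ a ∈ K₁, algebraMap K F a ∈ E) → ∀ (c : Pl O F) (G : Finset F), (∀ g ∈ G, g ∈ E) →
    (∀ g ∈ G, g ∈ c.W) → ∀ r ∈ RF O c G, ∃ f ∈ E, f ∈ c.W ∧ c.res f = r

/-- SPR: components with different restrictions to `E` are separated by elements of `E`. -/
def Stmt_SPR : Prop :=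
  ∀ (K : Type) [Field K] (O : ValuationSubring K), Arch O → ∀ (F : Type) [Field F] [Algebra K F]
    (x y : F), VG (fun c : Comp O x y => c.1) → ∀ (E : Subfield F) (I : Finset (Comp O x y)),
    (∃ a : K, a ≠ 0 ∧ a ∈ O.nonunits ∧ algebraMap K F a ∈ E) →
    (∀ c ∈ I, ∀ c' ∈ I, c ≠ c' → ¬ SameOn (E : Set F) c.1 c'.1) → ∀ c ∈ I,
    ∃ q ∈ E, q ∈ c.1.W ∧ c.1.res q ≠ 0 ∧ ∀ c' ∈ I, c' ≠ c → q ∈ c'.1.W.nonunits

/-- FUN: the fundamental inequality. -/
def Stmt_FUN : Prop :=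
  ∀ (K : Type) [Field K] (O : ValuationSubring K), Arch O → ∀ (F : Type) [Field F] [Algebra K F]
    (x y : F), VG (fun c : Comp O x y => c.1) → ∀ (K₁ : Subfield K)
    (E : IntermediateField (Pf x y K₁) F), FiniteDimensional (Pf x y K₁) E →
    ∀ (S : Type) [Fintype S] (c : S → Comp O x y) (κ : S → K), (∀ s, κ s ≠ 0) →
    (∀ s s', s ≠ s' → c s = c s' → ∀ a ∈ K₁, O.valuation (κ s) ≠ O.valuation (a * κ s')) →
    (∀ s, ∃ q ∈ E, q ∈ (c s).1.W ∧ (c s).1.res q ≠ 0 ∧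
      ∀ s', c s' ≠ c s → q ∈ (c s').1.W.nonunits) →
    ∀ (T : Type) [Fintype T] (s : T → S) (f : T → F), (∀ i, f i ∈ E) →
    (∀ i, (κ (s i))⁻¹ • f i ∈ (c (s i)).1.W) →
    (∀ j : S, LinearIndependent (PF (ResidueField O) (xi O x y (c j).1))
      (fun i : {i : T // s i = j} => (c j).1.res ((κ j)⁻¹ • f i.1))) →
    Fintype.card T ≤ Module.finrank (Pf x y K₁) E

/-- FUD: the fundamental inequality for dimensions. -/
def Stmt_FUD : Prop :=
  ∀ (K : Type) [Field K] (O : ValuationSubring K), Arch O → ∀ (F : Type) [Field F] [Algebra K F]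
    (x y : F), VG (fun c : Comp O x y => c.1) → ∀ (K₁ : Subfield K) (ϖ : K), Lvl O K₁ ϖ →
    ∀ (E : IntermediateField (Pf x y K₁) F), FiniteDimensional (Pf x y K₁) E →
    ∀ (S : Type) [Fintype S] (c : S → Comp O x y) (κ : S → K), (∀ s, κ s ≠ 0) →
    (∀ s s', s ≠ s' → c s = c s' → ∀ a ∈ K₁, O.valuation (κ s) ≠ O.valuation (a * κ s')) →
    (∀ s, ∃ q ∈ E, q ∈ (c s).1.W ∧ (c s).1.res q ≠ 0 ∧
      ∀ s', c s' ≠ c s → q ∈ (c s').1.W.nonunits) →
    ∀ G : Finset F, (∀ g ∈ G, Bd O x y g) → (∀ g ∈ G, g ∈ E) →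
    (∀ s, (c s).1.res x ∈ RF O (c s).1 G ∧ (c s).1.res y ∈ RF O (c s).1 G) → ∀ δ : ℕ,
    (∀ s, δ ≤ (PF (ResidueField O) (xi O x y (c s).1)).relfinrank (RF O (c s).1 G)) →
    (∀ s, FiniteDimensional (RF O (c s).1 G)
      (Submodule.span (RF O (c s).1 G) (Rs (c s).1 (E : Set F) (κ s)))) ∧
    δ * ∑ s, Module.finrank (RF O (c s).1 G)
      (Submodule.span (RF O (c s).1 G) (Rs (c s).1 (E : Set F) (κ s))) ≤
        Module.finrank (Pf x y K₁) E

/-- FRP: finiteness over planes. -/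
def Stmt_FRP : Prop :=
  ∀ (k Ω : Type) [Field k] [Field Ω] [Algebra k Ω] (σ τ : Fin 3 → Ω), IsPl k σ → IsPl k τ →
    FiniteDimensional (PF k σ) Ω → FiniteDimensional (PF k τ) Ω

/-- FRK: the residue field of a component is finite over the field of the plane. -/
def Stmt_FRK : Prop :=
  ∀ (K : Type) [Field K] (O : ValuationSubring K), Arch O → ∀ (F : Type) [Field F] [Algebra K F]
    (x y : F), IsSurf K x y → VG (fun c : Comp O x y => c.1) → ∀ c : Comp O x y,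
    IsPl (ResidueField O) (xi O x y c.1) ∧
    FiniteDimensional (PF (ResidueField O) (xi O x y c.1)) (ResidueField c.1.W)

/-! ## Lattices -/

/-- CDL: modules of finite rank over a complete discrete valuation ring. -/
def Stmt_CDL : Prop :=
  ∀ (R : Type) [CommRing R] [IsDomain R] [IsDiscreteValuationRing R]
    [IsAdicComplete (maximalIdeal R) R] (ϖ : R), Irreducible ϖ → ∀ (M : Type) [AddCommGroup M]
    [Module R M], (∀ (a : R) (f : M), a • f = 0 → a = 0 ∨ f = 0) →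
    (∀ f : M, (∀ n : ℕ, ∃ g : M, f = ϖ ^ n • g) → f = 0) → ∀ (m : ℕ) (v : Fin m → M),
    LinearIndependent R v → ∃ h : Fin m → M, ∀ a : Fin m → R,
      (∃ g : M, ∑ i, a i • h i = ϖ • g) → ∀ i, a i ∈ maximalIdeal R

/-- LST: ultrametric functions on a finite dimensional space. -/
def Stmt_LST : Prop :=
  ∀ (k M I Γ : Type) [Field k] [AddCommGroup M] [Module k M] [FiniteDimensional k M] [Finite I]
    [LinearOrder Γ] [OrderBot Γ] (ν : I → M → Γ), (∀ i f g, ν i (f + g) ≤ max (ν i f) (ν i g)) →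
    (∀ i (a : k) f, a ≠ 0 → ν i (a • f) = ν i f) → (∀ i, ν i 0 = ⊥) →
    (∀ f, (∀ i, ν i f = ⊥) → f = 0) →
    ∃ (n : ℕ) (i : Fin n → I) (γ : Fin n → Γ) (U : Fin n → Submodule k M), (∀ s, γ s ≠ ⊥) ∧
      (∀ s, U s ≠ ⊥) ∧
      (∀ s s', i s = i s' → γ s = γ s' → s = s') ∧
      (∀ s, ∀ f ∈ U s, f ≠ 0 → ν (i s) f = γ s) ∧
      ∑ s, Module.finrank k (U s) = Module.finrank k M

/-- STP: the steps of the filtration of the lattice of bounded elements of the span of `v`. -/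
def Stmt_STP : Prop :=
  ∀ (K : Type) [Field K] (O : ValuationSubring K), Arch O → ∀ (F : Type) [Field F] [Algebra K F]
    (x y : F), Finite (Comp O x y) → VG (fun c : Comp O x y => c.1) → ∀ (K₁ : Subfield K) (ϖ : K),
    Lvl O K₁ ϖ → ∀ E : Subfield F, (∀ a ∈ K₁, algebraMap K F a ∈ E) → ∀ (m : ℕ) (v : Fin m → F),
    (∀ i, v i ∈ E) → LinearIndependent K v → ∀ c₀ : Comp O x y,
    ∃ (U₀ : Submodule (ResidueField O) (ResidueField c₀.1.W)) (n : ℕ) (c : Fin n → Comp O x y)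
      (κ : Fin n → K) (U : ∀ s, Submodule (ResidueField O) (ResidueField (c s).1.W)),
      FiniteDimensional (ResidueField O) U₀ ∧
      (∀ r ∈ U₀, ∃ a : Fin m → K₁, Bd O x y (∑ i, (a i : K) • v i) ∧
        r = c₀.1.res (∑ i, (a i : K) • v i)) ∧
      (∀ s, κ s ≠ 0 ∧ O.valuation ϖ < O.valuation (κ s) ∧ κ s ∈ O) ∧
      (∀ s, c s = c₀ → κ s ∈ O.nonunits) ∧
      (∀ s s', s ≠ s' → c s = c s' → O.valuation (κ s) ≠ O.valuation (κ s')) ∧
      (∀ s s', c s ≠ c s' → ¬ SameOn (E : Set F) (c s).1 (c s').1) ∧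
      (∀ s, c s ≠ c₀ → ¬ SameOn (E : Set F) (c s).1 c₀.1) ∧
      (∀ s, FiniteDimensional (ResidueField O) (U s)) ∧
      (∀ s, ∀ r ∈ U s, ∃ a : Fin m → K₁, Bd O x y (∑ i, (a i : K) • v i) ∧
        (κ s)⁻¹ • (∑ i, (a i : K) • v i) ∈ (c s).1.W ∧
        r = (c s).1.res ((κ s)⁻¹ • (∑ i, (a i : K) • v i))) ∧
      m ≤ Module.finrank (ResidueField O) U₀ + ∑ s, Module.finrank (ResidueField O) (U s)

/-! ## Assembly -/

/-- TWI: twists exist. -/
def Stmt_TWI : Prop :=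
  ∀ (K : Type) [Field K] [IsAlgClosed K] (O : ValuationSubring K), Arch O →
    ∀ (F : Type) [Field F] [Algebra K F] (x y : F), IsSurf K x y →
    ∃ (d : ℕ) (b : Comp O x y → F), IsTwist K O x y d b

/-- INS: sums of integral elements of degree `n / n₀`. -/
def Stmt_INS : Prop :=
  ∀ (k Ω : Type) [Field k] [Field Ω] [Algebra k Ω] (σ : Fin 3 → Ω), (∀ i, σ i ≠ 0) →
    ∀ n n₀ : ℕ, 0 < n₀ → ∀ f g : Ω, IntS k σ n n₀ f → IntS k σ n n₀ g → IntS k σ n n₀ (f + g)

/-- NTS: the norm trick for a space of residues. -/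
def Stmt_NTS : Prop :=
  ∀ (k Ω : Type) [Field k] [Infinite k] [Field Ω] [Algebra k Ω] (σ : Fin 3 → Ω), IsPl k σ →
    FiniteDimensional (PF k σ) Ω → ∀ R : IntermediateField k Ω, (∀ i, σ i ∈ R) → ∀ A : ℕ,
    (PF k σ).relfinrank R ≤ A → ∀ W : Submodule R Ω, ∀ U : Submodule k Ω,
    FiniteDimensional k U → (∀ f ∈ U, f ∈ W) → ∀ l : Ω, l ≠ 0 → ∀ n n₀ : ℕ, 0 < n₀ →
    (∀ f ∈ U, IntS k σ n n₀ (l * f)) →
    Module.finrank k U ≤ A * Module.finrank R W * (n / n₀ + 2).choose 2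

end Pool.Agent.SFR
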