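import Pool.Agent.SFR.Stmts

/-!
# CDL: modules of finite rank over a complete discrete valuation ring
-/

set_option autoImplicit false

noncomputable section

namespace Pool.Agent.SFR

open scoped Classical
open Pool.Agent.EN2 Pool.Agent.SRF Pool.Agent.DIS Pool.Agent.SFB IsLocalRing

namespace CDL_

variable {R : Type} [CommRing R]

lemma mem_pow_smul_pi (I : Ideal R) (n r : ℕ) (x : Fin r → R) :
    x ∈ (I ^ n • ⊤ : Submodule R (Fin r → R)) ↔ ∀ j, x j ∈ I ^ n := by
  constructor
  · intro h j
    refine Submodule.smul_induction_on h ?_ ?_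
    · intro a ha y _
      exact Ideal.mul_mem_right _ _ ha
    · intro y z hy hz
      exact add_mem hy hz
  · intro h
    have hx : x = ∑ j, x j • (Pi.single j 1 : Fin r → R) := by
      funext i
      simp [Finset.sum_apply, Pi.single_apply]
    rw [hx]
    exact sum_mem fun j _ => Submodule.smul_mem_smul (h j) trivial

lemma precomplete_pi (I : Ideal R) [IsPrecomplete I R] (r : ℕ) :
    IsPrecomplete I (Fin r → R) := by
  refine ⟨fun f hf => ?_⟩
  have h1 : ∀ j, ∃ L : R, ∀ n, f n j ≡ L [SMOD (I ^ n • ⊤ : Submodule R R)] := by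
    intro j
    refine IsPrecomplete.prec (I := I) (M := R) inferInstance (f := fun n => f n j) ?_
    intro a b hab
    have h2 := hf hab
    rw [SModEq.sub_mem, mem_pow_smul_pi] at h2
    rw [SModEq.sub_mem, smul_eq_mul, Ideal.mul_top]
    exact h2 j
  choose L hL using h1
  refine ⟨L, fun n => ?_⟩
  rw [SModEq.sub_mem, mem_pow_smul_pi]
  intro j
  have h3 := hL j n
  rw [SModEq.sub_mem, smul_eq_mul, Ideal.mul_top] at h3
  exact h3

lemma hausdorff {ϖ : R} {I : Ideal R} (hI : I = Ideal.span {ϖ}) {M : Type} [AddCommGroup M]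
    [Module R M] (hH : ∀ f : M, (∀ n : ℕ, ∃ g : M, f = ϖ ^ n • g) → f = 0) :
    IsHausdorff I M := by
  refine ⟨fun x hx => hH x fun n => ?_⟩
  have h1 := hx n
  rw [SModEq.sub_mem, sub_zero, hI, Ideal.span_singleton_pow,
    Submodule.ideal_span_singleton_smul] at h1
  obtain ⟨g, -, hg⟩ := h1
  exact ⟨g, hg.symm⟩

end CDL_

open CDL_ in
/-- CDL: modules of finite rank over a complete discrete valuation ring. -/
theorem cdl_proof : Stmt_CDL := by
  intro R _ _ _ _ ϖ hϖ M _ _ _ hH m v hv
  have hI : maximalIdeal R = Ideal.span {ϖ} := hϖ.maximalIdeal_eq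
  by_contra hcon
  let P : ℕ → Prop := fun r => ∃ h : Fin r → M, ∀ a : Fin r → R,
      (∃ g : M, ∑ i, a i • h i = ϖ • g) → ∀ i, a i ∈ maximalIdeal R
  have hP0 : P 0 := ⟨fun i => i.elim0, fun a _ i => i.elim0⟩
  have hex : ∃ r, r < m ∧ P r ∧ ¬ P (r + 1) := by
    by_contra hno
    push Not at hno
    have : ∀ r ≤ m, P r := by
      intro r
      induction r with
      | zero => exact fun _ => hP0
      | succ r ih => exact fun hr => hno r hr (ih (by omega))
    exact hcon (this m le_rfl)
  obtain ⟨r, hrm, ⟨h, hh⟩, hnot⟩ := hex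
  have hgen : ∀ f : M, ∃ (a : Fin r → R) (g : M), f = ∑ i, a i • h i + ϖ • g := by
    intro f
    have h1 : ¬ ∀ a : Fin (r + 1) → R,
        (∃ g : M, ∑ i, a i • (Fin.cons f h : Fin (r + 1) → M) i = ϖ • g) →
          ∀ i, a i ∈ maximalIdeal R := fun h2 => hnot ⟨_, h2⟩
    push Not at h1
    obtain ⟨a, ⟨g, hg⟩, i, hi⟩ := h1
    rw [Fin.sum_univ_succ] at hg
    simp only [Fin.cons_zero, Fin.cons_succ] at hg
    by_cases ha : a 0 ∈ maximalIdeal R
    · exfalso
      have ha' := ha
      rw [hI, Ideal.mem_span_singleton'] at ha'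
      obtain ⟨b, hb⟩ := ha'
      have h3 := hh (fun i => a i.succ) ⟨g - b • f, by
        rw [smul_sub, smul_smul, mul_comm ϖ b, hb, ← hg]
        abel⟩
      refine Fin.cases ?_ ?_ i hi
      · exact fun h4 => h4 ha
      · exact fun j h4 => h4 (h3 j)
    · have hu : IsUnit (a 0) := by
        by_contra h4
        exact ha ((mem_maximalIdeal _).2 h4)
      obtain ⟨u, hu⟩ := hu
      refine ⟨fun i => -(↑u⁻¹ * a i.succ), (↑u⁻¹ : R) • g, ?_⟩
      have h5 : f = (↑u⁻¹ : R) • (a 0 • f) := by
        rw [smul_smul, ← hu, Units.inv_mul, one_smul]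
      have h6 : a 0 • f = ϖ • g - ∑ i, a (Fin.succ i) • h i := by
        rw [← hg]; abel
      rw [h5, h6, smul_sub, Finset.smul_sum, smul_comm ϖ]
      simp only [neg_smul, Finset.sum_neg_distrib, smul_smul]
      abel
  haveI : IsHausdorff (maximalIdeal R) M := hausdorff hI hH
  haveI : IsPrecomplete (maximalIdeal R) (Fin r → R) := precomplete_pi _ r
  have hsurj : Function.Surjective (Fintype.linearCombination R h : (Fin r → R) →ₗ[R] M) := by
    apply surjective_of_mkQ_comp_surjective (I := maximalIdeal R)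
    intro y
    obtain ⟨f, rfl⟩ := Submodule.mkQ_surjective _ y
    obtain ⟨a, g, hf⟩ := hgen f
    refine ⟨a, ?_⟩
    rw [LinearMap.comp_apply, Fintype.linearCombination_apply, ← sub_eq_zero, ← map_sub,
      Submodule.mkQ_apply, Submodule.Quotient.mk_eq_zero, hf, sub_add_cancel_left, ← smul_neg]
    exact Submodule.smul_mem_smul (by rw [hI]; exact Ideal.mem_span_singleton_self ϖ) trivial
  have hspan : Submodule.span R (Set.range h) = ⊤ := by
    rw [eq_top_iff]
    intro f _
    obtain ⟨a, ha⟩ := hsurj f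
    rw [← ha, Fintype.linearCombination_apply]
    exact sum_mem fun i _ => Submodule.smul_mem _ _ (Submodule.subset_span ⟨i, rfl⟩)
  have hle := linearIndependent_le_span v hv (Set.range h) hspan
  rw [Cardinal.mk_fintype, Fintype.card_fin] at hle
  have h7 : Fintype.card (Set.range h) ≤ r := by
    have := Fintype.card_range_le h
    simpa using this
  have h8 : m ≤ Fintype.card (Set.range h) := by exact_mod_cast hle
  omega

end Pool.Agent.SFR
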