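import Pool.Agent.SFR.Stmts
import Pool.Agent.EN2.Comp

/-!
# Components: the facts CFI, CVG, CSP
-/

set_option autoImplicit false

noncomputable section

namespace Pool.Agent.SFR

open scoped Classical
open Pool.Agent.EN2 Pool.Agent.SRF Pool.Agent.DIS Pool.Agent.SFB IsLocalRing

theorem cfi_proof : Stmt_CFI := by
  intro K _ _ O hO F _ _ x y hS
  exact comp_finite hO hS

theorem cvg_proof : Stmt_CVG := by
  intro K _ _ O _ F _ _ x y hS
  exact comp_vg hS

theorem csp_proof : Stmt_CSP := by
  intro K _ _ O hO F _ _ x y hS c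
  have := comp_finite (O := O) hO hS
  have := Fintype.ofFinite (Comp O x y)
  obtain ⟨e, h1, h2, h3⟩ := comp_sep hO hS c (Finset.univ.erase c) (Finset.notMem_erase _ _)
  exact ⟨e, h1, h2, fun c' hc' => h3 c' (Finset.mem_erase.mpr ⟨hc', Finset.mem_univ _⟩)⟩

end Pool.Agent.SFR
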