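import Pool.Agent.SFR.Stmts

/-!
# DSN: descent of finitely many functions to a finite extension of `K₁(x, y)`
-/

set_option autoImplicit false

noncomputable section

namespace Pool.Agent.SFR

open scoped Classical
open Pool.Agent.EN2 Pool.Agent.SRF Pool.Agent.DIS Pool.Agent.SFB IsLocalRing

namespace DSN_

variable {K F : Type} [Field K] [Field F] [Algebra K F] {x y : F}

theorem alg_mem {K₁ : Subfield K} {a : K} (h : a ∈ K₁) : algebraMap K F a ∈ Pf x y K₁ :=
  Subfield.subset_closure (Or.inl ⟨a, h, rfl⟩)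

theorem gen_mem {K₁ : Subfield K} {a : F} (h : a ∈ ({x, y} : Set F)) : a ∈ Pf x y K₁ :=
  Subfield.subset_closure (Or.inr h)

/-- Elements of `K(x, y)`. -/
theorem plane (b : F) (hb : b ∈ IntermediateField.adjoin K {x, y}) :
    ∃ A : Finset K, ∀ K₁ : Subfield K, (∀ a ∈ A, a ∈ K₁) → b ∈ Pf x y K₁ := by
  induction hb using IntermediateField.adjoin_induction with
  | mem z hz => exact ⟨∅, fun K₁ _ => gen_mem hz⟩
  | algebraMap a => exact ⟨{a}, fun K₁ h => alg_mem (h a (Finset.mem_singleton_self a))⟩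
  | add f g _ _ hf hg =>
    obtain ⟨A, hA⟩ := hf
    obtain ⟨B, hB⟩ := hg
    exact ⟨A ∪ B, fun K₁ h => add_mem (hA K₁ fun a ha => h a (Finset.mem_union_left _ ha))
      (hB K₁ fun a ha => h a (Finset.mem_union_right _ ha))⟩
  | inv f _ hf =>
    obtain ⟨A, hA⟩ := hf
    exact ⟨A, fun K₁ h => inv_mem (hA K₁ h)⟩
  | mul f g _ _ hf hg =>
    obtain ⟨A, hA⟩ := hf
    obtain ⟨B, hB⟩ := hg
    exact ⟨A ∪ B, fun K₁ h => mul_mem (hA K₁ fun a ha => h a (Finset.mem_union_left _ ha))
      (hB K₁ fun a ha => h a (Finset.mem_union_right _ ha))⟩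

/-- Elements of `K(x, y)(w)`. -/
theorem ext (w b : F) (hb : b ∈ IntermediateField.adjoin (IntermediateField.adjoin K {x, y})
    ({w} : Set F)) :
    ∃ A : Finset K, ∀ K₁ : Subfield K, (∀ a ∈ A, a ∈ K₁) →
      b ∈ IntermediateField.adjoin (Pf x y K₁) ({w} : Set F) := by
  induction hb using IntermediateField.adjoin_induction with
  | mem z hz => exact ⟨∅, fun K₁ _ => IntermediateField.subset_adjoin _ _ hz⟩
  | algebraMap a =>
    obtain ⟨A, hA⟩ := plane (a : F) a.2
    exact ⟨A, fun K₁ h => IntermediateField.algebraMap_mem _ (⟨(a : F), hA K₁ h⟩ : Pf x y K₁)⟩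
  | add f g _ _ hf hg =>
    obtain ⟨A, hA⟩ := hf
    obtain ⟨B, hB⟩ := hg
    exact ⟨A ∪ B, fun K₁ h => add_mem (hA K₁ fun a ha => h a (Finset.mem_union_left _ ha))
      (hB K₁ fun a ha => h a (Finset.mem_union_right _ ha))⟩
  | inv f _ hf =>
    obtain ⟨A, hA⟩ := hf
    exact ⟨A, fun K₁ h => inv_mem (hA K₁ h)⟩
  | mul f g _ _ hf hg =>
    obtain ⟨A, hA⟩ := hf
    obtain ⟨B, hB⟩ := hg
    exact ⟨A ∪ B, fun K₁ h => mul_mem (hA K₁ fun a ha => h a (Finset.mem_union_left _ ha))
      (hB K₁ fun a ha => h a (Finset.mem_union_right _ ha))⟩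

end DSN_

open DSN_

theorem dsn_proof : Stmt_DSN := by
  intro K _ F _ _ x y hS B
  have := hS.fin
  have := hS.sep
  obtain ⟨w, hw⟩ := Field.exists_primitive_element (IntermediateField.adjoin K {x, y}) F
  -- the elements of `B`
  have h1 : ∀ b : F, ∃ A : Finset K, ∀ K₁ : Subfield K, (∀ a ∈ A, a ∈ K₁) →
      b ∈ IntermediateField.adjoin (Pf x y K₁) ({w} : Set F) := by
    intro b
    refine ext w b ?_
    rw [hw]
    exact IntermediateField.mem_top
  choose A₁ hA₁ using h1
  -- the minimal polynomial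
  set P := IntermediateField.adjoin K {x, y} with hP
  set g : Polynomial F := (minpoly P w).map (algebraMap P F) with hg
  have hint : IsIntegral P w := Algebra.IsIntegral.isIntegral w
  have hmon : g.Monic := (minpoly.monic hint).map _
  have hdeg : g.natDegree = Module.finrank P F := by
    rw [hg, Polynomial.natDegree_map, ← IntermediateField.adjoin.finrank hint, hw,
      IntermediateField.finrank_top']
  have h2 : ∀ n : ℕ, ∃ A : Finset K, ∀ K₁ : Subfield K, (∀ a ∈ A, a ∈ K₁) →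
      g.coeff n ∈ Pf x y K₁ := by
    intro n
    refine plane _ ?_
    rw [hg, Polynomial.coeff_map]
    exact ((minpoly P w).coeff n).2
  choose A₂ hA₂ using h2
  refine ⟨B.biUnion A₁ ∪ (Finset.range (g.natDegree + 1)).biUnion A₂, fun K₁ hK => ?_⟩
  refine ⟨IntermediateField.adjoin (Pf x y K₁) ({w} : Set F), ?_, ?_⟩
  · intro b hb
    exact hA₁ b K₁ fun a ha => hK a
      (Finset.mem_union_left _ (Finset.mem_biUnion.2 ⟨b, hb, ha⟩))
  have h3 : ∀ n, g.coeff n ∈ Pf x y K₁ := by
    intro n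
    by_cases hn : n ≤ g.natDegree
    · exact hA₂ n K₁ fun a ha => hK a
        (Finset.mem_union_right _ (Finset.mem_biUnion.2 ⟨n, Finset.mem_range.2 (by omega), ha⟩))
    · rw [Polynomial.coeff_eq_zero_of_natDegree_lt (by omega)]
      exact zero_mem _
  have h4 : g ∈ Polynomial.lifts (algebraMap (Pf x y K₁) F) := by
    rw [Polynomial.lifts_iff_coeff_lifts]
    intro n
    exact ⟨⟨_, h3 n⟩, rfl⟩
  obtain ⟨q, hq1, hq2, hq3⟩ := Polynomial.lifts_and_natDegree_eq_and_monic h4 hmon
  have h5 : Polynomial.aeval w q = 0 := by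
    have h6 : Polynomial.eval w g = 0 := by
      rw [hg, Polynomial.eval_map_algebraMap]
      exact minpoly.aeval P w
    rw [← hq1, Polynomial.eval_map_algebraMap] at h6
    exact h6
  have hint' : IsIntegral (Pf x y K₁) w := ⟨q, hq3, by
    rw [← Polynomial.aeval_def]
    exact h5⟩
  refine ⟨IntermediateField.adjoin.finiteDimensional hint', ?_⟩
  rw [IntermediateField.adjoin.finrank hint']
  have h7 := Polynomial.natDegree_le_of_dvd (minpoly.dvd _ _ h5) hq3.ne_zero
  rw [hq2, hdeg] at h7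
  exact h7

end Pool.Agent.SFR
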