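import Pool.Agent.SFR.Stmts

/-!
# SFR / FRK: the residue field of a component is finite over the field of the plane
-/

set_option autoImplicit false

noncomputable section

namespace Pool.Agent.SFR

open scoped Classical
open Pool.Agent.EN2 Pool.Agent.SRF Pool.Agent.DIS Pool.Agent.SFB IsLocalRing

namespace FRK_

lemma xi_eq {K : Type} [Field K] {O : ValuationSubring K} {F : Type} [Field F] [Algebra K F]
    (x y : F) (c : Pl O F) :
    (![xi O x y c 1 / xi O x y c 0, xi O x y c 2 / xi O x y c 0] :
      Fin 2 → ResidueField c.W) = ![c.res x, c.res y] := by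
  funext i
  fin_cases i
  · change c.res x / 1 = c.res x
    rw [div_one]
  · change c.res y / 1 = c.res y
    rw [div_one]

lemma isPl {K : Type} [Field K] {O : ValuationSubring K} {F : Type} [Field F] [Algebra K F]
    (x y : F) (c : Comp O x y) : IsPl (ResidueField O) (xi O x y c.1) := by
  have h := c.2.indep
  refine ⟨?_, ?_⟩
  · intro i
    fin_cases i
    · exact one_ne_zero
    · exact h.ne_zero 0
    · exact h.ne_zero 1
  · rw [xi_eq]
    exact h

/-- finiteness over `Pf` -/
lemma fin_pf {K : Type} [Field K] {F : Type} [Field F] [Algebra K F] (x y : F)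
    (h : IsSurf K x y) : FiniteDimensional (Pf x y (⊤ : Subfield K)) F := by
  have hle : ∀ a ∈ IntermediateField.adjoin K {x, y}, a ∈ Pf x y (⊤ : Subfield K) := by
    intro a ha
    have h1 : (IntermediateField.adjoin K {x, y}).toSubfield ≤ Pf x y (⊤ : Subfield K) := by
      unfold Pf
      rw [IntermediateField.adjoin_toSubfield]
      apply Subfield.closure_mono
      rintro z (⟨b, rfl⟩ | hz)
      · exact Or.inl ⟨b, trivial, rfl⟩
      · exact Or.inr hz
    exact h1 ha
  have hfin := h.fin
  obtain ⟨S, hS⟩ := Module.Finite.fg_top (R := IntermediateField.adjoin K {x, y}) (M := F)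
  refine ⟨⟨S, ?_⟩⟩
  rw [eq_top_iff]
  rintro z -
  have hz : z ∈ Submodule.span (IntermediateField.adjoin K {x, y}) (S : Set F) := by
    rw [hS]; trivial
  refine Submodule.span_induction (p := fun z _ => z ∈ Submodule.span (Pf x y (⊤ : Subfield K))
    (S : Set F)) ?_ ?_ ?_ ?_ hz
  · intro z hz; exact Submodule.subset_span hz
  · exact Submodule.zero_mem _
  · intro z z' _ _ h1 h2; exact Submodule.add_mem _ h1 h2
  · intro a z _ h1
    exact Submodule.smul_mem _ (⟨a, hle a a.2⟩ : Pf x y (⊤ : Subfield K)) h1

end FRK_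

open FRK_ in
theorem frk_proof (hFUN : Stmt_FUN) : Stmt_FRK := by
  intro K _ O hO F _ _ x y hs hVG c
  refine ⟨isPl x y c, ?_⟩
  have hfin := fin_pf x y hs
  have hfin' : FiniteDimensional (Pf x y (⊤ : Subfield K))
      (⊤ : IntermediateField (Pf x y (⊤ : Subfield K)) F) := inferInstance
  have hlift : ∀ r : ResidueField c.1.W, ∃ f : F, f ∈ c.1.W ∧ c.1.res f = r := by
    intro r
    obtain ⟨f, rfl⟩ := IsLocalRing.residue_surjective r
    exact ⟨f, f.2, c.1.res_of_mem f.2⟩
  choose l hl using hlift
  have hr : Module.rank (PF (ResidueField O) (xi O x y c.1)) (ResidueField c.1.W) ≤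
      (Module.finrank (Pf x y (⊤ : Subfield K))
        (⊤ : IntermediateField (Pf x y (⊤ : Subfield K)) F) : ℕ) := by
    apply rank_le
    intro s hs
    have h1 := hFUN K O hO F x y hVG ⊤ ⊤ hfin' Unit (fun _ => c) (fun _ => 1)
      (fun _ => one_ne_zero) (fun s s' h => absurd (Subsingleton.elim s s') h)
      (fun _ => ⟨1, trivial, one_mem _, by rw [c.1.res_one]; exact one_ne_zero,
        fun _ h => absurd rfl h⟩)
      s (fun _ => ()) (fun i => l i.1) (fun _ => trivial)
      (fun i => by rw [inv_one, one_smul]; exact (hl i.1).1)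
      (fun j => by
        have h2 : (fun i : {i : s // () = j} => c.1.res ((1 : K)⁻¹ • l i.1.1)) =
            (fun i : s => (i : ResidueField c.1.W)) ∘ fun i : {i : s // () = j} => i.1 := by
          funext i
          rw [inv_one, one_smul]
          exact (hl i.1.1).2
        rw [h2]
        exact hs.comp _ Subtype.val_injective)
    rwa [Fintype.card_coe] at h1
  exact Module.rank_lt_aleph0_iff.1 (lt_of_le_of_lt hr (Cardinal.natCast_lt_aleph0))

end Pool.Agent.SFR
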