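import Pool.Agent.SFR.Stmts

/-!
# Finiteness over planes
-/

set_option autoImplicit false

noncomputable section

namespace Pool.Agent.SFR

open scoped Classical
open Pool.Agent.EN2 Pool.Agent.SRF Pool.Agent.DIS Pool.Agent.SFB IsLocalRing

namespace FRP_

variable {k Ω : Type} [Field k] [Field Ω] [Algebra k Ω]

lemma range_eq (σ : Fin 3 → Ω) :
    Set.range ![σ 1 / σ 0, σ 2 / σ 0] = {σ 1 / σ 0, σ 2 / σ 0} := by
  simp [Matrix.range_cons, Set.pair_comm]

lemma basis {σ : Fin 3 → Ω} (hσ : IsPl k σ) (hf : FiniteDimensional (PF k σ) Ω) :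
    IsTranscendenceBasis k ![σ 1 / σ 0, σ 2 / σ 0] := by
  rw [hσ.indep.isTranscendenceBasis_iff_isAlgebraic, range_eq]
  have h : Algebra.IsAlgebraic (IntermediateField.adjoin k {σ 1 / σ 0, σ 2 / σ 0}) Ω :=
    @Algebra.IsAlgebraic.of_finite _ _ _ _ _ _ hf
  exact IntermediateField.isAlgebraic_adjoin_iff_top.mp h

end FRP_

open FRP_

/-- FRP: finiteness over planes. -/
theorem frp_proof : Stmt_FRP := by
  intro k Ω _ _ _ σ τ hσ hτ hf
  have h1 : Algebra.EssFiniteType k (PF k σ) := by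
    rw [IntermediateField.essFiniteType_iff]
    exact IntermediateField.fg_adjoin_of_finite (by simp)
  have h2 : Algebra.EssFiniteType (PF k σ) Ω := inferInstance
  have h3 : Algebra.EssFiniteType k Ω := Algebra.EssFiniteType.comp k (PF k σ) Ω
  have h4 : Algebra.EssFiniteType (PF k τ) Ω := Algebra.EssFiniteType.of_comp k (PF k τ) Ω
  have h5 := (basis hσ hf).lift_cardinalMk_eq_trdeg
  have h6 : IsTranscendenceBasis k ![τ 1 / τ 0, τ 2 / τ 0] :=
    hτ.indep.isTranscendenceBasis_of_lift_trdeg_le_of_finite (by rw [← h5])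
  have h7 := h6.isAlgebraic_field
  rw [range_eq] at h7
  have h8 : Algebra.IsAlgebraic (PF k τ) Ω := h7
  exact Algebra.finite_of_essFiniteType_of_isAlgebraic

end Pool.Agent.SFR
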