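import Pool.Agent.SFR.Stmts

/-!
# FUD: the fundamental inequality for dimensions
-/

set_option autoImplicit false

noncomputable section

namespace Pool.Agent.SFR

open scoped Classical
open Pool.Agent.EN2 Pool.Agent.SRF Pool.Agent.DIS Pool.Agent.SFB IsLocalRing

namespace FUD_

section tower

variable {k Ω : Type} [Field k] [Field Ω] [Algebra k Ω]

/-- products of independent families in a tower -/
theorem tower (P R : IntermediateField k Ω) (h : P ≤ R) {A B : Type} [Fintype A] [Fintype B]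
    (ρ : A → Ω) (hρR : ∀ j, ρ j ∈ R) (hρ : LinearIndependent P ρ) (β : B → Ω)
    (hβ : LinearIndependent R β) :
    LinearIndependent P (fun p : A × B => ρ p.1 * β p.2) := by
  rw [Fintype.linearIndependent_iff]
  intro a ha
  have h1 : ∀ l, ∑ j, a (j, l) • ρ j = 0 := by
    intro l
    have hmem : ∀ l, ∑ j, a (j, l) • ρ j ∈ R := by
      intro l
      refine sum_mem (fun j _ => ?_)
      rw [IntermediateField.smul_def, smul_eq_mul]
      exact mul_mem (h (a (j, l)).2) (hρR j)
    have h2 := (Fintype.linearIndependent_iff.mp hβ) (fun l => ⟨∑ j, a (j, l) • ρ j, hmem l⟩) (by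
      rw [← ha, Fintype.sum_prod_type_right]
      apply Finset.sum_congr rfl
      intro l _
      rw [IntermediateField.smul_def, smul_eq_mul]
      change (∑ j, a (j, l) • ρ j) * β l = _
      rw [Finset.sum_mul]
      apply Finset.sum_congr rfl
      intro j _
      rw [smul_mul_assoc]) l
    exact congrArg Subtype.val h2
  rintro ⟨j, l⟩
  exact (Fintype.linearIndependent_iff.mp hρ) (fun j => a (j, l)) (h1 l) j

/-- independent elements from the relative degree -/
theorem exists_rho (P R : IntermediateField k Ω) (h : P ≤ R) (δ : ℕ)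
    (hδ : δ ≤ P.relfinrank R) : ∃ ρ : Fin δ → Ω, (∀ j, ρ j ∈ R) ∧ LinearIndependent P ρ := by
  rw [IntermediateField.relfinrank_eq_finrank_of_le h] at hδ
  obtain ⟨f, hf⟩ := exists_linearIndependent_of_le_finrank hδ
  refine ⟨fun j => (f j : Ω), fun j => (IntermediateField.mem_extendScalars h).mp (f j).2, ?_⟩
  exact hf.map' (IntermediateField.extendScalars h).val.toLinearMap
    (LinearMap.ker_eq_bot.mpr Subtype.val_injective)

end tower

section core

variable {K : Type} [Field K] {O : ValuationSubring K} {F : Type} [Field F] [Algebra K F]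
  {x y : F}

theorem PF_le (c : Pl O F) (G : Finset F) (hx : c.res x ∈ RF O c G) (hy : c.res y ∈ RF O c G) :
    PF (ResidueField O) (xi O x y c) ≤ RF O c G := by
  unfold PF
  rw [IntermediateField.adjoin_le_iff]
  have h0 : xi O x y c 0 = 1 := rfl
  have h1 : xi O x y c 1 = c.res x := rfl
  have h2 : xi O x y c 2 = c.res y := rfl
  rintro _ (rfl | rfl)
  · rw [h0, h1, div_one]; exact hx
  · rw [h0, h2, div_one]; exact hy

/-- the inequality for finite independent subsets -/
theorem coreF (hLFT : Stmt_LFT) (hFUN : Stmt_FUN) (hO : Arch O)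
    (hVG : VG (fun c : Comp O x y => c.1)) (K₁ : Subfield K) (ϖ : K) (hL : Lvl O K₁ ϖ)
    (E : IntermediateField (Pf x y K₁) F) (hE : FiniteDimensional (Pf x y K₁) E)
    (S : Type) [Fintype S] (c : S → Comp O x y) (κ : S → K) (hκ : ∀ s, κ s ≠ 0)
    (hval : ∀ s s', s ≠ s' → c s = c s' → ∀ a ∈ K₁, O.valuation (κ s) ≠ O.valuation (a * κ s'))
    (hsep : ∀ s, ∃ q ∈ E, q ∈ (c s).1.W ∧ (c s).1.res q ≠ 0 ∧
      ∀ s', c s' ≠ c s → q ∈ (c s').1.W.nonunits)
    (G : Finset F) (hGB : ∀ g ∈ G, Bd O x y g) (hGE : ∀ g ∈ G, g ∈ E)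
    (hxy : ∀ s, (c s).1.res x ∈ RF O (c s).1 G ∧ (c s).1.res y ∈ RF O (c s).1 G) (δ : ℕ)
    (ρ : ∀ s, Fin δ → ResidueField (c s).1.W) (hρR : ∀ s j, ρ s j ∈ RF O (c s).1 G)
    (hρ : ∀ s, LinearIndependent (PF (ResidueField O) (xi O x y (c s).1)) (ρ s))
    (B : ∀ s, Finset (ResidueField (c s).1.W))
    (hB : ∀ s, ∀ r ∈ B s, r ∈ Rs (c s).1 (E : Set F) (κ s))
    (hBi : ∀ s, LinearIndependent (RF O (c s).1 G) (fun r : B s => (r : ResidueField (c s).1.W))) :
    δ * ∑ s, (B s).card ≤ Module.finrank (Pf x y K₁) E := by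
  have hg : ∀ s j, ∃ f ∈ E, f ∈ (c s).1.W ∧ (c s).1.res f = ρ s j := by
    intro s j
    refine hLFT K O F K₁ ϖ hL E.toSubfield ?_ (c s).1 G (fun g hg => hGE g hg)
      (fun g hg => hGB g hg (c s)) (ρ s j) (hρR s j)
    intro a ha
    have h1 : algebraMap K F a ∈ Pf x y K₁ := Subfield.subset_closure (Or.inl ⟨a, ha, rfl⟩)
    exact E.algebraMap_mem ⟨_, h1⟩
  choose g hgE hgW hgr using hg
  have hh : ∀ s, ∀ r : B s, ∃ f ∈ E, (κ s)⁻¹ • f ∈ (c s).1.W ∧
      (r : ResidueField (c s).1.W) = (c s).1.res ((κ s)⁻¹ • f) := by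
    intro s r
    exact hB s r r.2
  choose h hhE hhW hhr using hh
  have key := hFUN K O hO F x y hVG K₁ E hE S c κ hκ hval hsep
    (Σ s, Fin δ × B s) Sigma.fst (fun i => g i.1 i.2.1 * h i.1 i.2.2)
    (fun i => mul_mem (hgE _ _) (hhE _ _))
    (fun i => by
      rw [← mul_smul_comm]
      exact mul_mem (hgW _ _) (hhW _ _))
    (fun j => by
      rw [← linearIndependent_equiv (Equiv.sigmaSubtype j).symm]
      have h1 := tower (PF (ResidueField O) (xi O x y (c j).1)) (RF O (c j).1 G)
        (PF_le (c j).1 G (hxy j).1 (hxy j).2) (ρ j) (hρR j) (hρ j)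
        (fun r : B j => (r : ResidueField (c j).1.W)) (hBi j)
      have h2 : (fun i : {i : Σ s, Fin δ × B s // i.1 = j} =>
          (c j).1.res ((κ j)⁻¹ • (g i.1.1 i.1.2.1 * h i.1.1 i.1.2.2))) ∘
          (Equiv.sigmaSubtype j).symm =
          fun p : Fin δ × B j => ρ j p.1 * (p.2 : ResidueField (c j).1.W) := by
        funext p
        change (c j).1.res ((κ j)⁻¹ • (g j p.1 * h j p.2)) = _
        rw [← mul_smul_comm, (c j).1.res_mul (hgW _ _) (hhW _ _), hgr, ← hhr]
      rw [h2]
      exact h1)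
  rw [Fintype.card_sigma] at key
  rw [Finset.mul_sum]
  refine le_trans (le_of_eq ?_) key
  apply Finset.sum_congr rfl
  intro s _
  rw [Fintype.card_prod, Fintype.card_fin, Fintype.card_coe]

end core

end FUD_

open FUD_ in
theorem fud_proof (hLFT : Stmt_LFT) (hFUN : Stmt_FUN) : Stmt_FUD := by
  intro K _ O hO F _ _ x y hVG K₁ ϖ hL E hE S _ c κ hκ hval hsep G hGB hGE hxy δ hδ
  -- finiteness
  have hfin : ∀ s, ∀ b : Set (ResidueField (c s).1.W), b ⊆ Rs (c s).1 (E : Set F) (κ s) →
      LinearIndependent (RF O (c s).1 G) ((↑) : b → ResidueField (c s).1.W) → b.Finite := by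
    intro s b hb hbi
    by_contra hinf
    obtain ⟨t, htb, htc⟩ := (show b.Infinite from hinf).exists_subset_card_eq
      (Module.finrank (Pf x y K₁) E + 1)
    have h1 := coreF (x := x) (y := y) hLFT hFUN hO hVG K₁ ϖ hL E hE Unit (fun _ => c s)
      (fun _ => κ s) (fun _ => hκ s) (fun s s' h => absurd (Subsingleton.elim s s') h)
      (fun _ => by
        obtain ⟨q, hq1, hq2, hq3, -⟩ := hsep s
        exact ⟨q, hq1, hq2, hq3, fun _ h => absurd rfl h⟩) G hGB hGE (fun _ => hxy s) 1
      (fun _ _ => 1) (fun _ _ => one_mem _)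
      (fun _ => by
        rw [Fintype.linearIndependent_iff]
        intro a ha j
        rw [Fin.sum_univ_one, IntermediateField.smul_def, smul_eq_mul, mul_one] at ha
        rw [Subsingleton.elim j 0]
        exact Subtype.ext ha)
      (fun _ => t) (fun _ r hr => hb (htb hr)) (fun _ => LinearIndepOn.mono (v := id) hbi htb)
    rw [Finset.sum_const, Finset.card_univ, Fintype.card_unit, htc] at h1
    simp at h1
  have hex : ∀ s, ∃ b : Set (ResidueField (c s).1.W), b ⊆ Rs (c s).1 (E : Set F) (κ s) ∧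
      Submodule.span (RF O (c s).1 G) b =
        Submodule.span (RF O (c s).1 G) (Rs (c s).1 (E : Set F) (κ s)) ∧
      LinearIndependent (RF O (c s).1 G) ((↑) : b → ResidueField (c s).1.W) :=
    fun s => exists_linearIndependent _ _
  choose b hb1 hb2 hb3 using hex
  have hbf := fun s => hfin s (b s) (hb1 s) (hb3 s)
  refine ⟨fun s => ?_, ?_⟩
  · rw [← hb2 s]
    exact FiniteDimensional.span_of_finite _ (hbf s)
  · have hρ := fun s => exists_rho _ _ (PF_le (c s).1 G (hxy s).1 (hxy s).2) δ (hδ s)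
    choose ρ hρ1 hρ2 using hρ
    have h1 := coreF (x := x) (y := y) hLFT hFUN hO hVG K₁ ϖ hL E hE S c κ hκ hval hsep G hGB hGE
      hxy δ ρ hρ1 hρ2 (fun s => (hbf s).toFinset)
      (fun s r hr => hb1 s ((hbf s).mem_toFinset.mp hr))
      (fun s => LinearIndepOn.mono (v := id) (hb3 s) (fun r hr => (hbf s).mem_toFinset.mp hr))
    refine le_trans (le_of_eq ?_) h1
    congr 1
    apply Finset.sum_congr rfl
    intro s _
    have : Fintype (b s) := (hbf s).fintype
    rw [← hb2 s, finrank_span_set_eq_card (hb3 s)]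
    congr 1
    ext r
    simp

end Pool.Agent.SFR
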