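import Pool.Agent.SFR.Stmts

set_option autoImplicit false

/-!
# FUN: the fundamental inequality
-/

noncomputable section

namespace Pool.Agent.SFR

open scoped Classical
open Pool.Agent.EN2 Pool.Agent.SRF Pool.Agent.DIS Pool.Agent.SFB IsLocalRing

namespace FUN_

section
variable {K : Type} [Field K] {O : ValuationSubring K} {F : Type} [Field F] [Algebra K F]
  {x y : F}

theorem arch_val (hA : Arch O) (γ δ : O.ValueGroup) (hγ : γ < 1) : ∃ n : ℕ, γ ^ n * δ ≤ 1 := by
  obtain ⟨a, rfl⟩ := O.valuation_surjective γ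
  obtain ⟨b, rfl⟩ := O.valuation_surjective δ
  obtain ⟨n, hn⟩ := hA.arch a b hγ
  refine ⟨n, ?_⟩
  rw [← map_pow, ← map_mul]
  exact (O.valuation_le_one_iff _).mpr hn

theorem mul_lt_one {Γ : Type} [LinearOrderedCommGroupWithZero Γ] {a b : Γ} (ha : a < 1)
    (hb : b ≤ 1) : a * b < 1 :=
  calc a * b ≤ a * 1 := mul_le_mul_right hb a
    _ < 1 := by rwa [mul_one]

theorem big (hA : Arch O) {c : Pl O F} {ν : Valuation F O.ValueGroup} (hν : IsNu O c ν) (q g : F)
    (hq : q ∈ c.W.nonunits) : ∃ n₀ : ℕ, ∀ n, n₀ ≤ n → ν (q ^ n * g) < 1 := by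
  have h1 : ν q < 1 := (hν.lt q).mpr hq
  obtain ⟨n, hn⟩ := arch_val hA (ν q) (ν g) h1
  refine ⟨n + 1, fun N hN => ?_⟩
  have h2 : ν (q ^ N * g) = ν q ^ (N - n) * (ν q ^ n * ν g) := by
    rw [map_mul, map_pow, ← mul_assoc, ← pow_add]
    congr 2
    omega
  rw [h2]
  refine mul_lt_one ?_ hn
  exact pow_lt_one₀ zero_le' h1 (by omega)

theorem res_sum (c : Pl O F) {ι : Type} (s : Finset ι) (g : ι → F) (hg : ∀ i ∈ s, g i ∈ c.W) :
    (∑ i ∈ s, g i) ∈ c.W ∧ c.res (∑ i ∈ s, g i) = ∑ i ∈ s, c.res (g i) := by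
  induction s using Finset.induction_on with
  | empty => simp
  | insert i s hi ih =>
    have h1 := ih fun j hj => hg j (Finset.mem_insert_of_mem hj)
    have h2 := hg i (Finset.mem_insert_self i s)
    rw [Finset.sum_insert hi, Finset.sum_insert hi]
    exact ⟨add_mem h2 h1.1, by rw [c.res_add h2 h1.1, h1.2]⟩

theorem nu_unit {c : Pl O F} {ν : Valuation F O.ValueGroup} (hν : IsNu O c ν) {α : K} (hα : α ≠ 0)
    {a : F} (h : α⁻¹ • a ∈ c.W) (h0 : c.res (α⁻¹ • a) ≠ 0) : ν a = O.valuation α := by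
  have h1 : ν (α⁻¹ • a) = 1 := by
    apply le_antisymm ((hν.mem _).mpr h)
    by_contra hlt
    rw [not_le] at hlt
    exact h0 (c.res_nonunit ((hν.lt _).mp hlt))
  rw [Algebra.smul_def, map_mul, hν.alg, map_inv₀] at h1
  have h2 : O.valuation α ≠ 0 := (Valuation.ne_zero_iff _).mpr hα
  calc ν a = O.valuation α * ((O.valuation α)⁻¹ * ν a) := by rw [mul_inv_cancel_left₀ h2]
    _ = O.valuation α := by rw [h1, mul_one]

end

end FUN_

theorem fun_proof (hVAL : Stmt_VAL) (hGAU : Stmt_GAU) : Stmt_FUN := by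
  intro K _ O hA F _ _ x y hVG K₁ E hE S _ c κ hκ hsep hq T _ s f hfE hfW hind
  choose ν hν using fun c : Comp O x y => hVAL K O F x y hVG c
  choose q hqE hqW hqres hqn using hq
  -- a large power
  have hM : ∃ M : ℕ, ∀ (i : T) (s' : S), c s' ≠ c (s i) →
      ν (c s') (q (s i) ^ M * ((κ (s i))⁻¹ • f i)) < 1 := by
    have h1 : ∀ (i : T) (s' : S), ∃ n₀ : ℕ, ∀ n, n₀ ≤ n → c s' ≠ c (s i) →
        ν (c s') (q (s i) ^ n * ((κ (s i))⁻¹ • f i)) < 1 := by
      intro i s'
      by_cases h : c s' ≠ c (s i)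
      · obtain ⟨n₀, hn₀⟩ := FUN_.big hA (hν (c s')) (q (s i)) ((κ (s i))⁻¹ • f i)
          (hqn (s i) s' h)
        exact ⟨n₀, fun n hn _ => hn₀ n hn⟩
      · exact ⟨0, fun n _ h' => absurd h' h⟩
    choose n₀ hn₀ using h1
    refine ⟨Finset.univ.sup fun p : T × S => n₀ p.1 p.2, fun i s' h => ?_⟩
    exact hn₀ i s' _ (Finset.le_sup (f := fun p : T × S => n₀ p.1 p.2)
      (Finset.mem_univ (i, s'))) h
  obtain ⟨M, hM⟩ := hM
  let f' : T → E := fun i => ⟨q (s i) ^ M * f i, mul_mem (pow_mem (hqE (s i)) M) (hfE i)⟩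
  suffices hli : LinearIndependent (Pf x y K₁) f' from hli.fintype_card_le_finrank
  rw [Fintype.linearIndependent_iff]
  intro a hsum
  by_contra hcon
  push Not at hcon
  obtain ⟨i₀, hi₀⟩ := hcon
  have hα : ∀ i, ∃ α ∈ K₁, α ≠ 0 ∧ (a i ≠ 0 → ∀ c : Comp O x y,
      α⁻¹ • (a i : F) ∈ c.1.W ∧ c.1.res (α⁻¹ • (a i : F)) ≠ 0 ∧
      c.1.res (α⁻¹ • (a i : F)) ∈ PF (ResidueField O) (xi O x y c.1)) := by
    intro i
    by_cases h : a i = 0
    · exact ⟨1, one_mem _, one_ne_zero, fun h' => absurd h h'⟩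
    · have h0 : (a i : F) ≠ 0 := fun h0 => h (Subtype.ext h0)
      obtain ⟨α, hα1, hα2, hα3⟩ := hGAU K O F x y K₁ (a i : F) (a i).2 h0
      exact ⟨α, hα1, hα2, fun _ => hα3⟩
  choose α hαK hα0 hα using hα
  obtain ⟨t, ht, htmax⟩ := Finset.exists_max_image (Finset.univ.filter fun i => a i ≠ 0)
    (fun i => O.valuation (α i * κ (s i))) ⟨i₀, by simp [hi₀]⟩
  have hat : a t ≠ 0 := (Finset.mem_filter.mp ht).2
  have htm : ∀ i, a i ≠ 0 → O.valuation (α i * κ (s i)) ≤ O.valuation (α t * κ (s t)) :=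
    fun i hi => htmax i (Finset.mem_filter.mpr ⟨Finset.mem_univ i, hi⟩)
  set m := α t * κ (s t) with hm
  have hm0 : m ≠ 0 := mul_ne_zero (hα0 t) (hκ (s t))
  have hvm : O.valuation m ≠ 0 := (Valuation.ne_zero_iff _).mpr hm0
  let g : T → F := fun i => m⁻¹ • ((a i : F) * (q (s i) ^ M * f i))
  have hgsum : ∑ i, g i = 0 := by
    have h1 : ∑ i, ((a i : F) * (q (s i) ^ M * f i)) = 0 := by
      have h2 := congrArg (fun z : E => (z : F)) hsum
      simp only [ZeroMemClass.coe_zero] at h2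
      rw [← h2, AddSubmonoidClass.coe_finsetSum]
      rfl
    change ∑ i, m⁻¹ • ((a i : F) * (q (s i) ^ M * f i)) = 0
    rw [← Finset.smul_sum, h1, smul_zero]
  have hνg : ∀ (d : Comp O x y) (i : T), a i ≠ 0 → ν d (g i) =
      ((O.valuation m)⁻¹ * O.valuation (α i * κ (s i))) *
        ν d (q (s i) ^ M * ((κ (s i))⁻¹ • f i)) := by
    intro d i hi
    have h1 : ν d (a i : F) = O.valuation (α i) :=
      FUN_.nu_unit (hν d) (hα0 i) (hα i hi d).1 (hα i hi d).2.1
    have h2 : O.valuation (κ (s i)) ≠ 0 := (Valuation.ne_zero_iff _).mpr (hκ _)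
    change ν d (m⁻¹ • ((a i : F) * (q (s i) ^ M * f i))) = _
    simp only [Algebra.smul_def, map_mul, map_inv₀]
    simp only [← map_inv₀, (hν d).alg, h1]
    simp only [map_inv₀]
    field_simp
  have hle1 : ∀ i, a i ≠ 0 → (O.valuation m)⁻¹ * O.valuation (α i * κ (s i)) ≤ 1 := by
    intro i hi
    calc (O.valuation m)⁻¹ * O.valuation (α i * κ (s i)) ≤ (O.valuation m)⁻¹ * O.valuation m :=
          mul_le_mul_right (htm i hi) _
      _ = 1 := inv_mul_cancel₀ hvm
  -- the other indices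
  have hoth : ∀ i, s i ≠ s t → g i ∈ (c (s t)).1.W.nonunits := by
    intro i hst
    by_cases hi : a i = 0
    · have h1 : g i = 0 := by
        change m⁻¹ • ((a i : F) * (q (s i) ^ M * f i)) = 0
        rw [hi, ZeroMemClass.coe_zero, zero_mul, smul_zero]
      rw [h1, (c (s t)).1.nonunits_iff]
      exact ⟨zero_mem _, (c (s t)).1.res_zero⟩
    · rw [← (hν (c (s t))).lt, hνg _ i hi]
      by_cases hc : c (s t) = c (s i)
      · -- same component
        have h1 : O.valuation (α i * κ (s i)) < O.valuation m := by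
          refine lt_of_le_of_ne (htm i hi) fun heq => ?_
          refine hsep (s i) (s t) hst hc.symm ((α i)⁻¹ * α t)
            (mul_mem (inv_mem (hαK i)) (hαK t)) ?_
          have h2 : O.valuation (α i) ≠ 0 := (Valuation.ne_zero_iff _).mpr (hα0 i)
          rw [mul_assoc, ← hm, map_mul, ← heq, map_mul, map_inv₀, inv_mul_cancel_left₀ h2]
        have h2 : (O.valuation m)⁻¹ * O.valuation (α i * κ (s i)) < 1 := by
          calc (O.valuation m)⁻¹ * O.valuation (α i * κ (s i)) <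
              (O.valuation m)⁻¹ * O.valuation m := by
                exact mul_lt_mul_of_pos_left h1 (zero_lt_iff.mpr (inv_ne_zero hvm))
            _ = 1 := inv_mul_cancel₀ hvm
        refine FUN_.mul_lt_one h2 ?_
        rw [(hν (c (s t))).mem, hc]
        exact mul_mem (pow_mem (hqW (s i)) M) (hfW i)
      · rw [mul_comm]
        exact FUN_.mul_lt_one (hM i (s t) hc) (hle1 i hi)
  -- the indices with the same `s`
  let r : {i : T // s i = s t} → PF (ResidueField O) (xi O x y (c (s t)).1) := fun i =>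
    if h : a i.1 ≠ 0 ∧ (α t)⁻¹ * α i.1 ∈ O then
      algebraMap (ResidueField O) (PF (ResidueField O) (xi O x y (c (s t)).1))
        (residue O ⟨(α t)⁻¹ * α i.1, h.2⟩) *
        ⟨(c (s t)).1.res ((α i.1)⁻¹ • (a i.1 : F)), (hα i.1 h.1 (c (s t))).2.2⟩ else 0
  have hsame : ∀ i : {i : T // s i = s t}, g i.1 ∈ (c (s t)).1.W ∧ (c (s t)).1.res (g i.1) =
      (c (s t)).1.res (q (s t)) ^ M *
        ((r i : ResidueField (c (s t)).1.W) * (c (s t)).1.res ((κ (s t))⁻¹ • f i.1)) := by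
    rintro ⟨i, hi⟩
    by_cases ha : a i = 0
    · have h1 : g i = 0 := by
        change m⁻¹ • ((a i : F) * (q (s i) ^ M * f i)) = 0
        rw [ha, ZeroMemClass.coe_zero, zero_mul, smul_zero]
      have h2 : r ⟨i, hi⟩ = 0 := by
        change (if h : a i ≠ 0 ∧ (α t)⁻¹ * α i ∈ O then _ else _) = _
        rw [dif_neg (fun h => h.1 ha)]
      rw [h2]
      change g i ∈ _ ∧ _ = _
      rw [h1]
      refine ⟨zero_mem _, ?_⟩
      rw [(c (s t)).1.res_zero, ZeroMemClass.coe_zero, zero_mul, mul_zero]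
    · have hO : (α t)⁻¹ * α i ∈ O := by
        rw [← O.valuation_le_one_iff]
        have h1 := hle1 i ha
        have h2 : O.valuation (κ (s t)) ≠ 0 := (Valuation.ne_zero_iff _).mpr (hκ _)
        have h3 : O.valuation (α t) ≠ 0 := (Valuation.ne_zero_iff _).mpr (hα0 t)
        have h4 : (O.valuation m)⁻¹ * O.valuation (α i * κ (s i)) =
            O.valuation ((α t)⁻¹ * α i) := by
          rw [hi, hm, map_mul, map_mul, map_mul, map_inv₀]
          field_simp
        rwa [h4] at h1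
      have h2 : r ⟨i, hi⟩ = algebraMap (ResidueField O)
          (PF (ResidueField O) (xi O x y (c (s t)).1)) (residue O ⟨(α t)⁻¹ * α i, hO⟩) *
          ⟨(c (s t)).1.res ((α i)⁻¹ • (a i : F)), (hα i ha (c (s t))).2.2⟩ := by
        change (if h : a i ≠ 0 ∧ (α t)⁻¹ * α i ∈ O then _ else _) = _
        rw [dif_pos ⟨ha, hO⟩]
      have hgi : g i = (((α t)⁻¹ * α i) • ((α i)⁻¹ • (a i : F))) *
          (q (s t) ^ M * ((κ (s t))⁻¹ • f i)) := by
        change m⁻¹ • ((a i : F) * (q (s i) ^ M * f i)) = _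
        rw [hi, hm]
        simp only [Algebra.smul_def, map_mul, map_inv₀]
        have e1 : algebraMap K F (α i) ≠ 0 := by
          rw [Ne, map_eq_zero]; exact hα0 i
        have e2 : algebraMap K F (α t) ≠ 0 := by
          rw [Ne, map_eq_zero]; exact hα0 t
        have e3 : algebraMap K F (κ (s t)) ≠ 0 := by
          rw [Ne, map_eq_zero]; exact hκ _
        field_simp
      have w1 : (α i)⁻¹ • (a i : F) ∈ (c (s t)).1.W := (hα i ha (c (s t))).1
      have w2 : ((α t)⁻¹ * α i) • ((α i)⁻¹ • (a i : F)) ∈ (c (s t)).1.W :=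
        (c (s t)).1.smul_mem hO w1
      have w3 : (κ (s t))⁻¹ • f i ∈ (c (s t)).1.W := by
        have := hfW i
        rwa [hi] at this
      have w4 : q (s t) ^ M ∈ (c (s t)).1.W := pow_mem (hqW (s t)) M
      change g i ∈ _ ∧ _ = _
      rw [hgi]
      refine ⟨mul_mem w2 (mul_mem w4 w3), ?_⟩
      rw [(c (s t)).1.res_mul w2 (mul_mem w4 w3), (c (s t)).1.res_mul w4 w3,
        (c (s t)).1.res_pow (hqW (s t)), (c (s t)).1.res_smul hO w1, h2]
      change _ = _ * ((algebraMap (ResidueField O) (ResidueField (c (s t)).1.W)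
        (residue O ⟨(α t)⁻¹ * α i, hO⟩) * (c (s t)).1.res ((α i)⁻¹ • (a i : F))) * _)
      ring
  have hall : ∀ i ∈ (Finset.univ : Finset T), g i ∈ (c (s t)).1.W := by
    intro i _
    by_cases hi : s i = s t
    · exact (hsame ⟨i, hi⟩).1
    · exact (c (s t)).1.mem_of_nonunit (hoth i hi)
  have h1 := (FUN_.res_sum (c (s t)).1 Finset.univ g hall).2
  rw [hgsum, (c (s t)).1.res_zero] at h1
  have h2 : ∑ i, (c (s t)).1.res (g i) =
      ∑ i : {i : T // s i = s t}, (c (s t)).1.res (g i.1) := by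
    rw [← Finset.sum_subtype (Finset.univ.filter fun i => s i = s t) (by simp)
      (fun i => (c (s t)).1.res (g i))]
    rw [Finset.sum_filter]
    refine Finset.sum_congr rfl fun i _ => ?_
    split_ifs with h
    · rfl
    · exact (c (s t)).1.res_nonunit (hoth i h)
  rw [h2] at h1
  have h3 : ∑ i : {i : T // s i = s t}, (c (s t)).1.res (g i.1) =
      (c (s t)).1.res (q (s t)) ^ M * ∑ i : {i : T // s i = s t},
        r i • (c (s t)).1.res ((κ (s t))⁻¹ • f i.1) := by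
    rw [Finset.mul_sum]
    refine Finset.sum_congr rfl fun i _ => ?_
    rw [(hsame i).2]
    rfl
  rw [h3] at h1
  have h4 : ∑ i : {i : T // s i = s t}, r i • (c (s t)).1.res ((κ (s t))⁻¹ • f i.1) = 0 := by
    rcases mul_eq_zero.mp h1.symm with h | h
    · exact absurd h (pow_ne_zero M (hqres (s t)))
    · exact h
  have h5 := (Fintype.linearIndependent_iff.mp (hind (s t))) r h4 ⟨t, rfl⟩
  have hO : (α t)⁻¹ * α t ∈ O := by
    rw [inv_mul_cancel₀ (hα0 t)]
    exact one_mem _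
  have h6 : r ⟨t, rfl⟩ = algebraMap (ResidueField O)
      (PF (ResidueField O) (xi O x y (c (s t)).1)) (residue O ⟨(α t)⁻¹ * α t, hO⟩) *
      ⟨(c (s t)).1.res ((α t)⁻¹ • (a t : F)), (hα t hat (c (s t))).2.2⟩ := by
    change (if h : a t ≠ 0 ∧ (α t)⁻¹ * α t ∈ O then _ else _) = _
    rw [dif_pos ⟨hat, hO⟩]
  rw [h6] at h5
  have h7 : (⟨(α t)⁻¹ * α t, hO⟩ : O) = 1 := Subtype.ext (inv_mul_cancel₀ (hα0 t))
  rw [h7, map_one, map_one, one_mul] at h5
  exact (hα t hat (c (s t))).2.1 (congrArg Subtype.val h5)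

end Pool.Agent.SFR
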