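import Pool.Agent.SFR.Stmts
import Pool.Agent.EN2.Gauss

/-!
# Module GAU: the restriction of a component to `K₁(x, y)` is the Gauss valuation
-/

set_option autoImplicit false

noncomputable section

namespace Pool.Agent.SFR

open scoped Classical
open Pool.Agent.EN2 Pool.Agent.SRF Pool.Agent.DIS Pool.Agent.SFB IsLocalRing

namespace GAU_

variable {K : Type} [Field K] {O : ValuationSubring K} {F : Type} [Field F] [Algebra K F]
  {x y : F} {K₁ : Subfield K}

/-- the values of the polynomials over `K₁` -/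
def φ (x y : F) (K₁ : Subfield K) : MvPolynomial (Fin 2) K₁ →+* F :=
  MvPolynomial.eval₂Hom ((algebraMap K F).comp K₁.subtype) ![x, y]

lemma φ_eq (P : MvPolynomial (Fin 2) K₁) :
    φ x y K₁ P = MvPolynomial.aeval ![x, y] (MvPolynomial.map K₁.subtype P) := by
  rw [MvPolynomial.aeval_def, MvPolynomial.eval₂_map]
  rfl

lemma ring_closure {f : F}
    (hf : f ∈ Subring.closure (algebraMap K F '' (K₁ : Set K) ∪ {x, y})) :
    ∃ P : MvPolynomial (Fin 2) K₁, φ x y K₁ P = f := by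
  have h1 : Subring.closure (algebraMap K F '' (K₁ : Set K) ∪ {x, y}) ≤ (φ x y K₁).range := by
    rw [Subring.closure_le]
    rintro g (⟨a, ha, rfl⟩ | hg)
    · refine ⟨MvPolynomial.C ⟨a, ha⟩, ?_⟩
      exact MvPolynomial.eval₂_C _ _ _
    · rcases hg with rfl | hg
      · exact ⟨MvPolynomial.X 0, MvPolynomial.eval₂_X _ _ _⟩
      · rw [Set.mem_singleton_iff] at hg
        subst hg
        exact ⟨MvPolynomial.X 1, MvPolynomial.eval₂_X _ _ _⟩
  exact h1 hf

lemma mem_iff_val' {W : ValuationSubring K} {f : K} : f ∈ W ↔ W.valuation f ≤ 1 :=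
  (W.valuation_le_one_iff f).symm

/-- lift of a polynomial over `K₁` to `O` after scaling by an element of `K₁` -/
lemma scale (P : MvPolynomial (Fin 2) K₁) (hP : P ≠ 0) :
    ∃ (κ : K) (P' : MvPolynomial (Fin 2) O), κ ∈ K₁ ∧ κ ≠ 0 ∧
      MvPolynomial.map O.subtype P' = MvPolynomial.C κ⁻¹ * MvPolynomial.map K₁.subtype P ∧
      MvPolynomial.map (residue O) P' ≠ 0 := by
  obtain ⟨d₀, hd₀, hmax⟩ := Finset.exists_max_image P.support
    (fun d => O.valuation ((P.coeff d : K₁) : K)) (MvPolynomial.support_nonempty.mpr hP)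
  have h0 : ((P.coeff d₀ : K₁) : K) ≠ 0 := by
    intro h
    exact MvPolynomial.mem_support_iff.mp hd₀ (Subtype.ext h)
  have hmem : ∀ d, ((P.coeff d₀ : K₁) : K)⁻¹ * ((P.coeff d : K₁) : K) ∈ O := by
    intro d
    by_cases hd : d ∈ P.support
    · rw [mem_iff_val', map_mul, map_inv₀]
      rw [mul_comm, ← div_eq_mul_inv]
      exact div_le_one_of_le₀ (hmax d hd) zero_le
    · rw [MvPolynomial.notMem_support_iff.mp hd]
      have : (((0 : K₁)) : K) = 0 := rfl
      rw [this, mul_zero]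
      exact zero_mem _
  have hr : MvPolynomial.C ((P.coeff d₀ : K₁) : K)⁻¹ * MvPolynomial.map K₁.subtype P ∈
      Set.range (MvPolynomial.map (σ := Fin 2) O.subtype) := by
    rw [MvPolynomial.mem_range_map_iff_coeffs_subset]
    intro a ha
    rw [Finset.mem_coe, MvPolynomial.mem_coeffs_iff] at ha
    obtain ⟨d, -, rfl⟩ := ha
    rw [MvPolynomial.coeff_C_mul, MvPolynomial.coeff_map]
    exact ⟨⟨_, hmem d⟩, rfl⟩
  obtain ⟨P', hP'⟩ := hr
  refine ⟨((P.coeff d₀ : K₁) : K), P', (P.coeff d₀).2, h0, hP', ?_⟩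
  intro h
  have h1 : ((MvPolynomial.coeff d₀ P' : O) : K) = 1 := by
    have := congrArg (MvPolynomial.coeff d₀) hP'
    rw [MvPolynomial.coeff_map, MvPolynomial.coeff_C_mul, MvPolynomial.coeff_map] at this
    have h2 : K₁.subtype (MvPolynomial.coeff d₀ P) = ((P.coeff d₀ : K₁) : K) := rfl
    rw [h2, inv_mul_cancel₀ h0] at this
    exact this
  have h2 : P'.coeff d₀ = 1 := by
    ext
    exact h1
  have h3 := congrArg (MvPolynomial.coeff d₀) h
  rw [MvPolynomial.coeff_map, h2, map_one, MvPolynomial.coeff_zero] at h3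
  exact one_ne_zero h3

lemma mem (c : Comp O x y) (m : Fin 2) : (![x, y] : Fin 2 → F) m ∈ c.1.W := by
  fin_cases m
  · exact c.2.memx
  · exact c.2.memy

lemma res_xy (c : Comp O x y) :
    (fun m => c.1.res ((![x, y] : Fin 2 → F) m)) = ![c.1.res x, c.1.res y] := by
  funext m
  fin_cases m <;> rfl

lemma aeval_mem_PF (c : Comp O x y) (P : MvPolynomial (Fin 2) (ResidueField O)) :
    MvPolynomial.aeval (fun m => c.1.res ((![x, y] : Fin 2 → F) m)) P ∈
      PF (ResidueField O) (xi O x y c.1) := by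
  have hx : c.1.res x ∈ PF (ResidueField O) (xi O x y c.1) := by
    have : xi O x y c.1 1 / xi O x y c.1 0 ∈ PF (ResidueField O) (xi O x y c.1) :=
      IntermediateField.subset_adjoin _ _ (Set.mem_insert _ _)
    have e : xi O x y c.1 1 / xi O x y c.1 0 = c.1.res x := by
      show c.1.res x / 1 = c.1.res x
      rw [div_one]
    rwa [e] at this
  have hy : c.1.res y ∈ PF (ResidueField O) (xi O x y c.1) := by
    have : xi O x y c.1 2 / xi O x y c.1 0 ∈ PF (ResidueField O) (xi O x y c.1) :=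
      IntermediateField.subset_adjoin _ _ (Set.mem_insert_of_mem _ rfl)
    have e : xi O x y c.1 2 / xi O x y c.1 0 = c.1.res y := by
      show c.1.res y / 1 = c.1.res y
      rw [div_one]
    rwa [e] at this
  induction P using MvPolynomial.induction_on with
  | C a =>
    rw [MvPolynomial.aeval_C]
    exact IntermediateField.algebraMap_mem _ a
  | add p q hp hq =>
    rw [map_add]
    exact add_mem hp hq
  | mul_X p m hp =>
    rw [map_mul, MvPolynomial.aeval_X]
    refine mul_mem hp ?_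
    fin_cases m
    · exact hx
    · exact hy

/-- the size of a polynomial -/
lemma size (P : MvPolynomial (Fin 2) K₁) (hP : P ≠ 0) : ∃ κ ∈ K₁, κ ≠ 0 ∧ ∀ c : Comp O x y,
    κ⁻¹ • φ x y K₁ P ∈ c.1.W ∧ c.1.res (κ⁻¹ • φ x y K₁ P) ≠ 0 ∧
      c.1.res (κ⁻¹ • φ x y K₁ P) ∈ PF (ResidueField O) (xi O x y c.1) := by
  obtain ⟨κ, P', hκ₁, hκ, hP', hr⟩ := scale (O := O) P hP
  refine ⟨κ, hκ₁, hκ, fun c => ?_⟩
  have h1 : κ⁻¹ • φ x y K₁ P = MvPolynomial.eval₂ (toF O F) ![x, y] P' := by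
    have h2 : MvPolynomial.aeval ![x, y] (MvPolynomial.C κ⁻¹ * MvPolynomial.map K₁.subtype P) =
        MvPolynomial.aeval ![x, y] (MvPolynomial.map O.subtype P') := by rw [hP']
    rw [map_mul, MvPolynomial.aeval_C, ← Algebra.smul_def, ← φ_eq, MvPolynomial.aeval_def ![x, y]
      (MvPolynomial.map O.subtype P'), MvPolynomial.eval₂_map] at h2
    exact h2
  have h3 := eval_mem c.1 _ (mem c) P'
  rw [h1]
  refine ⟨h3.1, ?_, ?_⟩
  · rw [h3.2]
    intro h
    apply hr
    have h4 := c.2.indep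
    rw [← res_xy, AlgebraicIndependent] at h4
    exact h4 (by rw [h, map_zero])
  · rw [h3.2]
    exact aeval_mem_PF c _

end GAU_

open GAU_

theorem gau_proof : Stmt_GAU := by
  intro K _ O F _ _ x y K₁ f hf hf0
  rw [Pf, Subfield.mem_closure_iff] at hf
  obtain ⟨N, hN, Q, hQ, rfl⟩ := hf
  obtain ⟨P, rfl⟩ := ring_closure hN
  obtain ⟨R, rfl⟩ := ring_closure hQ
  have hP0 : P ≠ 0 := by
    rintro rfl
    exact hf0 (by rw [map_zero, zero_div])
  have hR0 : R ≠ 0 := by
    rintro rfl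
    exact hf0 (by rw [map_zero, div_zero])
  obtain ⟨κ, hκ₁, hκ, h1⟩ := size (O := O) (x := x) (y := y) P hP0
  obtain ⟨l, hl₁, hl, h2⟩ := size (O := O) (x := x) (y := y) R hR0
  refine ⟨κ / l, div_mem hκ₁ hl₁, div_ne_zero hκ hl, fun c => ?_⟩
  obtain ⟨a1, a2, a3⟩ := h1 c
  obtain ⟨b1, b2, b3⟩ := h2 c
  have e : (κ / l)⁻¹ • (φ x y K₁ P / φ x y K₁ R) =
      (κ⁻¹ • φ x y K₁ P) / (l⁻¹ • φ x y K₁ R) := by
    have hκF : algebraMap K F κ ≠ 0 := by simpa using hκ
    have hlF : algebraMap K F l ≠ 0 := by simpa using hl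
    simp only [Algebra.smul_def, map_inv₀, map_div₀]
    field_simp
  rw [e, c.1.res_div a1 b2]
  exact ⟨c.1.div_mem a1 b2, div_ne_zero a2 b2, div_mem a3 b3⟩

end Pool.Agent.SFR
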