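import Pool.Agent.SFR.Stmts

/-!
# INS: sums of roots of integral elements
-/

set_option autoImplicit false

noncomputable section

namespace Pool.Agent.SFR

open scoped Classical
open Pool.Agent.EN2 Pool.Agent.SRF Pool.Agent.DIS Pool.Agent.SFB IsLocalRing

theorem ins_proof : Stmt_INS := by
  intro k Ω _ _ _ σ hσ n n₀ hn₀ f g hf hg i
  set A := Algebra.adjoin k (Set.range fun j => σ j / σ i) with hA
  obtain ⟨τ, hτ⟩ := IsAlgClosed.exists_pow_nat_eq (algebraMap Ω (AlgebraicClosure Ω) (σ i ^ n)) hn₀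
  have hτ0 : τ ≠ 0 := by
    rintro rfl
    rw [zero_pow hn₀.ne'] at hτ
    exact (pow_ne_zero n (hσ i)) ((map_eq_zero _).mp hτ.symm)
  have key : ∀ h : Ω, IsIntegral A (h ^ n₀ / σ i ^ n) →
      IsIntegral A (algebraMap Ω (AlgebraicClosure Ω) h / τ) := by
    intro h hh
    apply IsIntegral.of_pow hn₀
    have h1 : (algebraMap Ω (AlgebraicClosure Ω) h / τ) ^ n₀ =
        algebraMap Ω (AlgebraicClosure Ω) (h ^ n₀ / σ i ^ n) := by
      rw [div_pow, hτ, map_div₀, map_pow _ h n₀]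
    rw [h1]
    exact hh.algebraMap
  have h2 := ((key f (hf i)).add (key g (hg i))).pow n₀
  have h3 : (algebraMap Ω (AlgebraicClosure Ω) f / τ + algebraMap Ω (AlgebraicClosure Ω) g / τ) ^ n₀ =
        algebraMap Ω (AlgebraicClosure Ω) ((f + g) ^ n₀ / σ i ^ n) := by
      rw [← add_div, ← map_add, div_pow, hτ, map_div₀, map_pow _ (f + g) n₀]
  rw [h3] at h2
  exact (isIntegral_algebraMap_iff (algebraMap Ω (AlgebraicClosure Ω)).injective).mp h2

end Pool.Agent.SFR
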