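import Pool.Agent.SFR.Stmts

/-!
# LFT: lifting of residues
-/

set_option autoImplicit false

noncomputable section

namespace Pool.Agent.SFR

open scoped Classical
open Pool.Agent.EN2 Pool.Agent.SRF Pool.Agent.DIS Pool.Agent.SFB IsLocalRing

theorem lft_proof : Stmt_LFT := by
  intro K _ O F _ _ K₁ ϖ hL E hE c G hG hGc r hr
  unfold RF at hr
  induction hr using IntermediateField.adjoin_induction with
  | mem x hx =>
    obtain ⟨g, hg, rfl⟩ := hx
    exact ⟨g, hG g hg, hGc g hg, rfl⟩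
  | algebraMap x =>
    obtain ⟨⟨a, ha⟩, rfl⟩ := IsLocalRing.residue_surjective x
    obtain ⟨b, hb1, hb2, hb3⟩ := hL.res a ha
    refine ⟨algebraMap K F b, hE b hb1, c.mem_alg hb2, ?_⟩
    have h1 : c.res (algebraMap K F b) =
        algebraMap (ResidueField O) (ResidueField c.W) (residue O ⟨b, hb2⟩) :=
      c.res_algebraMap ⟨b, hb2⟩
    rw [h1]
    congr 1
    have h2 : residue O (⟨a, ha⟩ - ⟨b, hb2⟩) = 0 := by
      rw [residue_eq_zero_iff]
      exact (ValuationSubring.coe_mem_nonunits_iff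
        (a := ((⟨a, ha⟩ : O) - ⟨b, hb2⟩))).mp hb3
    rw [map_sub, sub_eq_zero] at h2
    exact h2.symm
  | add x y _ _ hx hy =>
    obtain ⟨f, hf, hf2, rfl⟩ := hx
    obtain ⟨g, hg, hg2, rfl⟩ := hy
    exact ⟨f + g, add_mem hf hg, add_mem hf2 hg2, c.res_add hf2 hg2⟩
  | mul x y _ _ hx hy =>
    obtain ⟨f, hf, hf2, rfl⟩ := hx
    obtain ⟨g, hg, hg2, rfl⟩ := hy
    exact ⟨f * g, mul_mem hf hg, mul_mem hf2 hg2, c.res_mul hf2 hg2⟩
  | inv x _ hx =>
    obtain ⟨f, hf, hf2, rfl⟩ := hx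
    by_cases h0 : c.res f = 0
    · refine ⟨0, zero_mem _, zero_mem _, ?_⟩
      rw [h0, inv_zero, c.res_zero]
    · exact ⟨f⁻¹, inv_mem hf, c.inv_mem h0, c.res_inv h0⟩

end Pool.Agent.SFR
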