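import Pool.Agent.SFR.Stmts

/-!
# SFR, module LST: ultrametric functions on a finite dimensional space
-/

set_option autoImplicit false

noncomputable section

namespace Pool.Agent.SFR

open scoped Classical
open Pool.Agent.EN2 Pool.Agent.SRF Pool.Agent.DIS Pool.Agent.SFB IsLocalRing

namespace LST_

/-- the subspace where an ultrametric function is at most `γ` -/
def le {k M Γ : Type} [Field k] [AddCommGroup M] [Module k M] [LinearOrder Γ] [OrderBot Γ]
    (ν : M → Γ) (h1 : ∀ f g, ν (f + g) ≤ max (ν f) (ν g))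
    (h2 : ∀ (a : k) f, a ≠ 0 → ν (a • f) = ν f) (h3 : ν 0 = ⊥) (γ : Γ) : Submodule k M where
  carrier := {f | ν f ≤ γ}
  zero_mem' := by
    show ν 0 ≤ γ
    rw [h3]; exact bot_le
  add_mem' {f g} hf hg := (h1 f g).trans (max_le hf hg)
  smul_mem' a f hf := by
    show ν (a • f) ≤ γ
    by_cases ha : a = 0
    · rw [ha, zero_smul, h3]; exact bot_le
    · rw [h2 a f ha]; exact hf

/-- the subspace where an ultrametric function is smaller than `γ` -/
def lt {k M Γ : Type} [Field k] [AddCommGroup M] [Module k M] [LinearOrder Γ] [OrderBot Γ]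
    (ν : M → Γ) (h1 : ∀ f g, ν (f + g) ≤ max (ν f) (ν g))
    (h2 : ∀ (a : k) f, a ≠ 0 → ν (a • f) = ν f) (h3 : ν 0 = ⊥) (γ : Γ) (hγ : γ ≠ ⊥) :
    Submodule k M where
  carrier := {f | ν f < γ}
  zero_mem' := by
    show ν 0 < γ
    rw [h3]; exact bot_lt_iff_ne_bot.2 hγ
  add_mem' {f g} hf hg := (h1 f g).trans_lt (max_lt hf hg)
  smul_mem' a f hf := by
    show ν (a • f) < γ
    by_cases ha : a = 0
    · rw [ha, zero_smul, h3]; exact bot_lt_iff_ne_bot.2 hγ
    · rw [h2 a f ha]; exact hf

/-- an ultrametric function on a finite dimensional space has a maximum -/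
theorem exists_max {k M Γ : Type} [Field k] [AddCommGroup M] [Module k M]
    [FiniteDimensional k M] [LinearOrder Γ] [OrderBot Γ]
    (ν : M → Γ) (h1 : ∀ f g, ν (f + g) ≤ max (ν f) (ν g))
    (h2 : ∀ (a : k) f, a ≠ 0 → ν (a • f) = ν f) (h3 : ν 0 = ⊥) : ∃ f₀, ∀ f, ν f ≤ ν f₀ := by
  let S : Set ℕ := Set.range fun f : M => Module.finrank k (le ν h1 h2 h3 (ν f))
  have hS : S.Nonempty := ⟨_, 0, rfl⟩
  have hb : BddAbove S := ⟨Module.finrank k M, by
    rintro _ ⟨f, rfl⟩
    exact Submodule.finrank_le _⟩
  obtain ⟨f₀, hf₀⟩ := Nat.sSup_mem hS hb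
  refine ⟨f₀, fun f => ?_⟩
  by_contra hf
  rw [not_le] at hf
  have hlt : le ν h1 h2 h3 (ν f₀) < le ν h1 h2 h3 (ν f) := by
    refine lt_of_le_of_ne (fun g hg => ?_) fun he => ?_
    · exact (show ν g ≤ ν f₀ from hg).trans hf.le
    · have : f ∈ le ν h1 h2 h3 (ν f₀) := by
        rw [he]
        exact le_refl (ν f)
      exact absurd (show ν f ≤ ν f₀ from this) (not_le.2 hf)
  have h4 := Submodule.finrank_lt_finrank_of_lt hlt
  have h5 : Module.finrank k (le ν h1 h2 h3 (ν f)) ≤ sSup S := le_csSup hb ⟨f, rfl⟩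
  have h6 : Module.finrank k (le ν h1 h2 h3 (ν f₀)) = sSup S := hf₀
  omega

end LST_

open LST_ in
theorem lst_proof : Stmt_LST := by
  intro k M I Γ _ _ _ _ hI _ _ ν h1 h2 h3 h4
  induction hd : Module.finrank k M using Nat.strong_induction_on generalizing M with
  | _ d ih =>
    by_cases hM : Subsingleton M
    · refine ⟨0, Fin.elim0, Fin.elim0, Fin.elim0, fun s => s.elim0, fun s => s.elim0,
        fun s => s.elim0, fun s => s.elim0, ?_⟩
      rw [← hd, Finset.univ_eq_empty, Finset.sum_empty]
      exact (Module.finrank_zero_of_subsingleton).symm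
    · rw [not_subsingleton_iff_nontrivial] at hM
      obtain ⟨g, hg⟩ := exists_ne (0 : M)
      have hi : ∃ i, ν i g ≠ ⊥ := by
        by_contra hcon
        push_neg at hcon
        exact hg (h4 g hcon)
      obtain ⟨i, hi⟩ := hi
      obtain ⟨f₀, hf₀⟩ := exists_max (k := k) (ν i) (h1 i) (h2 i) (h3 i)
      have hγ : ν i f₀ ≠ ⊥ := fun h => hi (le_bot_iff.1 (h ▸ hf₀ g))
      let Mm : Submodule k M := lt (ν i) (h1 i) (h2 i) (h3 i) (ν i f₀) hγ
      obtain ⟨U, hU⟩ := Submodule.exists_isCompl Mm
      have hUγ : ∀ f ∈ U, f ≠ 0 → ν i f = ν i f₀ := by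
        intro f hf hf0
        refine le_antisymm (hf₀ f) ?_
        by_contra hlt
        rw [not_le] at hlt
        exact hf0 (Submodule.disjoint_def.1 hU.disjoint f hlt hf)
      have hf₀M : f₀ ∉ Mm := fun h => lt_irrefl _ (show ν i f₀ < ν i f₀ from h)
      have hUne : U ≠ ⊥ := by
        intro h
        have := hU.sup_eq_top
        rw [h, sup_bot_eq] at this
        exact hf₀M (by rw [this]; trivial)
      have hfr := Submodule.finrank_add_eq_of_isCompl hU
      have hlt : Module.finrank k Mm < d := by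
        have : 0 < Module.finrank k U :=
          Module.finrank_pos_iff.2 (Submodule.nontrivial_iff_ne_bot.2 hUne)
        omega
      obtain ⟨n, j, γ, V, a1, a2, a3, a4, a5⟩ := ih _ hlt Mm (fun i f => ν i f.1)
        (fun i f g => h1 i f.1 g.1) (fun i a f ha => h2 i a f.1 ha) (fun i => h3 i)
        (fun f hf => Subtype.ext (h4 f.1 hf)) rfl
      have hkey : ∀ s, j s = i → γ s ≠ ν i f₀ := by
        intro s hs he
        obtain ⟨f, hf, hf0⟩ := Submodule.exists_mem_ne_zero_of_ne_bot (a2 s)
        have h5 := a4 s f hf hf0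
        have h6 : ν i f.1 < ν i f₀ := f.2
        rw [hs, he] at h5
        exact absurd h5 h6.ne
      refine ⟨n + 1, Fin.cons i j, Fin.cons (ν i f₀) γ,
        Fin.cons U (fun s => (V s).map Mm.subtype), ?_, ?_, ?_, ?_, ?_⟩
      · intro s
        refine Fin.cases ?_ (fun s => ?_) s
        · exact hγ
        · exact a1 s
      · intro s
        refine Fin.cases ?_ (fun s => ?_) s
        · exact hUne
        · show (V s).map Mm.subtype ≠ ⊥
          intro h
          exact a2 s (Submodule.map_injective_of_injective Mm.injective_subtype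
            (h.trans (Submodule.map_bot _).symm))
      · intro s s'
        refine Fin.cases ?_ (fun s => ?_) s
        · refine Fin.cases (fun _ _ => rfl) (fun s' => ?_) s'
          intro e1 e2
          rw [Fin.cons_zero, Fin.cons_succ] at e1 e2
          exact absurd e2.symm (hkey s' e1.symm)
        · refine Fin.cases ?_ (fun s' => ?_) s'
          · intro e1 e2
            rw [Fin.cons_zero, Fin.cons_succ] at e1 e2
            exact absurd e2 (hkey s e1)
          · intro e1 e2
            rw [Fin.cons_succ, Fin.cons_succ] at e1 e2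
            rw [a3 s s' e1 e2]
      · intro s
        refine Fin.cases ?_ (fun s => ?_) s
        · exact hUγ
        · rintro f ⟨f', hf', rfl⟩ hf0
          rw [Fin.cons_succ, Fin.cons_succ]
          exact a4 s f' hf' (fun h => hf0 (by rw [h]; rfl))
      · rw [Fin.sum_univ_succ]
        show Module.finrank k U + ∑ s, Module.finrank k ((V s).map Mm.subtype) = _
        have h7 : ∀ s, Module.finrank k ((V s).map Mm.subtype) = Module.finrank k (V s) :=
          fun s => LinearEquiv.finrank_eq
            (Submodule.equivMapOfInjective Mm.subtype Mm.injective_subtype (V s)).symm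
        rw [Finset.sum_congr rfl fun s _ => h7 s]
        omega

end Pool.Agent.SFR
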