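import Pool.Agent.SFR.Stmts

/-!
# Complete discrete subfields
-/

set_option autoImplicit false

noncomputable section

namespace Pool.Agent.SFR

open scoped Classical
open Pool.Agent.EN2 Pool.Agent.SRF Pool.Agent.DIS Pool.Agent.SFB IsLocalRing

/-- LVL: complete discrete subfields. -/
theorem lvl_proof : Stmt_LVL := by
  intro K _ O hD A
  obtain ⟨K₁, hA, hdvr, hcomp, hres⟩ := hD A
  obtain ⟨ϖ, hϖ⟩ := IsDiscreteValuationRing.exists_irreducible (O.comap K₁.subtype)
  have hval : ∀ u : (O.comap K₁.subtype), IsUnit u → O.valuation ((u : K₁) : K) = 1 := by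
    intro u hu
    obtain ⟨v, hv⟩ := hu.exists_right_inv
    have h1 : ((u : K₁) : K) ∈ O := u.2
    have h2 : ((v : K₁) : K) ∈ O := v.2
    have h3 : ((u : K₁) : K) * ((v : K₁) : K) = 1 := by
      have := congrArg (fun z : (O.comap K₁.subtype) => ((z : K₁) : K)) hv
      simpa using this
    have h4 := (O.valuation_le_one_iff _).mpr h1
    have h5 := (O.valuation_le_one_iff _).mpr h2
    have h6 : O.valuation ((u : K₁) : K) * O.valuation ((v : K₁) : K) = 1 := by
      rw [← map_mul, h3, map_one]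
    refine le_antisymm h4 ?_
    rw [← h6]
    exact mul_le_of_le_one_right' h5
  have hϖ0 : ((ϖ : K₁) : K) ≠ 0 := by
    intro h
    apply hϖ.ne_zero
    ext
    simpa using h
  have hdisc : ∀ a : (O.comap K₁.subtype), a ≠ 0 → ∃ n : ℕ,
      O.valuation ((a : K₁) : K) = O.valuation ((ϖ : K₁) : K) ^ n := by
    intro a ha
    obtain ⟨n, u, hu⟩ := IsDiscreteValuationRing.eq_unit_mul_pow_irreducible ha hϖ
    refine ⟨n, ?_⟩
    rw [hu]
    simp only [MulMemClass.coe_mul, SubmonoidClass.coe_pow, map_mul, map_pow]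
    rw [hval _ u.isUnit, one_mul]
  refine ⟨K₁, ((ϖ : K₁) : K), ⟨(ϖ : K₁).2, hϖ0, ?_, ?_, hdvr, hcomp, hres⟩, hA⟩
  · rw [ValuationSubring.mem_nonunits_iff]
    have h1 := (O.valuation_le_one_iff _).mpr (show ((ϖ : K₁) : K) ∈ O from ϖ.2)
    refine lt_of_le_of_ne h1 fun h => hϖ.not_isUnit ?_
    have h2 : ((ϖ : K₁) : K)⁻¹ ∈ O := by
      rw [← O.valuation_le_one_iff, map_inv₀, h, inv_one]
    refine isUnit_iff_exists_inv.mpr ⟨⟨(ϖ : K₁)⁻¹, by simpa using h2⟩, ?_⟩
    ext
    simp only [MulMemClass.coe_mul, OneMemClass.coe_one, Subfield.coe_inv]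
    exact mul_inv_cancel₀ hϖ0
  · intro a ha ha0
    rcases O.mem_or_inv_mem a with h | h
    · obtain ⟨n, hn⟩ := hdisc ⟨⟨a, ha⟩, h⟩ (by
        intro h0
        apply ha0
        have := congrArg (fun z : (O.comap K₁.subtype) => ((z : K₁) : K)) h0
        simpa using this)
      exact ⟨n, by rw [zpow_natCast]; exact hn⟩
    · obtain ⟨n, hn⟩ := hdisc ⟨⟨a⁻¹, inv_mem ha⟩, h⟩ (by
        intro h0
        apply ha0
        have := congrArg (fun z : (O.comap K₁.subtype) => ((z : K₁) : K)) h0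
        simpa using this)
      refine ⟨-n, ?_⟩
      have hn' : O.valuation a⁻¹ = O.valuation ((ϖ : K₁) : K) ^ n := hn
      rw [map_inv₀] at hn'
      rw [zpow_neg, zpow_natCast, ← hn', inv_inv]

end Pool.Agent.SFR
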