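import Pool.Agent.SFR.Stmts

/-!
# The norm trick for a space of residues
-/

set_option autoImplicit false

noncomputable section

namespace Pool.Agent.SFR

open scoped Classical
open Pool.Agent.EN2 Pool.Agent.SRF Pool.Agent.DIS Pool.Agent.SFB IsLocalRing

theorem nts_proof (hNT : SFB.Stmt_NT) : Stmt_NTS := by
  intro k Ω _ _ _ _ σ hσ hfin R hR A hA W U hU hUW l hl n n₀ hn₀ hint
  have hle : PF k σ ≤ R := by
    unfold PF
    rw [IntermediateField.adjoin_le_iff]
    rintro _ (rfl | rfl)
    · exact div_mem (hR 1) (hR 0)
    · exact div_mem (hR 2) (hR 0)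
  letI : Algebra (PF k σ) R := (IntermediateField.inclusion hle).toRingHom.toAlgebra
  haveI : IsScalarTower (PF k σ) R Ω := IsScalarTower.of_algebraMap_eq fun x => rfl
  have h1 : Module.finrank (PF k σ) R = (PF k σ).relfinrank R := by
    rw [IntermediateField.relfinrank_eq_finrank_of_le hle]
    let e : R ≃ₗ[PF k σ] (IntermediateField.extendScalars hle) :=
      { toFun := fun x => ⟨x.1, x.2⟩
        map_add' := fun _ _ => rfl
        map_smul' := fun r x => Subtype.ext (by
          show ((algebraMap (PF k σ) R r * x : R) : Ω) = (r : Ω) * x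
          rfl)
        invFun := fun x => ⟨x.1, x.2⟩
        left_inv := fun _ => rfl
        right_inv := fun _ => rfl }
    exact e.finrank_eq
  have hinj : Function.Injective (LinearMap.mulLeft (PF k σ) l) := fun a b h => by
    have h' : l * a = l * b := h
    exact mul_left_cancel₀ hl h'
  have hinj' : Function.Injective (LinearMap.mulLeft k l) := fun a b h => by
    have h' : l * a = l * b := h
    exact mul_left_cancel₀ hl h'
  let Y : Submodule (PF k σ) Ω := (W.restrictScalars (PF k σ)).map (LinearMap.mulLeft (PF k σ) l)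
  let U' : Submodule k Ω := U.map (LinearMap.mulLeft k l)
  have h2 : Module.finrank (PF k σ) Y = Module.finrank (PF k σ) (W.restrictScalars (PF k σ)) :=
    (Submodule.equivMapOfInjective _ hinj _).finrank_eq.symm
  have h2' : Module.finrank k U' = Module.finrank k U :=
    (Submodule.equivMapOfInjective _ hinj' _).finrank_eq.symm
  have h3 : Module.finrank (PF k σ) R * Module.finrank R (W.restrictScalars (PF k σ)) =
      Module.finrank (PF k σ) (W.restrictScalars (PF k σ)) :=
    Module.finrank_mul_finrank (PF k σ) R (W.restrictScalars (PF k σ))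
  have h4 : Module.finrank R (W.restrictScalars (PF k σ)) = Module.finrank R W := rfl
  haveI : FiniteDimensional k U' := inferInstanceAs (FiniteDimensional k (U.map _))
  have h5 := hNT k Ω σ hσ hfin Y U' inferInstance (by
    rintro _ ⟨u, hu, rfl⟩
    exact ⟨u, hUW u hu, rfl⟩) n n₀ hn₀ (by
    rintro _ ⟨u, hu, rfl⟩
    exact hint u hu)
  rw [h2', h2, ← h3, h1, h4] at h5
  refine h5.trans ?_
  gcongr

end Pool.Agent.SFR
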