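import Pool.Agent.SFR.Stmts

set_option autoImplicit false

noncomputable section

namespace Pool.Agent.SFR

open scoped Classical
open Pool.Agent.EN2 Pool.Agent.SRF Pool.Agent.DIS Pool.Agent.SFB IsLocalRing

namespace RED_

/-- The residue field of a valuation ring of an algebraically closed field is infinite. -/
lemma infinite_res {K : Type} [Field K] [IsAlgClosed K] (O : ValuationSubring K) :
    Infinite (ResidueField O) := by
  haveI : IsAlgClosed (ResidueField O) := by
    refine IsAlgClosed.of_exists_root _ fun q hq hirr => ?_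
    have hsurj : Function.Surjective (residue O) := residue_surjective
    obtain ⟨P, hP, hPd, hPm⟩ := Polynomial.lifts_and_natDegree_eq_and_monic
      ((Polynomial.mem_lifts _).mpr (Polynomial.map_surjective _ hsurj q)) hq
    have hdeg : (P.map O.subtype).degree ≠ 0 := by
      rw [Polynomial.degree_map_eq_of_injective Subtype.val_injective]
      have : 0 < P.natDegree := by rw [hPd]; exact hirr.natDegree_pos
      rw [Polynomial.degree_eq_natDegree hPm.ne_zero]
      exact_mod_cast this.ne'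
    obtain ⟨a, ha⟩ := IsAlgClosed.exists_root (P.map O.subtype) hdeg
    have hint : IsIntegral O a := by
      refine ⟨P, hPm, ?_⟩
      rw [Polynomial.IsRoot.def, Polynomial.eval_map] at ha
      exact ha
    obtain ⟨a', ha'⟩ := (IsIntegrallyClosed.isIntegral_iff (R := O) (K := K)).mp hint
    refine ⟨residue O a', ?_⟩
    rw [← hP, Polynomial.eval_map, Polynomial.eval₂_hom]
    have : P.eval a' = 0 := by
      apply Subtype.val_injective
      rw [Polynomial.IsRoot.def, Polynomial.eval_map] at ha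
      rw [← ha']  at ha
      change O.subtype (P.eval a') = 0
      rw [← Polynomial.eval₂_hom]
      exact ha
    rw [this, map_zero]
  exact IsAlgClosed.instInfinite

section nu

variable {K : Type} [Field K] {O : ValuationSubring K} {F : Type} [Field F] [Algebra K F]

lemma nu_smul {c : Pl O F} {ν : Valuation F O.ValueGroup} (h : IsNu O c ν) (a : K) (f : F) :
    ν (a • f) = O.valuation a * ν f := by
  rw [Algebra.smul_def, map_mul, h.alg]

lemma unit_of {c : Pl O F} {ν : Valuation F O.ValueGroup} (h : IsNu O c ν) {f : F}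
    (hf : f ∈ c.W) (hr : c.res f ≠ 0) : ν f = 1 := by
  refine le_antisymm ((h.mem f).mpr hf) ?_
  by_contra hlt
  push Not at hlt
  exact hr (c.res_nonunit ((h.lt f).mp hlt))

end nu

/-- The main inequality for a finite independent family. -/
theorem main (hCFI : Stmt_CFI) (hCVG : Stmt_CVG) (hVAL : Stmt_VAL) (hLVL : Stmt_LVL)
    (hDSN : Stmt_DSN) (hSPR : Stmt_SPR) (hFUD : Stmt_FUD) (hFRP : Stmt_FRP)
    (hFRK : Stmt_FRK) (hSTP : Stmt_STP) (hNTS : Stmt_NTS) (hINS : Stmt_INS)
    (K : Type) [Field K] [IsAlgClosed K] (O : ValuationSubring K) (hO : Arch O) (hD : Dvrs O)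
    (F : Type) [Field F] [Algebra K F] (x y : F) (hs : IsSurf K x y) (d : ℕ)
    (b : Comp O x y → F) (hb : IsTwist K O x y d b) (G : Finset F) (hG : ∀ g ∈ G, Bd O x y g)
    (hxy : ∀ c : Comp O x y, c.1.res x ∈ RF O c.1 G ∧ c.1.res y ∈ RF O c.1 G)
    (σ : ∀ c : Comp O x y, Fin 3 → ResidueField c.1.W)
    (hσ : ∀ c, IsPl (ResidueField O) (σ c)) (hσR : ∀ c i, σ c i ∈ RF O c.1 G) (δ A : ℕ)
    (hδ : ∀ c : Comp O x y, δ ≤ (PF (ResidueField O) (xi O x y c.1)).relfinrank (RF O c.1 G))
    (hA : ∀ c : Comp O x y, (PF (ResidueField O) (σ c)).relfinrank (RF O c.1 G) ≤ A)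
    (n n₀ : ℕ) (hn₀ : 0 < n₀) (V : Submodule K F)
    (hV : ∀ (c : Comp O x y) (g : F), InTw O x y b V c g →
      IntS (ResidueField O) (σ c) n n₀ (c.1.res g)) (c₀ : Comp O x y)
    (Z : Submodule (ResidueField O) (ResidueField c₀.1.W))
    (hZfd : FiniteDimensional (ResidueField O) Z)
    (hZ : ∀ z ∈ Z, z ∈ RF O c₀.1 G ∧ IntS (ResidueField O) (σ c₀) n n₀ z)
    (hVZ : ∀ f ∈ V, Bd O x y f → c₀.1.res f ∈ Z → c₀.1.res f = 0)
    (m : ℕ) (v : Fin m → F) (hvV : ∀ i, v i ∈ V) (hv : LinearIndependent K v) :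
    δ * (m + Module.finrank (ResidueField O) Z) ≤ deg K x y * A * (n / n₀ + 2).choose 2 := by
  have hfin : Finite (Comp O x y) := hCFI K O hO F x y hs
  have hVG := hCVG K O hO F x y hs
  haveI hinf : Infinite (ResidueField O) := infinite_res O
  have hfk : ∀ c : Comp O x y, FiniteDimensional (PF (ResidueField O) (σ c))
      (ResidueField c.1.W) := fun c => by
    obtain ⟨h1, h2⟩ := hFRK K O hO F x y hs hVG c
    exact hFRP _ _ _ _ h1 (hσ c) h2
  choose ν hν using hVAL K O F x y hVG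
  -- sizes of the twists
  have hκb : ∀ c : Comp O x y, ∃ κ : K, κ ≠ 0 ∧ κ⁻¹ • b c ∈ c.1.W ∧ c.1.res (κ⁻¹ • b c) ≠ 0 :=
    fun c => hVG c (b c) (hb.ne c).1
  choose κb hκb0 hκbW hκbr using hκb
  have hνb : ∀ c, ν c (b c) = O.valuation (κb c) := fun c => by
    have h1 := unit_of (hν c) (hκbW c) (hκbr c)
    rw [nu_smul (hν c), map_inv₀] at h1
    have h2 : O.valuation (κb c) ≠ 0 := by
      rw [Ne, map_eq_zero]; exact hκb0 c
    field_simp at h1
    exact h1
  have hbgt : ∀ c, 1 < O.valuation (κb c) := fun c => by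
    have h1 := (hb.ne c).2
    rw [← (hν c).lt, map_inv₀, hνb] at h1
    have h2 : O.valuation (κb c) ≠ 0 := by
      rw [Ne, map_eq_zero]; exact hκb0 c
    rwa [inv_lt_one₀ (zero_lt_iff.mpr h2)] at h1
  -- descent
  haveI : Fintype (Comp O x y) := Fintype.ofFinite _
  obtain ⟨A₀, hA₀⟩ := hDSN K F x y hs (G ∪ Finset.univ.image v)
  obtain ⟨K₁, ϖ, hL, hAK⟩ := hLVL K O hD (A₀ ∪ Finset.univ.image κb)
  obtain ⟨E, hBE, hEfd, hEdeg⟩ := hA₀ K₁ (fun a ha => hAK a (Finset.mem_union_left _ ha))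
  have hGE : ∀ g ∈ G, g ∈ E := fun g hg => hBE g (Finset.mem_union_left _ hg)
  have hvE : ∀ i, v i ∈ E := fun i => hBE _ (Finset.mem_union_right _
    (Finset.mem_image_of_mem _ (Finset.mem_univ i)))
  have hκbK : ∀ c, κb c ∈ K₁ := fun c => hAK _ (Finset.mem_union_right _
    (Finset.mem_image_of_mem _ (Finset.mem_univ c)))
  have hK₁E : ∀ a ∈ K₁, algebraMap K F a ∈ E.toSubfield := fun a ha => by
    have h1 : algebraMap K F a ∈ Pf x y K₁ :=
      Subfield.subset_closure (Or.inl ⟨a, ha, rfl⟩)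
    exact E.algebraMap_mem ⟨_, h1⟩
  have hϖ0 : O.valuation ϖ ≠ 0 := by
    rw [Ne, map_eq_zero]; exact hL.ne
  have hϖ1 : O.valuation ϖ < 1 := (O.mem_nonunits_iff).mp hL.nonunit
  -- the size of the twists and the uniformizer
  have hϖb : ∀ c, 1 ≤ O.valuation ϖ * O.valuation (κb c) := fun c => by
    obtain ⟨j, hj⟩ := hL.disc _ (hκbK c) (hκb0 c)
    have h1 := hbgt c
    rw [hj] at h1 ⊢
    have hj0 : j < 0 := by
      by_contra hj0
      push Not at hj0
      exact absurd h1 (not_lt.mpr (zpow_le_one₀ (zero_lt_iff.mpr hϖ0) hϖ1.le hj0))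
    rw [← zpow_one_add₀ hϖ0]
    exact one_le_zpow_of_nonpos₀ (zero_lt_iff.mpr hϖ0) hϖ1.le (by omega)
  obtain ⟨U₀, N, c, κ, U, hU₀fd, hU₀, hκ, hκc₀, hκne, hsame, hsame₀, hUfd, hU, hm⟩ :=
    hSTP K O hO F x y hfin hVG K₁ ϖ hL E.toSubfield hK₁E m v hvE hv c₀
  -- the steps, including the first one
  let cs : Option (Fin N) → Comp O x y := fun o => o.elim c₀ c
  let κs : Option (Fin N) → K := fun o => o.elim 1 κ
  have hκs0 : ∀ s, κs s ≠ 0 := by
    rintro (_ | s)
    · exact one_ne_zero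
    · exact (hκ s).1
  have hκs1 : ∀ s, O.valuation (κs s) ≤ 1 := by
    rintro (_ | s)
    · simp [κs]
    · exact (O.valuation_le_one_iff _).mpr (hκ s).2.2
  have hκsϖ : ∀ s, O.valuation ϖ < O.valuation (κs s) := by
    rintro (_ | s)
    · simpa [κs] using hϖ1
    · exact (hκ s).2.1
  have hκsne : ∀ s s', s ≠ s' → cs s = cs s' → O.valuation (κs s) ≠ O.valuation (κs s') := by
    rintro (_ | s) (_ | s') hne hc
    · exact absurd rfl hne
    · have h1 := hκc₀ s' hc.symm
      have h2 : O.valuation (κ s') < 1 := (O.mem_nonunits_iff).mp h1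
      simp only [κs, Option.elim, map_one]
      exact h2.ne'
    · have h1 := hκc₀ s hc
      have h2 : O.valuation (κ s) < 1 := (O.mem_nonunits_iff).mp h1
      simp only [κs, Option.elim, map_one]
      exact h2.ne
    · exact hκne s s' (fun h => hne (by rw [h])) hc
  have hlev : ∀ s s', s ≠ s' → cs s = cs s' → ∀ a ∈ K₁,
      O.valuation (κs s) ≠ O.valuation (a * κs s') := by
    intro s s' hne hc a ha heq
    rw [map_mul] at heq
    have h0s : O.valuation (κs s) ≠ 0 := by
      rw [Ne, map_eq_zero]; exact hκs0 s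
    have h0s' : O.valuation (κs s') ≠ 0 := by
      rw [Ne, map_eq_zero]; exact hκs0 s'
    have ha0 : a ≠ 0 := by
      rintro rfl
      rw [map_zero, zero_mul] at heq
      exact h0s heq
    obtain ⟨j, hj⟩ := hL.disc a ha ha0
    rw [hj] at heq
    rcases lt_trichotomy j 0 with hj0 | hj0 | hj0
    · have h1 : O.valuation ϖ ^ j * O.valuation (κs s') ≤ 1 := heq ▸ hκs1 s
      have h2 : O.valuation (κs s') ≤ O.valuation ϖ ^ (-j) := by
        rw [zpow_neg]
        calc O.valuation (κs s') = (O.valuation ϖ ^ j)⁻¹ * (O.valuation ϖ ^ j *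
              O.valuation (κs s')) := by
              rw [inv_mul_cancel_left₀ (zpow_ne_zero _ hϖ0)]
          _ ≤ (O.valuation ϖ ^ j)⁻¹ * 1 := by gcongr
          _ = (O.valuation ϖ ^ j)⁻¹ := mul_one _
      have h3 : O.valuation ϖ ^ (-j) ≤ O.valuation ϖ := by
        calc O.valuation ϖ ^ (-j) ≤ O.valuation ϖ ^ (1 : ℤ) :=
              zpow_le_zpow_right_of_le_one₀ (zero_lt_iff.mpr hϖ0) hϖ1.le (by omega)
          _ = O.valuation ϖ := zpow_one _
      exact absurd (hκsϖ s') (not_lt.mpr (h2.trans h3))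
    · rw [hj0, zpow_zero, one_mul] at heq
      exact hκsne s s' hne hc heq
    · have h1 : O.valuation ϖ ^ j ≤ O.valuation ϖ := by
        calc O.valuation ϖ ^ j ≤ O.valuation ϖ ^ (1 : ℤ) :=
              zpow_le_zpow_right_of_le_one₀ (zero_lt_iff.mpr hϖ0) hϖ1.le (by omega)
          _ = O.valuation ϖ := zpow_one _
      have h2 : O.valuation (κs s) ≤ O.valuation ϖ := by
        rw [heq]
        calc O.valuation ϖ ^ j * O.valuation (κs s') ≤ O.valuation ϖ * 1 := by
              gcongr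
              exact hκs1 s'
          _ = O.valuation ϖ := mul_one _
      exact absurd (hκsϖ s) (not_lt.mpr h2)
  -- separation
  have hsep : ∀ s, ∃ q ∈ E, q ∈ (cs s).1.W ∧ (cs s).1.res q ≠ 0 ∧
      ∀ s', cs s' ≠ cs s → q ∈ (cs s').1.W.nonunits := by
    intro s
    have hpair : ∀ c' ∈ Finset.univ.image cs, ∀ c'' ∈ Finset.univ.image cs, c' ≠ c'' →
        ¬ SameOn ((E.toSubfield : Subfield F) : Set F) c'.1 c''.1 := by
      intro c' hc' c'' hc'' hne
      obtain ⟨s1, -, rfl⟩ := Finset.mem_image.mp hc'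
      obtain ⟨s2, -, rfl⟩ := Finset.mem_image.mp hc''
      rcases s1 with _ | s1
      · rcases s2 with _ | s2
        · exact absurd rfl hne
        · intro h
          exact hsame₀ s2 (fun h => hne h.symm) (fun f hf => (h f hf).symm)
      · rcases s2 with _ | s2
        · exact hsame₀ s1 hne
        · exact hsame s1 s2 hne
    obtain ⟨q, hqE, h1, h2, h3⟩ := hSPR K O hO F x y hVG E.toSubfield (Finset.univ.image cs)
      ⟨ϖ, hL.ne, hL.nonunit, hK₁E ϖ hL.mem⟩ hpair (cs s)
      (Finset.mem_image_of_mem _ (Finset.mem_univ s))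
    exact ⟨q, hqE, h1, h2, fun s' hs' => h3 _ (Finset.mem_image_of_mem _ (Finset.mem_univ s')) hs'⟩
  obtain ⟨hWfd, hW⟩ := hFUD K O hO F x y hVG K₁ ϖ hL E hEfd (Option (Fin N)) cs κs hκs0 hlev hsep
    G hG hGE (fun s => hxy (cs s)) δ (fun s => hδ (cs s))
  rw [Fintype.sum_option] at hW
  let W₀ : Submodule (RF O c₀.1 G) (ResidueField c₀.1.W) :=
    Submodule.span (RF O c₀.1 G) (Rs c₀.1 (E : Set F) 1)
  let W : ∀ s : Fin N, Submodule (RF O (c s).1 G) (ResidueField (c s).1.W) := fun s =>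
    Submodule.span (RF O (c s).1 G) (Rs (c s).1 (E : Set F) (κ s))
  have hW' : δ * (Module.finrank (RF O c₀.1 G) W₀ +
      ∑ s : Fin N, Module.finrank (RF O (c s).1 G) (W s)) ≤ Module.finrank (Pf x y K₁) E := hW
  -- linear combinations
  have hcomb : ∀ a : Fin m → K₁, (∑ i, (a i : K) • v i) ∈ E ∧ (∑ i, (a i : K) • v i) ∈ V := by
    intro a
    constructor
    · refine sum_mem fun i _ => ?_
      rw [Algebra.smul_def]
      exact mul_mem (hK₁E _ (a i).2) (hvE i)
    · exact sum_mem fun i _ => V.smul_mem _ (hvV i)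
  -- the first step
  have hstep0 : Module.finrank (ResidueField O) U₀ + Module.finrank (ResidueField O) Z ≤
      A * Module.finrank (RF O c₀.1 G) W₀ * (n / n₀ + 2).choose 2 := by
    have hdisj : U₀ ⊓ Z = ⊥ := by
      rw [eq_bot_iff]
      rintro r ⟨hr1, hr2⟩
      obtain ⟨a, ha, rfl⟩ := hU₀ r hr1
      exact hVZ _ (hcomb a).2 ha hr2
    have hdim := Submodule.finrank_sup_add_finrank_inf_eq U₀ Z
    rw [hdisj, finrank_bot, add_zero] at hdim
    rw [← hdim]
    haveI : FiniteDimensional (ResidueField O) ↥(U₀ ⊔ Z) := Submodule.finiteDimensional_sup _ _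
    have hint : ∀ f ∈ U₀ ⊔ Z, IntS (ResidueField O) (σ c₀) n n₀ f := by
      intro f hf
      obtain ⟨r, hr, z, hz, rfl⟩ := Submodule.mem_sup.mp hf
      refine hINS _ _ (σ c₀) (hσ c₀).ne n n₀ hn₀ _ _ ?_ (hZ z hz).2
      obtain ⟨a, ha, rfl⟩ := hU₀ r hr
      exact hV c₀ _ ⟨ha, 1, _, (hcomb a).2, Or.inl (one_smul _ _).symm⟩
    refine hNTS _ _ (σ c₀) (hσ c₀) (hfk c₀) (RF O c₀.1 G) (hσR c₀) A (hA c₀) W₀ (U₀ ⊔ Z)
      inferInstance ?_ 1 one_ne_zero n n₀ hn₀ (fun f hf => by rw [one_mul]; exact hint f hf)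
    intro f hf
    obtain ⟨r, hr, z, hz, rfl⟩ := Submodule.mem_sup.mp hf
    refine W₀.add_mem ?_ ?_
    · obtain ⟨a, ha, rfl⟩ := hU₀ r hr
      refine Submodule.subset_span ⟨_, (hcomb a).1, ?_, ?_⟩
      · rw [inv_one, one_smul]
        exact ha c₀
      · rw [inv_one, one_smul]
    · have h1 : (1 : ResidueField c₀.1.W) ∈ W₀ := by
        refine Submodule.subset_span ⟨1, E.one_mem, ?_, ?_⟩
        · rw [inv_one, one_smul]
          exact one_mem _
        · rw [inv_one, one_smul, Pl.res_one]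
      have h2 := W₀.smul_mem (⟨z, (hZ z hz).1⟩ : RF O c₀.1 G) h1
      have h3 : (⟨z, (hZ z hz).1⟩ : RF O c₀.1 G) • (1 : ResidueField c₀.1.W) = z := by
        rw [Algebra.smul_def, mul_one]
        rfl
      rwa [h3] at h2
  -- the other steps
  have hstep : ∀ s : Fin N, Module.finrank (ResidueField O) (U s) ≤
      A * Module.finrank (RF O (c s).1 G) (W s) * (n / n₀ + 2).choose 2 := by
    intro s
    haveI := hUfd s
    refine hNTS _ _ (σ (c s)) (hσ (c s)) (hfk (c s)) (RF O (c s).1 G) (hσR (c s)) A (hA (c s))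
      (W s) (U s) inferInstance ?_ ((c s).1.res ((κb (c s))⁻¹ • b (c s))) (hκbr (c s))
      n n₀ hn₀ ?_
    · intro f hf
      obtain ⟨a, ha, haW, rfl⟩ := hU s f hf
      exact Submodule.subset_span ⟨_, (hcomb a).1, haW, rfl⟩
    · intro f hf
      obtain ⟨a, ha, haW, rfl⟩ := hU s f hf
      set w := ∑ i, (a i : K) • v i with hw
      have heq : ((κb (c s))⁻¹ • b (c s)) * ((κ s)⁻¹ • w) =
          ((κb (c s))⁻¹ * (κ s)⁻¹) • (b (c s) * w) := by
        rw [smul_mul_smul_comm]
      rw [← (c s).1.res_mul (hκbW (c s)) haW, heq]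
      refine hV (c s) _ ⟨?_, _, w, (hcomb a).2, Or.inr rfl⟩
      intro c'
      by_cases hcc : c' = c s
      · rw [hcc, ← heq]
        exact mul_mem (hκbW (c s)) haW
      · rw [← (hν c').mem, nu_smul (hν c'), map_mul, map_mul, map_inv₀, map_inv₀]
        have h1 : ν c' (b (c s)) ≤ 1 := ((hν c').mem _).mpr (hb.le (c s) c' hcc)
        have h2 : ν c' w ≤ 1 := ((hν c').mem _).mpr (ha c')
        have h3 : O.valuation (κb (c s)) ≠ 0 := by
          rw [Ne, map_eq_zero]; exact hκb0 _
        have h4 : O.valuation (κ s) ≠ 0 := by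
          rw [Ne, map_eq_zero]; exact (hκ s).1
        have h5 : 1 ≤ O.valuation (κ s) * O.valuation (κb (c s)) :=
          (hϖb (c s)).trans (by gcongr; exact (hκ s).2.1.le)
        have h6 : (O.valuation (κb (c s)))⁻¹ * (O.valuation (κ s))⁻¹ ≤ 1 := by
          rw [← mul_inv, mul_comm]
          exact inv_le_one_of_one_le₀ h5
        calc (O.valuation (κb (c s)))⁻¹ * (O.valuation (κ s))⁻¹ * (ν c' (b (c s)) * ν c' w)
            ≤ 1 * (1 * 1) := by gcongr
          _ = 1 := by simp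
  -- conclusion
  have hsum : m + Module.finrank (ResidueField O) Z ≤
      A * (n / n₀ + 2).choose 2 * (Module.finrank (RF O c₀.1 G) W₀ +
        ∑ s : Fin N, Module.finrank (RF O (c s).1 G) (W s)) := by
    calc m + Module.finrank (ResidueField O) Z
        ≤ (Module.finrank (ResidueField O) U₀ + ∑ s, Module.finrank (ResidueField O) (U s)) +
            Module.finrank (ResidueField O) Z := by omega
      _ = (Module.finrank (ResidueField O) U₀ + Module.finrank (ResidueField O) Z) +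
            ∑ s, Module.finrank (ResidueField O) (U s) := by ring
      _ ≤ A * Module.finrank (RF O c₀.1 G) W₀ * (n / n₀ + 2).choose 2 +
            ∑ s : Fin N, A * Module.finrank (RF O (c s).1 G) (W s) *
              (n / n₀ + 2).choose 2 := add_le_add hstep0 (Finset.sum_le_sum fun s _ => hstep s)
      _ = _ := by
            rw [mul_add, Finset.mul_sum]
            congr 1
            · ring
            · exact Finset.sum_congr rfl fun s _ => by ring
  calc δ * (m + Module.finrank (ResidueField O) Z)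
      ≤ δ * (A * (n / n₀ + 2).choose 2 * (Module.finrank (RF O c₀.1 G) W₀ +
        ∑ s : Fin N, Module.finrank (RF O (c s).1 G) (W s))) := Nat.mul_le_mul_left _ hsum
    _ = (δ * (Module.finrank (RF O c₀.1 G) W₀ +
        ∑ s : Fin N, Module.finrank (RF O (c s).1 G) (W s))) *
          (A * (n / n₀ + 2).choose 2) := by ring
    _ ≤ deg K x y * (A * (n / n₀ + 2).choose 2) :=
          Nat.mul_le_mul_right _ (hW'.trans hEdeg)
    _ = deg K x y * A * (n / n₀ + 2).choose 2 := by ring

end RED_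

open RED_ in
/-- RED: dimensions in terms of reductions. -/
theorem red_proof (hCFI : Stmt_CFI) (hCVG : Stmt_CVG) (hVAL : Stmt_VAL) (hLVL : Stmt_LVL)
    (hDSN : Stmt_DSN) (hSPR : Stmt_SPR) (hFUD : Stmt_FUD) (hFRP : Stmt_FRP)
    (hFRK : Stmt_FRK) (hSTP : Stmt_STP) (hTWI : Stmt_TWI) (hNTS : Stmt_NTS)
    (hINS : Stmt_INS) : SFB.Stmt_RED := by
  intro K _ _ O hO hD F _ _ x y hs
  obtain ⟨d, b, hb⟩ := hTWI K O hO F x y hs
  refine ⟨d, b, hb, ?_⟩
  intro G hG hxy σ hσ hσR δ A hδ hA n n₀ hn₀ V hV c₀ Z hZfd hZ hVZ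
  have hVG := hCVG K O hO F x y hs
  have key : ∀ δ' : ℕ,
      (∀ c : Comp O x y, δ' ≤ (PF (ResidueField O) (xi O x y c.1)).relfinrank (RF O c.1 G)) →
      ∀ (m : ℕ) (v : Fin m → V), LinearIndependent K v →
      δ' * (m + Module.finrank (ResidueField O) Z) ≤ deg K x y * A * (n / n₀ + 2).choose 2 := by
    intro δ' hδ' m v hv
    exact main hCFI hCVG hVAL hLVL hDSN hSPR hFUD hFRP hFRK hSTP hNTS hINS K O hO hD F x y hs
      d b hb G hG hxy σ hσ hσR δ' A hδ' hA n n₀ hn₀ V hV c₀ Z hZfd hZ hVZ m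
      (fun i => (v i : F)) (fun i => (v i).2)
      (hv.map' V.subtype (by rw [Submodule.ker_subtype]))
  have hone : ∀ c : Comp O x y,
      1 ≤ (PF (ResidueField O) (xi O x y c.1)).relfinrank (RF O c.1 G) := by
    intro c
    obtain ⟨h1, h2⟩ := hFRK K O hO F x y hs hVG c
    have hle : PF (ResidueField O) (xi O x y c.1) ≤ RF O c.1 G := by
      rw [PF, IntermediateField.adjoin_le_iff]
      rintro r (rfl | rfl)
      · simpa [xi] using (hxy c).1
      · simpa [xi] using (hxy c).2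
    have h3 := IntermediateField.relfinrank_mul_finrank_top hle
    have h4 : 0 < Module.finrank (PF (ResidueField O) (xi O x y c.1)) (ResidueField c.1.W) :=
      Module.finrank_pos
    rw [← h3] at h4
    exact Nat.pos_of_mul_pos_right h4
  have hfd : FiniteDimensional K V := by
    by_contra hnot
    have hr : Cardinal.aleph0 ≤ Module.rank K V := by
      rw [← not_lt, Module.rank_lt_aleph0_iff]
      exact hnot
    obtain ⟨f, hf⟩ := exists_linearIndependent_of_le_rank
      (n := deg K x y * A * (n / n₀ + 2).choose 2 + 1)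
      (le_trans (Cardinal.natCast_lt_aleph0).le hr)
    have := key 1 hone _ f hf
    omega
  refine ⟨hfd, ?_⟩
  haveI := hfd
  exact key δ hδ _ (Module.finBasis K V) (Module.finBasis K V).linearIndependent

end Pool.Agent.SFR
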