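import Pool.Agent.SFR.Stmts
import Pool.Agent.EN2.Pls

/-!
# SPR: separation of components by elements of a subfield
-/

set_option autoImplicit false

noncomputable section

namespace Pool.Agent.SFR

open scoped Classical
open Pool.Agent.EN2 Pool.Agent.SRF Pool.Agent.DIS Pool.Agent.SFB IsLocalRing

namespace SPR_

variable {K : Type} [Field K] {O : ValuationSubring K} {F : Type} [Field F] [Algebra K F] {x y : F}

omit [Algebra K F] in
lemma inv_add_inv' {u : F} (hu : u ≠ 0) : (1 + u⁻¹)⁻¹ = u * (1 + u)⁻¹ := by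
  have h : 1 + u⁻¹ = (1 + u) * u⁻¹ := by
    rw [add_mul, one_mul, mul_inv_cancel₀ hu, add_comm]
  rw [h, mul_inv, inv_inv, mul_comm]

/-- powers of nonunits are small -/
lemma pow_small (hO : Arch O) (hvg : VG (fun c : Comp O x y => c.1)) (c : Comp O x y) {a : F}
    (ha : a ∈ c.1.W.nonunits) (b : F) :
    ∃ n : ℕ, ∀ m, n ≤ m → a ^ m * b ∈ c.1.W.nonunits := by
  by_cases ha0 : a = 0
  · refine ⟨1, fun m hm => ?_⟩
    rw [ha0, zero_pow (by omega), zero_mul]
    exact nu_zero
  by_cases hb0 : b = 0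
  · refine ⟨0, fun m _ => ?_⟩
    rw [hb0, mul_zero]
    exact nu_zero
  obtain ⟨κ, hκ, hκ'⟩ := sz_val.mp (show Sz c.1 a from hvg c a ha0)
  obtain ⟨l, hl, hl'⟩ := sz_val.mp (show Sz c.1 b from hvg c b hb0)
  have hκn : κ ∈ O.nonunits := by
    rw [← c.1.alg_nonunit, ValuationSubring.mem_nonunits_iff, ← hκ',
      ← ValuationSubring.mem_nonunits_iff]
    exact ha
  obtain ⟨n, hn⟩ := hO.arch κ l hκn
  refine ⟨n + 1, fun m hm => ?_⟩
  rw [ValuationSubring.mem_nonunits_iff, map_mul, map_pow, hκ', hl', ← map_pow, ← map_pow, ← map_mul,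
    ← map_mul, ← ValuationSubring.mem_nonunits_iff, c.1.alg_nonunit]
  obtain ⟨j, rfl⟩ := Nat.exists_eq_add_of_le hm
  have e : κ ^ (n + 1 + j) * l = κ * (κ ^ j * (κ ^ n * l)) := by ring
  rw [e]
  exact nu_mul' hκn (mul_mem (pow_mem (nu_mem hκn) _) hn)

/-- components with different restrictions are independent on `E` -/
lemma indep (hO : Arch O) (hvg : VG (fun c : Comp O x y => c.1)) (E : Subfield F) {a : K}
    (ha0 : a ≠ 0) (ha : a ∈ O.nonunits) (haE : algebraMap K F a ∈ E) (c d : Comp O x y)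
    (h : ¬ SameOn (E : Set F) c.1 d.1) : ∃ f ∈ E, f ∈ c.1.W ∧ f ∉ d.1.W := by
  by_contra hcon
  push Not at hcon
  apply h
  intro f hfE
  refine ⟨fun hf => hcon f hfE hf, fun hf => ?_⟩
  by_contra hn
  have h1 := nu_of_inv hn
  obtain ⟨n, hn'⟩ := pow_small hO hvg c h1 (algebraMap K F a⁻¹)
  have haE' : algebraMap K F a⁻¹ ∈ E := by
    rw [map_inv₀]
    exact inv_mem haE
  have h2 : f⁻¹ ^ n * algebraMap K F a⁻¹ ∈ d.1.W :=
    hcon _ (mul_mem (pow_mem (inv_mem hfE) _) haE') (nu_mem (hn' n le_rfl))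
  have hf0 : f ≠ 0 := by
    rintro rfl
    exact hn (zero_mem _)
  have h3 : algebraMap K F a⁻¹ = f ^ n * (f⁻¹ ^ n * algebraMap K F a⁻¹) := by
    rw [inv_pow, ← mul_assoc, mul_inv_cancel₀ (pow_ne_zero _ hf0), one_mul]
  have h4 : algebraMap K F a⁻¹ ∈ d.1.W := by
    rw [h3]
    exact mul_mem (pow_mem hf _) h2
  rw [d.1.mem_iff] at h4
  exact nu_inv_not_mem ha ha0 h4

/-- weak approximation -/
lemma approx (hO : Arch O) (hvg : VG (fun c : Comp O x y => c.1)) (E : Subfield F) {a₀ : K}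
    (ha0 : a₀ ≠ 0) (ha : a₀ ∈ O.nonunits) (haE : algebraMap K F a₀ ∈ E) (c : Comp O x y)
    (S : Finset (Comp O x y)) (hcS : ∀ s ∈ S, ¬ SameOn (E : Set F) c.1 s.1) :
    ∃ a ∈ E, a ∉ c.1.W ∧ ∀ s ∈ S, a ∈ s.1.W.nonunits := by
  classical
  induction S using Finset.induction_on with
  | empty =>
    refine ⟨algebraMap K F a₀⁻¹, ?_, ?_, fun s hs => absurd hs (Finset.notMem_empty s)⟩
    · rw [map_inv₀]
      exact inv_mem haE
    rw [c.1.mem_iff]
    exact nu_inv_not_mem ha ha0
  | insert d S hd ih =>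
    obtain ⟨a, haE1, ha, haS⟩ := ih fun s hs => hcS s (Finset.mem_insert_of_mem hs)
    have hcd := hcS d (Finset.mem_insert_self d S)
    -- `b` large at `c`, small at `d`
    obtain ⟨b, hbE, hb, hbd⟩ : ∃ b ∈ E, b ∉ c.1.W ∧ b ∈ d.1.W.nonunits := by
      have hcd' : ¬ SameOn (E : Set F) d.1 c.1 := fun h => hcd fun f hf => (h f hf).symm
      obtain ⟨f, hfE, hf1, hf2⟩ := indep hO hvg E ha0 ‹a₀ ∈ O.nonunits› haE c d hcd
      obtain ⟨g, hgE, hg1, hg2⟩ := indep hO hvg E ha0 ‹a₀ ∈ O.nonunits› haE d c hcd'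
      have hf0 : f ≠ 0 := by
        rintro rfl
        exact hf2 (zero_mem _)
      refine ⟨g / f, div_mem hgE hfE, ?_, ?_⟩
      · intro h
        apply hg2
        have : g = (g / f) * f := by field_simp
        rw [this]
        exact mul_mem h hf1
      · rw [div_eq_mul_inv]
        exact nu_mul hg1 (nu_of_inv hf2)
    have hS' : ∃ n : ℕ, ∀ s ∈ S, ∀ m, n ≤ m → a ^ m * b ∈ s.1.W.nonunits := by
      have h1 : ∀ s : Comp O x y, ∃ n : ℕ, s ∈ S → ∀ m, n ≤ m → a ^ m * b ∈ s.1.W.nonunits := by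
        intro s
        by_cases hs : s ∈ S
        · obtain ⟨n, hn⟩ := pow_small hO hvg s (haS s hs) b
          exact ⟨n, fun _ => hn⟩
        · exact ⟨0, fun h => absurd h hs⟩
      choose n hn using h1
      refine ⟨S.sup n, fun s hs m hm => hn s hs m (le_trans (Finset.le_sup hs) hm)⟩
    obtain ⟨n, hn⟩ := hS'
    have ha1 : a ≠ 0 := by
      rintro rfl
      exact ha (zero_mem _)
    have hb0 : b ≠ 0 := by
      rintro rfl
      exact hb (zero_mem _)
    -- powers of `a` are not in `c`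
    have hpow : ∀ (e : Comp O x y), a ∉ e.1.W → ∀ m, (a ^ (m + 1))⁻¹ ∈ e.1.W.nonunits := by
      intro e he m
      rw [← inv_pow, pow_succ]
      exact nu_mul (pow_mem (nu_mem (nu_of_inv he)) _) (nu_of_inv he)
    by_cases had : a ∈ d.1.W
    · refine ⟨a ^ n * b, mul_mem (pow_mem haE1 _) hbE, ?_, ?_⟩
      · intro h
        apply hb
        have e : b = (a⁻¹) ^ n * (a ^ n * b) := by
          rw [inv_pow, ← mul_assoc, inv_mul_cancel₀ (pow_ne_zero _ ha1), one_mul]
        rw [e]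
        exact mul_mem (pow_mem (nu_mem (nu_of_inv ha)) _) h
      · intro s hs
        rcases Finset.mem_insert.mp hs with rfl | hs
        · exact nu_mul (pow_mem had _) hbd
        · exact hn s hs n le_rfl
    · -- `b a ^ m / (1 + a ^ m)`
      set m := n + 1 with hm
      have key : ∀ e : Comp O x y, a ∉ e.1.W →
          (1 + (a ^ m)⁻¹) ∈ e.1.W ∧ (1 + (a ^ m)⁻¹)⁻¹ ∈ e.1.W := by
        intro e he
        have h1 := hpow e he n
        have h2 : (1 + (a ^ m)⁻¹) ∈ e.1.W := add_mem (one_mem _) (nu_mem h1)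
        refine ⟨h2, ?_⟩
        by_contra h3
        have h4 := nu_of_inv h3
        rw [inv_inv] at h4
        have h5 := nu_sub h4 h1
        rw [add_sub_cancel_right] at h5
        exact one_not_nu h5
      have hne1 : 1 + (a ^ m)⁻¹ ≠ 0 := by
        intro h0
        have h1 := hpow c ha n
        have h2 := nu_neg h1
        have h3 : (1 : F) = -(a ^ (n + 1))⁻¹ := by
          rw [← hm]
          linear_combination h0
        rw [← h3] at h2
        exact one_not_nu h2
      refine ⟨b * (1 + (a ^ m)⁻¹)⁻¹, mul_mem hbE (inv_mem (add_mem (one_mem _)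
        (inv_mem (pow_mem haE1 _)))), ?_, ?_⟩
      · intro h
        apply hb
        have e : b = (b * (1 + (a ^ m)⁻¹)⁻¹) * (1 + (a ^ m)⁻¹) := by
          rw [mul_assoc, inv_mul_cancel₀ hne1, mul_one]
        rw [e]
        exact mul_mem h (key c ha).1
      · intro s hs
        rcases Finset.mem_insert.mp hs with rfl | hs
        · exact nu_mul' hbd (key _ had).2
        · have h1 : b * (1 + (a ^ m)⁻¹)⁻¹ = (a ^ m * b) * (1 + a ^ m)⁻¹ := by
            rw [inv_add_inv' (pow_ne_zero _ ha1)]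
            ring
          rw [h1]
          have h2 : a ^ m ∈ s.1.W.nonunits := by
            rw [hm, pow_succ]
            exact nu_mul (pow_mem (nu_mem (haS s hs)) _) (haS s hs)
          have h3 : (1 + a ^ m)⁻¹ ∈ s.1.W := by
            by_contra h3
            have h4 := nu_of_inv h3
            rw [inv_inv] at h4
            have h5 := nu_sub h4 h2
            rw [add_sub_cancel_right] at h5
            exact one_not_nu h5
          exact nu_mul' (hn s hs m (by omega)) h3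

end SPR_

theorem spr_proof (_h : Stmt_VAL) : Stmt_SPR := by
  intro K _ O hO F _ _ x y hvg E I ⟨a₀, ha0, ha, haE⟩ hI c hc
  have hcS : ∀ s ∈ I.erase c, ¬ SameOn (E : Set F) c.1 s.1 := fun s hs =>
    hI c hc s (Finset.mem_of_mem_erase hs) (Finset.ne_of_mem_erase hs).symm
  obtain ⟨a, haE1, ha1, haS⟩ := SPR_.approx hO hvg E ha0 ha haE c (I.erase c) hcS
  have ha2 : a ≠ 0 := by
    rintro rfl
    exact ha1 (zero_mem _)
  have h1 := nu_of_inv ha1
  have h2 : 1 + a⁻¹ ∈ c.1.W := add_mem (one_mem _) (nu_mem h1)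
  have h3 : c.1.res (1 + a⁻¹) = 1 := by
    rw [c.1.res_add (one_mem _) (nu_mem h1), c.1.res_one, c.1.res_nonunit h1, add_zero]
  have h4 : c.1.res (1 + a⁻¹) ≠ 0 := by
    rw [h3]
    exact one_ne_zero
  refine ⟨(1 + a⁻¹)⁻¹, inv_mem (add_mem (one_mem _) (inv_mem haE1)), c.1.inv_mem h4, ?_,
    fun s hs hsc => ?_⟩
  · rw [c.1.res_inv h4, h3, inv_one]
    exact one_ne_zero
  · have hs' := haS s (Finset.mem_erase.2 ⟨hsc, hs⟩)
    rw [SPR_.inv_add_inv' ha2]
    refine nu_mul' hs' ?_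
    by_contra h5
    have h6 := nu_of_inv h5
    rw [inv_inv] at h6
    have h7 := nu_sub h6 hs'
    rw [add_sub_cancel_right] at h7
    exact one_not_nu h7

end Pool.Agent.SFR
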