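import Pool.Agent.SFR.Stmts

/-!
# The steps of the filtration of the lattice
-/

set_option autoImplicit false

noncomputable section

namespace Pool.Agent.SFR

open scoped Classical
open Pool.Agent.EN2 Pool.Agent.SRF Pool.Agent.DIS Pool.Agent.SFB IsLocalRing

namespace STP_

section setoid

variable {K : Type} [Field K] {O : ValuationSubring K} {F : Type} [Field F] [Algebra K F]
  {x y : F}

/-- The relation `SameOn E`. -/
def st (E : Set F) : Setoid (Comp O x y) where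
  r c c' := SameOn E c.1 c'.1
  iseqv := ⟨fun _ _ _ => Iff.rfl, fun h f hf => (h f hf).symm,
    fun h h' f hf => (h f hf).trans (h' f hf)⟩

theorem exists_rep (E : Set F) (c₀ : Comp O x y) : ∃ r : Comp O x y → Comp O x y, r c₀ = c₀ ∧
    (∀ c, SameOn E c.1 (r c).1) ∧ ∀ c c', SameOn E c.1 c'.1 → r c = r c' := by
  refine ⟨fun c => if SameOn E c.1 c₀.1 then c₀ else (Quotient.mk (st E) c).out, ?_, ?_, ?_⟩
  · have h : SameOn E c₀.1 c₀.1 := fun _ _ => Iff.rfl
    simp only [h, if_true]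
  · intro c
    by_cases h : SameOn E c.1 c₀.1
    · simp only [h, if_true]
    · simp only [h, if_false]
      have h1 := Quotient.mk_out (s := st E) c
      exact (st E).symm h1
  · intro c c' h
    have h1 : SameOn E c.1 c₀.1 ↔ SameOn E c'.1 c₀.1 :=
      ⟨fun h2 f hf => (h f hf).symm.trans (h2 f hf), fun h2 f hf => (h f hf).trans (h2 f hf)⟩
    by_cases h2 : SameOn E c.1 c₀.1
    · simp only [h2, h1.1 h2, if_true]
    · have h2' : ¬ SameOn E c'.1 c₀.1 := fun h3 => h2 (h1.2 h3)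
      have h3 : Quotient.mk (st (O := O) (x := x) (y := y) E) c = Quotient.mk (st E) c' :=
        Quotient.sound h
      simp only [h2, h2', if_false, h3]

end setoid

/-! ## The discrete valuation ring -/

section dvr

variable {K : Type} [Field K] {O : ValuationSubring K} {K₁ : Subfield K} {ϖ : K}

/-- The valuation ring of the subfield. -/
abbrev R1 (O : ValuationSubring K) (K₁ : Subfield K) : Type := ↥(O.comap K₁.subtype)

/-- The inclusion in `K`. -/
abbrev cK (a : R1 O K₁) : K := ((a : K₁) : K)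

theorem cK_mem (a : R1 O K₁) : cK a ∈ O := a.2

theorem val_le (a : R1 O K₁) : O.valuation (cK a) ≤ 1 := (O.valuation_le_one_iff _).2 a.2

/-- Elements of `K₁ ∩ O` as elements of the ring. -/
def mk1 (a : K) (h : a ∈ K₁) (h' : a ∈ O) : R1 O K₁ := ⟨⟨a, h⟩, h'⟩

theorem unit_iff (a : R1 O K₁) : IsUnit a ↔ O.valuation (cK a) = 1 := by
  constructor
  · rintro ⟨u, rfl⟩
    have h1 : cK (u : R1 O K₁) * cK ((u⁻¹ : (R1 O K₁)ˣ) : R1 O K₁) = 1 := by
      exact congrArg (fun z : R1 O K₁ => cK z) (Units.mul_inv u)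
    have h2 := congrArg O.valuation h1
    rw [map_mul, map_one] at h2
    apply le_antisymm (val_le _)
    rw [← h2]
    calc O.valuation (cK (u : R1 O K₁)) * O.valuation (cK ((u⁻¹ : (R1 O K₁)ˣ) : R1 O K₁))
        ≤ O.valuation (cK (u : R1 O K₁)) * 1 := mul_le_mul_right (val_le _) _
      _ = _ := mul_one _
  · intro h
    have h0 : cK a ≠ 0 := by
      intro h0
      rw [h0, map_zero] at h
      exact zero_ne_one h
    have h1 : (cK a)⁻¹ ∈ O := by
      rw [← O.valuation_le_one_iff, map_inv₀, h, inv_one]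
    have h2 : (cK a)⁻¹ ∈ K₁ := K₁.inv_mem (a : K₁).2
    refine IsUnit.of_mul_eq_one (mk1 (cK a)⁻¹ h2 h1) ?_
    apply Subtype.ext
    apply Subtype.ext
    exact mul_inv_cancel₀ h0

theorem mem_max (a : R1 O K₁) : a ∈ maximalIdeal (R1 O K₁) ↔ O.valuation (cK a) < 1 := by
  rw [mem_maximalIdeal, mem_nonunits_iff, unit_iff]
  exact ⟨fun h => lt_of_le_of_ne (val_le a) h, fun h => h.ne⟩

variable (hL : Lvl O K₁ ϖ)
include hL

theorem lt_one : O.valuation ϖ < 1 := hL.nonunit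

theorem ne_zero : O.valuation ϖ ≠ 0 := (Valuation.ne_zero_iff _).2 hL.ne

theorem le_pi {a : K} (ha : a ∈ K₁) (h : O.valuation a < 1) : O.valuation a ≤ O.valuation ϖ := by
  by_cases h0 : a = 0
  · rw [h0, map_zero]; exact zero_le
  obtain ⟨n, hn⟩ := hL.disc a ha h0
  have h1 := lt_one hL
  have h2 := ne_zero hL
  rw [hn] at h ⊢
  have hpos : 0 < O.valuation ϖ := zero_lt_iff.2 h2
  have hn1 : 1 ≤ n := by
    by_contra hcon
    push Not at hcon
    have h3 : n ≤ 0 := by omega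
    have h4 : (1 : O.ValueGroup) ≤ O.valuation ϖ ^ n := one_le_zpow_of_nonpos₀ hpos h1.le h3
    exact absurd h (not_lt.2 h4)
  calc O.valuation ϖ ^ n ≤ O.valuation ϖ ^ (1 : ℤ) := zpow_le_zpow_right_of_le_one₀ hpos h1.le hn1
    _ = _ := zpow_one _

/-- The uniformizer. -/
def pi1 : R1 O K₁ := mk1 ϖ hL.mem (nonunit_mem hL.nonunit)

theorem irr : Irreducible (pi1 hL) := by
  constructor
  · rw [unit_iff]
    exact (lt_one hL).ne
  · intro a b hab
    by_contra hcon
    rw [not_or, unit_iff, unit_iff] at hcon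
    have ha : O.valuation (cK a) < 1 := lt_of_le_of_ne (val_le a) hcon.1
    have hb : O.valuation (cK b) < 1 := lt_of_le_of_ne (val_le b) hcon.2
    have ha' := le_pi hL (a : K₁).2 ha
    have h1 : ϖ = cK a * cK b := congrArg (fun z : R1 O K₁ => cK z) hab
    have h2 : O.valuation ϖ = O.valuation (cK a) * O.valuation (cK b) := by
      rw [h1, map_mul]
    have h3 : O.valuation ϖ ≤ O.valuation ϖ * O.valuation (cK b) := by
      calc O.valuation ϖ = O.valuation (cK a) * O.valuation (cK b) := h2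
        _ ≤ O.valuation ϖ * O.valuation (cK b) := mul_le_mul_left ha' _
    have h4 : O.valuation ϖ * O.valuation (cK b) < O.valuation ϖ * 1 :=
      mul_lt_mul_of_pos_left hb (zero_lt_iff.2 (ne_zero hL))
    rw [mul_one] at h4
    exact absurd h3 (not_le.2 h4)

theorem dvd_pi {a : R1 O K₁} (h : O.valuation (cK a) < 1) : ∃ b : R1 O K₁, a = pi1 hL * b := by
  have h1 := le_pi hL (a : K₁).2 h
  have h2 : ϖ⁻¹ * cK a ∈ O := by
    rw [← O.valuation_le_one_iff, map_mul, map_inv₀]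
    calc (O.valuation ϖ)⁻¹ * O.valuation (cK a) ≤ (O.valuation ϖ)⁻¹ * O.valuation ϖ :=
          mul_le_mul_right h1 _
      _ = 1 := inv_mul_cancel₀ (ne_zero hL)
  refine ⟨mk1 (ϖ⁻¹ * cK a) (K₁.mul_mem (K₁.inv_mem hL.mem) (a : K₁).2) h2, ?_⟩
  apply Subtype.ext
  apply Subtype.ext
  show cK a = ϖ * (ϖ⁻¹ * cK a)
  rw [← mul_assoc, mul_inv_cancel₀ hL.ne, one_mul]

end dvr

/-! ## The lattice -/

section lattice

variable {K : Type} [Field K] {O : ValuationSubring K} {F : Type} [Field F] [Algebra K F]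
  {K₁ : Subfield K} {m : ℕ} (v : Fin m → F)

/-- Linear combinations of `v`. -/
def Ph (a : Fin m → K₁) : F := ∑ i, ((a i : K₁) : K) • v i

theorem Ph_add (a b : Fin m → K₁) : Ph v (a + b) = Ph v a + Ph v b := by
  simp only [Ph, Pi.add_apply, Subfield.coe_add, add_smul, Finset.sum_add_distrib]

theorem Ph_zero : Ph v (0 : Fin m → K₁) = 0 := by
  simp [Ph]

theorem Ph_smul (c : R1 O K₁) (a : Fin m → K₁) : Ph v (c • a) = cK c • Ph v a := by
  rw [Ph, Ph, Finset.smul_sum]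
  refine Finset.sum_congr rfl fun i _ => ?_
  rw [smul_smul]
  rfl

theorem Ph_inj (hv : LinearIndependent K v) {a : Fin m → K₁} (h : Ph v a = 0) : a = 0 := by
  rw [Fintype.linearIndependent_iff] at hv
  have h1 := hv (fun i => ((a i : K₁) : K)) h
  funext i
  exact Subtype.ext (h1 i)

variable (O) (x y : F)

/-- The lattice of bounded combinations. -/
def Lat : Submodule (R1 O K₁) (Fin m → K₁) where
  carrier := {a | Bd O x y (Ph v a)}
  zero_mem' := by
    intro c
    rw [Ph_zero]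
    exact zero_mem _
  add_mem' := by
    intro a b ha hb c
    rw [Ph_add]
    exact add_mem (ha c) (hb c)
  smul_mem' := by
    intro r a ha c
    rw [Ph_smul]
    exact c.1.smul_mem (cK_mem r) (ha c)

variable {O x y}

theorem lat_bd (a : Lat O v x y (K₁ := K₁)) : Bd O x y (Ph v a.1) := a.2

theorem tf (r : R1 O K₁) (f : Lat O v x y (K₁ := K₁)) (h : r • f = 0) : r = 0 ∨ f = 0 := by
  by_cases hr : r = 0
  · exact Or.inl hr
  right
  apply Subtype.ext
  funext i
  have h1 : (r : K₁) * f.1 i = 0 := by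
    have := congrArg (fun z : Lat O v x y (K₁ := K₁) => z.1 i) h
    exact this
  rcases mul_eq_zero.1 h1 with h2 | h2
  · exact absurd (Subtype.ext h2) hr
  · exact h2

/-- The bounded combination of elements of the lattice. -/
theorem Ph_comb (h : Fin m → Lat O v x y (K₁ := K₁)) (a : Fin m → R1 O K₁) :
    Ph v (∑ i, a i • h i : Lat O v x y (K₁ := K₁)).1 = ∑ i, cK (a i) • Ph v (h i).1 := by
  have key : ∀ s : Finset (Fin m), Ph v (∑ i ∈ s, a i • h i : Lat O v x y (K₁ := K₁)).1 =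
      ∑ i ∈ s, cK (a i) • Ph v (h i).1 := by
    intro s
    induction s using Finset.induction_on with
    | empty => simp [Ph_zero]
    | insert i s hi ih =>
      rw [Finset.sum_insert hi, Finset.sum_insert hi, ← ih, ← Ph_smul]
      exact Ph_add v _ _
  exact key _

end lattice

section main

variable {K : Type} [Field K] {O : ValuationSubring K} {F : Type} [Field F] [Algebra K F]
  {x y : F} {K₁ : Subfield K} {ϖ : K} (hL : Lvl O K₁ ϖ) {m : ℕ} {v : Fin m → F}

/-- powers of a nonunit are small -/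
theorem arch_pow (hA : Arch O) (hL : Lvl O K₁ ϖ) {γ : O.ValueGroup} (hγ : γ ≠ 0) :
    ∃ n : ℕ, O.valuation ϖ ^ n < γ := by
  obtain ⟨κ, hκ⟩ := O.valuation_surjective γ
  have hκ0 : κ ≠ 0 := by
    rintro rfl
    rw [map_zero] at hκ
    exact hγ hκ.symm
  obtain ⟨n, hn⟩ := hA.arch ϖ κ⁻¹ hL.nonunit
  refine ⟨n + 1, ?_⟩
  rw [← O.valuation_le_one_iff, map_mul, map_pow, map_inv₀, hκ] at hn
  have hpos : 0 < γ := zero_lt_iff.2 hγ
  have h1 : O.valuation ϖ ^ n ≤ γ := by
    calc O.valuation ϖ ^ n = O.valuation ϖ ^ n * γ⁻¹ * γ := by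
          rw [mul_assoc, inv_mul_cancel₀ hγ, mul_one]
      _ ≤ 1 * γ := mul_le_mul_left hn _
      _ = γ := one_mul _
  have h2 := ne_zero hL
  calc O.valuation ϖ ^ (n + 1) = O.valuation ϖ ^ n * O.valuation ϖ := pow_succ _ _
    _ < O.valuation ϖ ^ n * 1 :=
        mul_lt_mul_of_pos_left (lt_one hL) (zero_lt_iff.2 (pow_ne_zero _ h2))
    _ = O.valuation ϖ ^ n := mul_one _
    _ ≤ γ := h1

/-- The lattice is separated. -/
theorem haus (hA : Arch O) (c : Comp O x y) {ν : Valuation F O.ValueGroup} (hν : IsNu O c.1 ν)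
    (hv : LinearIndependent K v) (f : Lat O v x y (K₁ := K₁))
    (h : ∀ n : ℕ, ∃ g : Lat O v x y (K₁ := K₁), f = pi1 hL ^ n • g) : f = 0 := by
  by_contra hf
  have h0 : Ph v f.1 ≠ 0 := fun h1 => hf (Subtype.ext (Ph_inj v hv h1))
  have h1 : ν (Ph v f.1) ≠ 0 := (Valuation.ne_zero_iff _).2 h0
  obtain ⟨n, hn⟩ := arch_pow hA hL h1
  obtain ⟨g, hg⟩ := h n
  have h2 : Ph v f.1 = ϖ ^ n • Ph v g.1 := by
    rw [hg]
    have h3 := Ph_smul v (pi1 hL ^ n) g.1
    have h4 : cK (pi1 hL ^ n) = ϖ ^ n := rfl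
    rw [h4] at h3
    exact h3
  have h3 : ν (Ph v g.1) ≤ 1 := (hν.mem _).2 (g.2 c)
  have h4 : ν (Ph v f.1) ≤ O.valuation ϖ ^ n := by
    rw [h2, Algebra.smul_def, map_mul, hν.alg, map_pow]
    calc O.valuation ϖ ^ n * ν (Ph v g.1) ≤ O.valuation ϖ ^ n * 1 := mul_le_mul_right h3 _
      _ = _ := mul_one _
  exact absurd hn (not_lt.2 h4)

include hL in
/-- The lattice has full rank. -/
theorem full (hA : Arch O) (hfin : Finite (Comp O x y))
    (hν : ∀ c : Comp O x y, ∃ ν : Valuation F O.ValueGroup, IsNu O c.1 ν) :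
    ∃ w : Fin m → Lat O v x y (K₁ := K₁), LinearIndependent (R1 O K₁) w := by
  choose ν hν using hν
  have h1 : ∀ (c : Comp O x y) (i : Fin m), ∃ n : ℕ, ∀ n' : ℕ, n ≤ n' → ϖ ^ n' • v i ∈ c.1.W := by
    intro c i
    by_cases h0 : v i = 0
    · exact ⟨0, fun n' _ => by rw [h0, smul_zero]; exact zero_mem _⟩
    have h2 : ν c (v i) ≠ 0 := (Valuation.ne_zero_iff _).2 h0
    obtain ⟨n, hn⟩ := arch_pow hA hL (inv_ne_zero h2)
    refine ⟨n, fun n' hn' => ?_⟩
    rw [← (hν c).mem, Algebra.smul_def, map_mul, (hν c).alg, map_pow]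
    have h3 : O.valuation ϖ ^ n' ≤ O.valuation ϖ ^ n :=
      pow_le_pow_right_of_le_one' (lt_one hL).le hn'
    calc O.valuation ϖ ^ n' * ν c (v i) ≤ (ν c (v i))⁻¹ * ν c (v i) :=
          mul_le_mul_left (h3.trans hn.le) _
      _ = 1 := inv_mul_cancel₀ h2
  choose n hn using h1
  have := Fintype.ofFinite (Comp O x y)
  let N : ℕ := Finset.univ.sup fun p : Comp O x y × Fin m => n p.1 p.2
  have hN : ∀ c i, n c i ≤ N := fun c i =>
    Finset.le_sup (f := fun p : Comp O x y × Fin m => n p.1 p.2) (Finset.mem_univ (c, i))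
  let ϖ₁ : K₁ := ⟨ϖ, hL.mem⟩
  have hϖ₁ : ϖ₁ ≠ 0 := fun h => hL.ne (congrArg Subtype.val h)
  have hmem : ∀ i, (Pi.single i (ϖ₁ ^ N) : Fin m → K₁) ∈ Lat O v x y (K₁ := K₁) := by
    intro i c
    have h2 : Ph v (Pi.single i (ϖ₁ ^ N) : Fin m → K₁) = ϖ ^ N • v i := by
      rw [Ph, Finset.sum_eq_single i]
      · rw [Pi.single_eq_same]
        rfl
      · intro j _ hj
        rw [Pi.single_eq_of_ne hj]
        exact zero_smul _ _
      · intro h
        exact absurd (Finset.mem_univ i) h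
    rw [h2]
    exact hn c i N (hN c i)
  refine ⟨fun i => ⟨Pi.single i (ϖ₁ ^ N), hmem i⟩, ?_⟩
  rw [Fintype.linearIndependent_iff]
  intro g hg i
  have h2 : (∑ j, g j • (⟨Pi.single j (ϖ₁ ^ N), hmem j⟩ : Lat O v x y (K₁ := K₁))).1 i = 0 := by
    rw [hg]; rfl
  have h3 : (∑ j, g j • (⟨Pi.single j (ϖ₁ ^ N), hmem j⟩ : Lat O v x y (K₁ := K₁))).1 i =
      (g i : K₁) * ϖ₁ ^ N := by
    rw [Submodule.coe_sum, Finset.sum_apply, Finset.sum_eq_single i]
    · show (g i : K₁) * (Pi.single i (ϖ₁ ^ N) : Fin m → K₁) i = _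
      rw [Pi.single_eq_same]
    · intro j _ hj
      show (g j : K₁) * (Pi.single j (ϖ₁ ^ N) : Fin m → K₁) i = 0
      rw [Pi.single_eq_of_ne hj.symm, mul_zero]
    · intro h
      exact absurd (Finset.mem_univ i) h
  rw [h3] at h2
  rcases mul_eq_zero.1 h2 with h4 | h4
  · exact Subtype.ext h4
  · exact absurd h4 (pow_ne_zero _ hϖ₁)

/-- Lifts of the elements of the residue field. -/
theorem exists_lift (hL : Lvl O K₁ ϖ) : ∃ li : ResidueField O → R1 O K₁,
    ∀ b, residue O ⟨cK (li b), cK_mem _⟩ = b := by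
  have h : ∀ b : ResidueField O, ∃ a : R1 O K₁, residue O ⟨cK a, cK_mem _⟩ = b := by
    intro b
    obtain ⟨a, rfl⟩ := residue_surjective b
    obtain ⟨b', hb, hb', hab⟩ := hL.res a a.2
    refine ⟨mk1 b' hb hb', ?_⟩
    rw [← sub_eq_zero, ← map_sub, residue_eq_zero_iff, O.valuation_lt_one_iff]
    have h1 : ((⟨cK (mk1 b' hb hb'), cK_mem _⟩ - a : O) : K) = -((a : K) - b') := by
      show b' - (a : K) = _
      ring
    rw [h1, Valuation.map_neg]
    exact hab
  choose li hli using h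
  exact ⟨li, hli⟩

end main

/-- The data for the reduction of the lattice. -/
structure Dat {K : Type} [Field K] (O : ValuationSubring K) {F : Type} [Field F] [Algebra K F]
    (x y : F) (K₁ : Subfield K) (ϖ : K) {m : ℕ} (v : Fin m → F) where
  hL : Lvl O K₁ ϖ
  h : Fin m → Lat O v x y (K₁ := K₁)
  hh : ∀ a : Fin m → R1 O K₁, (∃ g, ∑ i, a i • h i = pi1 hL • g) →
    ∀ i, a i ∈ maximalIdeal (R1 O K₁)
  li : ResidueField O → R1 O K₁
  hli : ∀ b, residue O ⟨cK (li b), cK_mem _⟩ = b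
  ν : Comp O x y → Valuation F O.ValueGroup
  hν : ∀ c : Comp O x y, IsNu O c.1 (ν c)

namespace Dat

variable {K : Type} [Field K] {O : ValuationSubring K} {F : Type} [Field F] [Algebra K F]
  {x y : F} {K₁ : Subfield K} {ϖ : K} {m : ℕ} {v : Fin m → F} (D : Dat O x y K₁ ϖ v)

/-- The lattice element. -/
def el (a : Fin m → ResidueField O) : Lat O v x y (K₁ := K₁) := ∑ i, D.li (a i) • D.h i

/-- The function. -/
def f (a : Fin m → ResidueField O) : F := Ph v (D.el a).1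

theorem f_bd (a : Fin m → ResidueField O) : Bd O x y (D.f a) := (D.el a).2

/-- `f` and `g` agree modulo `ϖ`. -/
def Cong (f g : F) : Prop := ∃ g' : F, Bd O x y g' ∧ f = g + ϖ • g'

theorem cong_of (r r' : Fin m → R1 O K₁)
    (h : ∀ i, residue O ⟨cK (r i), cK_mem _⟩ = residue O ⟨cK (r' i), cK_mem _⟩) :
    Cong (O := O) (x := x) (y := y) (ϖ := ϖ)
      (∑ i, cK (r i) • Ph v (D.h i).1) (∑ i, cK (r' i) • Ph v (D.h i).1) := by
  have h1 : ∀ i, ∃ b : R1 O K₁, r i - r' i = pi1 D.hL * b := by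
    intro i
    apply dvd_pi D.hL
    have h2 := h i
    rw [← sub_eq_zero, ← map_sub, residue_eq_zero_iff, O.valuation_lt_one_iff] at h2
    exact h2
  choose b hb using h1
  refine ⟨∑ i, cK (b i) • Ph v (D.h i).1, ?_, ?_⟩
  · intro c
    exact sum_mem fun i _ => c.1.smul_mem (cK_mem _) ((D.h i).2 c)
  · rw [Finset.smul_sum, ← Finset.sum_add_distrib]
    refine Finset.sum_congr rfl fun i _ => ?_
    have h2 : cK (r i) = cK (r' i) + ϖ * cK (b i) := by
      have h3 : cK (r i) - cK (r' i) = ϖ * cK (b i) := congrArg (fun z : R1 O K₁ => cK z) (hb i)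
      rw [← h3]; ring
    rw [h2, add_smul, mul_smul]

theorem f_eq (a : Fin m → ResidueField O) : D.f a = ∑ i, cK (D.li (a i)) • Ph v (D.h i).1 :=
  Ph_comb v D.h fun i => D.li (a i)

theorem f_add (a b : Fin m → ResidueField O) :
    Cong (O := O) (x := x) (y := y) (ϖ := ϖ) (D.f (a + b)) (D.f a + D.f b) := by
  have h := D.cong_of (fun i => D.li ((a + b) i)) (fun i => D.li (a i) + D.li (b i)) ?_
  · rw [D.f_eq, D.f_eq, D.f_eq, ← Finset.sum_add_distrib]
    have h1 : ∀ i, cK (D.li (a i)) • Ph v (D.h i).1 + cK (D.li (b i)) • Ph v (D.h i).1 =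
        cK (D.li (a i) + D.li (b i)) • Ph v (D.h i).1 := fun i => (add_smul _ _ _).symm
    simp_rw [h1]
    exact h
  · intro i
    rw [D.hli]
    have h1 : (⟨cK (D.li (a i) + D.li (b i)), cK_mem _⟩ : O) =
        ⟨cK (D.li (a i)), cK_mem _⟩ + ⟨cK (D.li (b i)), cK_mem _⟩ := rfl
    rw [h1, map_add, D.hli, D.hli]
    rfl

theorem f_smul (t : ResidueField O) (a : Fin m → ResidueField O) :
    Cong (O := O) (x := x) (y := y) (ϖ := ϖ) (D.f (t • a)) (cK (D.li t) • D.f a) := by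
  have h := D.cong_of (fun i => D.li ((t • a) i)) (fun i => D.li t * D.li (a i)) ?_
  · rw [D.f_eq, D.f_eq, Finset.smul_sum]
    have h1 : ∀ i, cK (D.li t) • cK (D.li (a i)) • Ph v (D.h i).1 =
        cK (D.li t * D.li (a i)) • Ph v (D.h i).1 := fun i => smul_smul _ _ _
    simp_rw [h1]
    exact h
  · intro i
    rw [D.hli]
    have h1 : (⟨cK (D.li t * D.li (a i)), cK_mem _⟩ : O) =
        ⟨cK (D.li t), cK_mem _⟩ * ⟨cK (D.li (a i)), cK_mem _⟩ := rfl
    rw [h1, map_mul, D.hli, D.hli]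
    rfl

theorem f_zero : Cong (O := O) (x := x) (y := y) (ϖ := ϖ) (D.f 0) 0 := by
  have h := D.cong_of (fun i => D.li ((0 : Fin m → ResidueField O) i)) (fun _ => 0) ?_
  · rw [D.f_eq]
    convert h using 1
    symm
    exact Finset.sum_eq_zero fun i _ => zero_smul K _
  · intro i
    rw [D.hli]
    have h1 : (⟨cK (0 : R1 O K₁), cK_mem _⟩ : O) = 0 := rfl
    rw [h1, map_zero]
    rfl

/-- The residue map of level `κ` on a subspace. -/
theorem exists_res (c : Comp O x y) (κ : K) (hκ : O.valuation ϖ < O.valuation κ)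
    (W : Submodule (ResidueField O) (Fin m → ResidueField O))
    (hW : ∀ a ∈ W, κ⁻¹ • D.f a ∈ c.1.W) :
    ∃ L : W →ₗ[ResidueField O] ResidueField c.1.W, ∀ a, L a = c.1.res (κ⁻¹ • D.f a.1) := by
  have hκ0 : κ ≠ 0 := by
    rintro rfl
    rw [map_zero] at hκ
    exact not_lt_zero hκ
  have key : ∀ f g : F, Cong (O := O) (x := x) (y := y) (ϖ := ϖ) f g → κ⁻¹ • g ∈ c.1.W →
      c.1.res (κ⁻¹ • f) = c.1.res (κ⁻¹ • g) := by
    rintro f g ⟨g', hg', rfl⟩ hg
    have h1 : κ⁻¹ * ϖ ∈ O.nonunits := by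
      show O.valuation (κ⁻¹ * ϖ) < 1
      have hpos : 0 < O.valuation κ := zero_lt_iff.2 ((Valuation.ne_zero_iff _).2 hκ0)
      rw [map_mul, map_inv₀]
      calc (O.valuation κ)⁻¹ * O.valuation ϖ < (O.valuation κ)⁻¹ * O.valuation κ :=
            mul_lt_mul_of_pos_left hκ (inv_pos_of_pos hpos)
        _ = 1 := inv_mul_cancel₀ hpos.ne'
    have h2 : (κ⁻¹ * ϖ) • g' ∈ c.1.W.nonunits := c.1.smul_nonunit h1 (hg' c)
    rw [smul_add, smul_smul, c.1.res_add hg (c.1.mem_of_nonunit h2), c.1.res_nonunit h2, add_zero]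
  refine ⟨⟨⟨fun a => c.1.res (κ⁻¹ • D.f a.1), ?_⟩, ?_⟩, fun a => rfl⟩
  · rintro ⟨a, ha⟩ ⟨b, hb⟩
    show c.1.res (κ⁻¹ • D.f (a + b)) = _
    rw [key _ _ (D.f_add a b) (by rw [smul_add]; exact add_mem (hW a ha) (hW b hb)), smul_add,
      c.1.res_add (hW a ha) (hW b hb)]
  · rintro t ⟨a, ha⟩
    show c.1.res (κ⁻¹ • D.f (t • a)) = t • c.1.res (κ⁻¹ • D.f a)
    have h1 : κ⁻¹ • cK (D.li t) • D.f a = cK (D.li t) • (κ⁻¹ • D.f a) := smul_comm _ _ _
    have h2 : κ⁻¹ • cK (D.li t) • D.f a ∈ c.1.W := by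
      rw [h1]
      exact c.1.smul_mem (cK_mem _) (hW a ha)
    rw [key _ _ (D.f_smul t a) h2, h1, c.1.res_smul (cK_mem _) (hW a ha), D.hli]
    exact (Algebra.smul_def _ _).symm

/-- The truncated norm. -/
def tr (c : Comp O x y) (a : Fin m → ResidueField O) : O.ValueGroup :=
  if O.valuation ϖ < D.ν c (D.f a) then D.ν c (D.f a) else ⊥

theorem tr_ne {c : Comp O x y} {a : Fin m → ResidueField O} (h : D.tr c a ≠ ⊥) :
    O.valuation ϖ < D.ν c (D.f a) ∧ D.tr c a = D.ν c (D.f a) := by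
  unfold tr at h ⊢
  by_cases h1 : O.valuation ϖ < D.ν c (D.f a)
  · rw [if_pos h1]
    exact ⟨h1, rfl⟩
  · rw [if_neg h1] at h
    exact absurd rfl h

theorem tr_eq_bot {c : Comp O x y} {a : Fin m → ResidueField O} (h : D.tr c a = ⊥) :
    D.ν c (D.f a) ≤ O.valuation ϖ := by
  unfold tr at h
  by_cases h1 : O.valuation ϖ < D.ν c (D.f a)
  · rw [if_pos h1] at h
    rw [h] at h1
    exact absurd h1 not_lt_bot
  · exact not_lt.1 h1

theorem nu_pi (c : Comp O x y) {g : F} (hg : Bd O x y g) : D.ν c (ϖ • g) ≤ O.valuation ϖ := by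
  rw [Algebra.smul_def, map_mul, (D.hν c).alg]
  calc O.valuation ϖ * D.ν c g ≤ O.valuation ϖ * 1 :=
        mul_le_mul_right (((D.hν c).mem _).2 (hg c)) _
    _ = _ := mul_one _

theorem nu_cong (c : Comp O x y) {f g : F} (h : Cong (O := O) (x := x) (y := y) (ϖ := ϖ) f g) :
    D.ν c f ≤ max (D.ν c g) (O.valuation ϖ) := by
  obtain ⟨g', hg', rfl⟩ := h
  exact (Valuation.map_add _ _ _).trans (max_le_max le_rfl (D.nu_pi c hg'))

theorem cong_symm {f g : F} (h : Cong (O := O) (x := x) (y := y) (ϖ := ϖ) f g) :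
    Cong (O := O) (x := x) (y := y) (ϖ := ϖ) g f := by
  obtain ⟨g', hg', rfl⟩ := h
  refine ⟨-g', fun c => neg_mem (hg' c), ?_⟩
  rw [smul_neg]
  ring

theorem tr_add (c : Comp O x y) (a b : Fin m → ResidueField O) :
    D.tr c (a + b) ≤ max (D.tr c a) (D.tr c b) := by
  by_cases h0 : D.tr c (a + b) = ⊥
  · rw [h0]; exact bot_le
  obtain ⟨h1, h2⟩ := D.tr_ne h0
  have h3 := D.nu_cong c (D.f_add a b)
  have h4 : D.ν c (D.f (a + b)) ≤ max (D.ν c (D.f a)) (D.ν c (D.f b)) := by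
    rcases le_max_iff.1 h3 with h | h
    · exact h.trans (Valuation.map_add _ _ _)
    · exact absurd h1 (not_lt.2 h)
  rw [h2]
  rcases le_max_iff.1 h4 with h | h
  · refine le_trans ?_ (le_max_left _ _)
    unfold tr
    rw [if_pos (h1.trans_le h)]
    exact h
  · refine le_trans ?_ (le_max_right _ _)
    unfold tr
    rw [if_pos (h1.trans_le h)]
    exact h

theorem nu_li (c : Comp O x y) {t : ResidueField O} (ht : t ≠ 0) (g : F) :
    D.ν c (cK (D.li t) • g) = D.ν c g := by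
  have h1 : O.valuation (cK (D.li t)) = 1 := by
    rcases O.valuation_lt_one_or_eq_one ⟨cK (D.li t), cK_mem _⟩ with h | h
    · rw [← O.valuation_lt_one_iff, ← residue_eq_zero_iff, D.hli] at h
      exact absurd h ht
    · exact h
  rw [Algebra.smul_def, map_mul, (D.hν c).alg, h1, one_mul]

theorem tr_smul (c : Comp O x y) {t : ResidueField O} (ht : t ≠ 0) (a : Fin m → ResidueField O) :
    D.tr c (t • a) = D.tr c a := by
  have h1 := D.nu_cong c (D.f_smul t a)
  have h2 := D.nu_cong c (cong_symm (D.f_smul t a))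
  rw [D.nu_li c ht] at h1 h2
  by_cases h3 : O.valuation ϖ < D.ν c (D.f a)
  · have h4 : D.ν c (D.f a) ≤ D.ν c (D.f (t • a)) := by
      rcases le_max_iff.1 h2 with h | h
      · exact h
      · exact absurd h3 (not_lt.2 h)
    have h5 : D.ν c (D.f (t • a)) ≤ D.ν c (D.f a) := by
      rcases le_max_iff.1 h1 with h | h
      · exact h
      · exact h.trans h3.le
    have h6 := le_antisymm h5 h4
    unfold tr
    rw [h6]
  · have h4 : ¬ O.valuation ϖ < D.ν c (D.f (t • a)) := by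
      intro h5
      rcases le_max_iff.1 h1 with h | h
      · exact h3 (h5.trans_le h)
      · exact absurd h5 (not_lt.2 h)
    unfold tr
    rw [if_neg h3, if_neg h4]

theorem tr_zero (c : Comp O x y) : D.tr c 0 = ⊥ := by
  have h1 := D.nu_cong c D.f_zero
  rw [map_zero] at h1
  unfold tr
  rw [if_neg]
  intro h2
  rcases le_max_iff.1 h1 with h | h
  · exact not_lt_zero (h2.trans_le h)
  · exact absurd h2 (not_lt.2 h)

/-- Separation. -/
theorem sep {E : Subfield F} (hE : ∀ a ∈ K₁, algebraMap K F a ∈ E) (hv : ∀ i, v i ∈ E)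
    {r : Comp O x y → Comp O x y} (hr : ∀ c, SameOn (E : Set F) c.1 (r c).1)
    {a : Fin m → ResidueField O} (h : ∀ c, r c = c → D.tr c a = ⊥)
    (hrr : ∀ c, r (r c) = r c) : a = 0 := by
  have hfE : D.f a ∈ E := by
    show (∑ i : Fin m, (((D.el a).1 i : K₁) : K) • v i) ∈ E
    refine sum_mem fun i _ => ?_
    rw [Algebra.smul_def]
    exact E.mul_mem (hE _ ((D.el a).1 i).2) (hv i)
  have h1 : ϖ⁻¹ • D.f a ∈ E := by
    rw [Algebra.smul_def]
    exact E.mul_mem (hE _ (K₁.inv_mem D.hL.mem)) hfE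
  have h2 : Bd O x y (ϖ⁻¹ • D.f a) := by
    intro c
    rw [hr c _ h1]
    have h3 := D.tr_eq_bot (h (r c) (hrr c))
    rw [← (D.hν (r c)).mem, Algebra.smul_def, map_mul, (D.hν (r c)).alg, map_inv₀]
    calc (O.valuation ϖ)⁻¹ * D.ν (r c) (D.f a) ≤ (O.valuation ϖ)⁻¹ * O.valuation ϖ :=
          mul_le_mul_right h3 _
      _ = 1 := inv_mul_cancel₀ (ne_zero D.hL)
  -- the element `ϖ⁻¹ el a` of the lattice
  let ϖ₁ : K₁ := ⟨ϖ, D.hL.mem⟩
  have hϖ₁ : ϖ₁ ≠ 0 := fun h => D.hL.ne (congrArg Subtype.val h)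
  have h3 : Ph v (ϖ₁⁻¹ • (D.el a).1) = ϖ⁻¹ • D.f a := by
    rw [f, Ph, Ph, Finset.smul_sum]
    refine Finset.sum_congr rfl fun i _ => ?_
    rw [smul_smul]
    rfl
  have h4 : ϖ₁⁻¹ • (D.el a).1 ∈ Lat O v x y (K₁ := K₁) := by
    intro c
    rw [h3]
    exact h2 c
  have h5 := D.hh (fun i => D.li (a i)) ⟨⟨_, h4⟩, ?_⟩
  · funext i
    have h6 := (mem_max _).1 (h5 i)
    have h7 : (⟨cK (D.li (a i)), cK_mem _⟩ : O) ∈ maximalIdeal O :=
      (O.valuation_lt_one_iff _).2 h6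
    rw [← residue_eq_zero_iff, D.hli] at h7
    exact h7
  · apply Subtype.ext
    show (D.el a).1 = _
    funext i
    show (D.el a).1 i = ϖ₁ * (ϖ₁⁻¹ * (D.el a).1 i)
    rw [← mul_assoc, mul_inv_cancel₀ hϖ₁, one_mul]

end Dat

end STP_

open STP_

theorem stp_proof (hVAL : Stmt_VAL) (hCDL : Stmt_CDL) (hLST : Stmt_LST) : Stmt_STP := by
  intro K _ O hA F _ _ x y hfin hVG K₁ ϖ hL E hE m v hvE hv c₀
  have hν := hVAL K O F x y hVG
  have := hL.dvr
  have := hL.complete
  obtain ⟨w, hw⟩ := full (K₁ := K₁) (v := v) hL hA hfin hν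
  obtain ⟨li, hli⟩ := exists_lift hL
  choose ν hν using hν
  obtain ⟨h, hh⟩ := hCDL (R1 O K₁) (pi1 hL) (irr hL) (Lat O v x y (K₁ := K₁)) (tf v)
    (fun f hf => haus hL hA c₀ (hν c₀) hv f hf) m w hw
  let D : Dat O x y K₁ ϖ v := ⟨hL, h, hh, li, hli, ν, hν⟩
  obtain ⟨r, hr0, hr, hrr⟩ := exists_rep (x := x) (y := y) (E : Set F) c₀
  have hrr' : ∀ c, r (r c) = r c := fun c => (hrr c (r c) (hr c)).symm
  -- the first step
  have h1 : O.valuation ϖ < O.valuation (1 : K) := by rw [map_one]; exact lt_one hL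
  obtain ⟨L₀, hL₀⟩ := D.exists_res c₀ 1 h1 ⊤ (fun a _ => by
    rw [inv_one, one_smul]; exact D.f_bd a c₀)
  -- the kernel
  let V' : Submodule (ResidueField O) (Fin m → ResidueField O) :=
    (LinearMap.ker L₀).map (⊤ : Submodule (ResidueField O) (Fin m → ResidueField O)).subtype
  have hV' : ∀ a, a ∈ V' ↔ D.ν c₀ (D.f a) < 1 := by
    intro a
    have h2 : a ∈ V' ↔ L₀ ⟨a, trivial⟩ = 0 := by
      constructor
      · rintro ⟨⟨b, hb⟩, hb', rfl⟩
        exact hb'
      · intro h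
        exact ⟨⟨a, trivial⟩, h, rfl⟩
    rw [h2, hL₀, inv_one, one_smul, c₀.1.res_eq_zero (D.f_bd a c₀), ← (D.hν c₀).lt]
  let I : Type := {c : Comp O x y // r c = c}
  have : Finite I := inferInstance
  obtain ⟨n, ι, γ, U, hγ, hU, hinj, hval, hsum⟩ := hLST (ResidueField O) V' I O.ValueGroup
    (fun i a => D.tr i.1 a.1) (fun i f g => D.tr_add i.1 f.1 g.1)
    (fun i a f ha => D.tr_smul i.1 ha f.1) (fun i => D.tr_zero i.1) (fun f hf => by
      apply Subtype.ext
      exact D.sep hE hvE hr (fun c hc => hf ⟨c, hc⟩) hrr')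
  -- the values
  have h2 : ∀ s, ∃ a : V', a ∈ U s ∧ a ≠ 0 := fun s => by
    obtain ⟨a, ha, ha0⟩ := (Submodule.ne_bot_iff _).1 (hU s)
    exact ⟨a, ha, ha0⟩
  choose a₀ ha₀ ha₀' using h2
  have h3 : ∀ s, O.valuation ϖ < D.ν (ι s).1 (D.f (a₀ s).1) ∧
      γ s = D.ν (ι s).1 (D.f (a₀ s).1) := by
    intro s
    have h4 := hval s (a₀ s) (ha₀ s) (ha₀' s)
    have h5 : D.tr (ι s).1 (a₀ s).1 ≠ ⊥ := by
      rw [h4]; exact hγ s
    obtain ⟨h6, h7⟩ := D.tr_ne h5
    exact ⟨h6, by rw [← h4]; exact h7⟩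
  choose κ hκ using fun s => O.valuation_surjective (γ s)
  have hγκ : ∀ s, O.valuation ϖ < O.valuation (κ s) := fun s => by
    rw [hκ, (h3 s).2]; exact (h3 s).1
  have hκ0 : ∀ s, κ s ≠ 0 := by
    intro s h0
    have := hγκ s
    rw [h0, map_zero] at this
    exact not_lt_zero this
  have hle : ∀ s, ∀ a : V', a ∈ U s → (κ s)⁻¹ • D.f a.1 ∈ (ι s).1.1.W := by
    intro s a ha
    have hpos : O.valuation (κ s) ≠ 0 := (Valuation.ne_zero_iff _).2 (hκ0 s)
    have h4 : D.ν (ι s).1 (D.f a.1) ≤ O.valuation (κ s) := by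
      by_cases h0 : a = 0
      · have h5 : D.tr (ι s).1 a.1 = ⊥ := by
          rw [h0]; exact D.tr_zero _
        exact (D.tr_eq_bot h5).trans (hγκ s).le
      · have h5 := hval s a ha h0
        have h6 : D.tr (ι s).1 a.1 ≠ ⊥ := by rw [h5]; exact hγ s
        rw [← (D.tr_ne h6).2, h5, hκ]
    rw [← (D.hν (ι s).1).mem, Algebra.smul_def, map_mul, (D.hν (ι s).1).alg, map_inv₀]
    calc (O.valuation (κ s))⁻¹ * D.ν (ι s).1 (D.f a.1) ≤
          (O.valuation (κ s))⁻¹ * O.valuation (κ s) := mul_le_mul_right h4 _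
      _ = 1 := inv_mul_cancel₀ hpos
  have hL' : ∀ s, ∃ L : (U s).map V'.subtype →ₗ[ResidueField O]
      ResidueField (ι s).1.1.W, ∀ a, L a = (ι s).1.1.res ((κ s)⁻¹ • D.f a.1) := by
    intro s
    refine D.exists_res (ι s).1 (κ s) (hγκ s) _ ?_
    rintro _ ⟨a, ha, rfl⟩
    exact hle s a ha
  choose L hL' using hL'
  have hinjL : ∀ s, Function.Injective (L s) := by
    intro s
    rw [← LinearMap.ker_eq_bot, LinearMap.ker_eq_bot']
    rintro ⟨_, a, ha, rfl⟩ h0
    by_contra hne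
    have ha0 : a ≠ 0 := by
      rintro rfl
      exact hne (Subtype.ext (map_zero _))
    rw [hL'] at h0
    change (ι s).1.1.res ((κ s)⁻¹ • D.f a.1) = 0 at h0
    rw [(ι s).1.1.res_eq_zero (hle s a ha), ← (D.hν (ι s).1).lt, Algebra.smul_def, map_mul,
      (D.hν (ι s).1).alg, map_inv₀] at h0
    have h5 := hval s a ha ha0
    have h6 : D.tr (ι s).1 a.1 ≠ ⊥ := by rw [h5]; exact hγ s
    have h7 : D.ν (ι s).1 (D.f a.1) = O.valuation (κ s) := by
      rw [← (D.tr_ne h6).2, h5, hκ]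
    rw [h7, inv_mul_cancel₀ ((Valuation.ne_zero_iff _).2 (hκ0 s))] at h0
    exact lt_irrefl _ h0
  refine ⟨LinearMap.range L₀, n, fun s => (ι s).1, κ, fun s => LinearMap.range (L s),
    inferInstance, ?_, ?_, ?_, ?_, ?_, ?_, fun s => inferInstance, ?_, ?_⟩
  · rintro _ ⟨⟨a, ha⟩, rfl⟩
    refine ⟨(D.el a).1, D.f_bd a, ?_⟩
    rw [hL₀, inv_one, one_smul]
    rfl
  · intro s
    refine ⟨hκ0 s, hγκ s, ?_⟩
    rw [← O.valuation_le_one_iff, hκ, (h3 s).2]
    exact ((D.hν _).mem _).2 (D.f_bd _ _)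
  · intro s hs
    show O.valuation (κ s) < 1
    rw [hκ, (h3 s).2]
    have h4 := (hV' _).1 (a₀ s).2
    have h5 : (ι s).1 = c₀ := hs
    rw [h5]
    exact h4
  · intro s s' hss hc hv'
    apply hss
    refine hinj s s' (Subtype.ext hc) ?_
    rw [← hκ, ← hκ]
    exact hv'
  · intro s s' hc hsame
    apply hc
    have h4 := hrr _ _ hsame
    rw [(ι s).2, (ι s').2] at h4
    exact h4
  · intro s hc hsame
    apply hc
    have h4 := hrr _ _ hsame
    rw [(ι s).2, hr0] at h4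
    exact h4
  · rintro s _ ⟨⟨_, a, ha, rfl⟩, rfl⟩
    refine ⟨(D.el a.1).1, D.f_bd a.1, hle s a ha, ?_⟩
    rw [hL']
    rfl
  · have h4 : ∀ s, Module.finrank (ResidueField O) (LinearMap.range (L s)) =
        Module.finrank (ResidueField O) (U s) := by
      intro s
      rw [LinearMap.finrank_range_of_inj (hinjL s)]
      exact (Submodule.equivMapOfInjective V'.subtype V'.injective_subtype (U s)).finrank_eq.symm
    have h5 : Module.finrank (ResidueField O) (LinearMap.range L₀) +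
        Module.finrank (ResidueField O) V' = m := by
      have h6 := LinearMap.finrank_range_add_finrank_ker L₀
      have h7 : Module.finrank (ResidueField O) V' =
          Module.finrank (ResidueField O) (LinearMap.ker L₀) :=
        (Submodule.equivMapOfInjective
          (⊤ : Submodule (ResidueField O) (Fin m → ResidueField O)).subtype
          (Submodule.injective_subtype _) (LinearMap.ker L₀)).finrank_eq.symm
      rw [h7, h6, finrank_top, Module.finrank_fin_fun]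
    simp_rw [h4]
    rw [hsum]
    exact h5.symm.le

end Pool.Agent.SFR
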