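import Pool.Agent.SFR.Stmts
import Pool.Agent.SRF.Stmts

/-!
# TWI: twists exist
-/

set_option autoImplicit false

noncomputable section

namespace Pool.Agent.SFR

open scoped Classical
open Pool.Agent.EN2 Pool.Agent.SRF Pool.Agent.DIS Pool.Agent.SFB IsLocalRing

namespace TWI_

section
variable {K : Type} [Field K] {O : ValuationSubring K} {F : Type} [Field F] [Algebra K F]

lemma pow_nonunit_step (c : Pl O F) {q : F} {κ e : K} (hκ : κ ≠ 0) (h1 : κ⁻¹ • q ∈ c.W)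
    (hκn : κ ∈ O.nonunits) {n : ℕ} (hn : κ ^ n * e⁻¹ ∈ O) (N : ℕ) (hN : n ≤ N) :
    e⁻¹ • q ^ N ∈ c.W := by
  have h2 : e⁻¹ • q ^ N = (κ ^ (N - n) * (κ ^ n * e⁻¹)) • (κ⁻¹ • q) ^ N := by
    rw [smul_pow, smul_smul]
    congr 1
    rw [inv_pow]
    have : κ ^ N = κ ^ (N - n) * κ ^ n := by rw [← pow_add, Nat.sub_add_cancel hN]
    rw [this]
    have h3 : κ ^ (N - n) ≠ 0 := pow_ne_zero _ hκ
    have h4 : κ ^ n ≠ 0 := pow_ne_zero _ hκ
    field_simp
  rw [h2]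
  exact c.smul_mem (mul_mem (pow_mem (nonunit_mem hκn) _) hn) (pow_mem h1 _)

/-- powers of a nonunit absorb a constant -/
lemma absorb (hA : Arch O) (c : Pl O F) {q : F} (hq : q ∈ c.W.nonunits) (hq0 : q ≠ 0)
    (hvg : ∃ κ : K, κ ≠ 0 ∧ κ⁻¹ • q ∈ c.W ∧ c.res (κ⁻¹ • q) ≠ 0) (e : K) :
    ∃ n : ℕ, ∀ N, n ≤ N → e⁻¹ • q ^ N ∈ c.W := by
  obtain ⟨κ, hκ, h1, h2⟩ := hvg
  have hκn : κ ∈ O.nonunits := by
    rw [← c.alg_nonunit]
    have h3 : algebraMap K F κ = (κ⁻¹ • q)⁻¹ * q := by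
      rw [Algebra.smul_def, map_inv₀]
      have : algebraMap K F κ ≠ 0 := by simpa using hκ
      field_simp
    rw [h3]
    exact c.nonunit_mul (c.inv_mem h2) hq
  obtain ⟨n, hn⟩ := hA.arch κ e⁻¹ hκn
  exact ⟨n, fun N hN => pow_nonunit_step c hκ h1 hκn hn N hN⟩

lemma base_le (x y : F) (b : F) (hb : b ∈ base K x y 0) : b ∈ Pf x y (⊤ : Subfield K) := by
  unfold base at hb
  induction hb using Algebra.adjoin_induction with
  | mem a ha =>
    obtain ⟨j, rfl⟩ := ha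
    have hx : x ∈ Pf x y (⊤ : Subfield K) := Subfield.subset_closure (Or.inr (Or.inl rfl))
    have hy : y ∈ Pf x y (⊤ : Subfield K) := Subfield.subset_closure (Or.inr (Or.inr rfl))
    have h0 : z x y 0 = 1 := rfl
    have hj : z x y j ∈ Pf x y (⊤ : Subfield K) := by
      fin_cases j
      · exact one_mem _
      · exact hx
      · exact hy
    change z x y j / z x y 0 ∈ _
    rw [h0, div_one]
    exact hj
  | algebraMap r =>
    exact Subfield.subset_closure (Or.inl ⟨r, trivial, rfl⟩)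
  | add a b _ _ ha hb => exact add_mem ha hb
  | mul a b _ _ ha hb => exact mul_mem ha hb

end

end TWI_

open TWI_

theorem twi_proof (hCFI : Stmt_CFI) (hCVG : Stmt_CVG) (hCSP : Stmt_CSP) (hGAU : Stmt_GAU)
    (hFRA : Pool.Agent.SRF.Stmt_FRA) (hLIH : Pool.Agent.SRF.Stmt_LIH) : Stmt_TWI := by
  intro K _ _ O hA F _ _ x y hS
  have hfin : Finite (Comp O x y) := hCFI K O hA F x y hS
  have hVG := hCVG K O hA F x y hS
  obtain ⟨e, he0, hen⟩ := hA.nontrivial
  -- the twist of one component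
  have step : ∀ c : Comp O x y, ∃ b : F, b ∈ chart K x y 0 ∧ b ≠ 0 ∧ b⁻¹ ∈ c.1.W.nonunits ∧
      ∀ c' : Comp O x y, c' ≠ c → b ∈ c'.1.W := by
    intro c
    obtain ⟨q, hqW, hq0, hqn⟩ := hCSP K O hA F x y hS c
    have hqne : q ≠ 0 := c.1.ne_zero_of_res hq0
    have h1 : ∀ c' : Comp O x y, ∃ n : ℕ, c' ≠ c → ∀ N, n ≤ N → e⁻¹ • q ^ N ∈ c'.1.W := by
      intro c'
      by_cases h : c' = c
      · exact ⟨0, fun h' => absurd h h'⟩
      · obtain ⟨n, hn⟩ := absorb hA c'.1 (hqn c' h) hqne (hVG c' q hqne) e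
        exact ⟨n, fun _ => hn⟩
    choose n hn using h1
    obtain ⟨N, hN⟩ : ∃ N, ∀ c', n c' ≤ N := by
      have := Fintype.ofFinite (Comp O x y)
      exact ⟨Finset.univ.sup n, fun c' => Finset.le_sup (Finset.mem_univ c')⟩
    let g : F := e⁻¹ • q ^ N
    have hg : ∀ c' : Comp O x y, c' ≠ c → g ∈ c'.1.W := fun c' hc' => hn c' hc' N (hN c')
    have hg0 : g ≠ 0 := smul_ne_zero (inv_ne_zero he0) (pow_ne_zero _ hqne)
    have hgi : g⁻¹ ∈ c.1.W.nonunits := by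
      have h2 : g⁻¹ = e • (q⁻¹) ^ N := by
        change (e⁻¹ • q ^ N)⁻¹ = _
        rw [Algebra.smul_def, Algebra.smul_def, mul_inv, map_inv₀, inv_inv, inv_pow]
      rw [h2]
      exact c.1.smul_nonunit hen (pow_mem (c.1.inv_mem hq0) _)
    obtain ⟨a, ha, b, hb, hb0, hgab⟩ := hFRA K F x y hS 0 g
    obtain ⟨α, -, hα0, hα⟩ := hGAU K O F x y ⊤ b (base_le x y b hb) hb0
    have hbg : α⁻¹ • a = (α⁻¹ • b) * g := by
      rw [hgab, smul_mul_assoc]
      congr 1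
      field_simp
    refine ⟨α⁻¹ • a, ?_, ?_, ?_, ?_⟩
    · exact (integralClosure (base K x y 0) F).toSubring.mul_mem
        (show algebraMap K F α⁻¹ ∈ (integralClosure (base K x y 0) F).toSubring from
          isIntegral_algebraMap (R := base K x y 0) (A := F)
            (x := ⟨algebraMap K F α⁻¹, (base K x y 0).algebraMap_mem _⟩)) ha |> fun h => by
        rw [Algebra.smul_def]
        exact h
    · rw [hbg]
      exact mul_ne_zero (c.1.ne_zero_of_res (hα c).2.1) hg0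
    · rw [hbg, mul_inv]
      exact c.1.nonunit_mul (c.1.inv_mem (hα c).2.1) hgi
    · intro c' hc'
      rw [hbg]
      exact mul_mem (hα c').1 (hg c' hc')
  choose b hbc hb0 hbn hbm using step
  have hM : ∀ c : Comp O x y, ∃ M : ℕ, ∀ m : ℕ, M ≤ m →
      b c ∈ L K x y (fun O => m * H K x y O) := by
    intro c
    obtain ⟨M, hM⟩ := hLIH K F x y hS 0 (b c) (hbc c)
    refine ⟨M, fun m hm => ?_⟩
    have h := hM m hm
    have h0 : z x y 0 = 1 := rfl
    rw [h0, one_pow, mul_one] at h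
    exact h
  choose M hM using hM
  obtain ⟨d, hd⟩ : ∃ d, ∀ c, M c ≤ d := by
    have := Fintype.ofFinite (Comp O x y)
    exact ⟨Finset.univ.sup M, fun c' => Finset.le_sup (Finset.mem_univ c')⟩
  exact ⟨d, b, ⟨fun c => hM c d (hd c), fun c => ⟨hb0 c, hbn c⟩, fun c c' h => hbm c c' h⟩⟩

end Pool.Agent.SFR
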