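import Pool.Agent.SFR.Stmts

/-!
# SFR / VAL: components as valuations with values in the value group of `O`
-/

set_option autoImplicit false

noncomputable section

namespace Pool.Agent.SFR

open scoped Classical
open Pool.Agent.EN2 Pool.Agent.SRF Pool.Agent.DIS Pool.Agent.SFB IsLocalRing

namespace VAL_

variable {K : Type} [Field K] {O : ValuationSubring K} {F : Type} [Field F] [Algebra K F]
  (c : Pl O F)

/-- `κ` has the size of `f`. -/
def Sz (f : F) (κ : K) : Prop := κ ≠ 0 ∧ κ⁻¹ • f ∈ c.W ∧ c.res (κ⁻¹ • f) ≠ 0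

variable {c}

lemma Sz.mem_iff {f : F} {κ : K} (h : Sz c f κ) {a : K} (ha : a ≠ 0) :
    a⁻¹ • f ∈ c.W ↔ O.valuation κ ≤ O.valuation a := by
  obtain ⟨h0, h1, h2⟩ := h
  have h3 := c.inv_mem h2
  have hu0 : κ⁻¹ • f ≠ 0 := c.ne_zero_of_res h2
  have e1 : a⁻¹ • f = algebraMap K F (a⁻¹ * κ) * (κ⁻¹ • f) := by
    rw [← Algebra.smul_def, smul_smul]
    congr 1
    field_simp
  have e2 : a⁻¹ • f ∈ c.W ↔ algebraMap K F (a⁻¹ * κ) ∈ c.W := by
    constructor
    · intro h
      have e3 : algebraMap K F (a⁻¹ * κ) = (a⁻¹ • f) * (κ⁻¹ • f)⁻¹ := by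
        rw [e1, mul_assoc, mul_inv_cancel₀ hu0, mul_one]
      rw [e3]
      exact mul_mem h h3
    · intro h
      rw [e1]
      exact mul_mem h h1
  rw [e2, c.mem_iff, ← O.valuation_le_one_iff, map_mul, map_inv₀]
  have ha' : O.valuation a ≠ 0 := (Valuation.ne_zero_iff _).2 ha
  constructor
  · intro h
    calc O.valuation κ = O.valuation a * ((O.valuation a)⁻¹ * O.valuation κ) := by
          rw [← mul_assoc, mul_inv_cancel₀ ha', one_mul]
      _ ≤ O.valuation a * 1 := mul_le_mul' le_rfl h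
      _ = O.valuation a := mul_one _
  · intro h
    calc (O.valuation a)⁻¹ * O.valuation κ ≤ (O.valuation a)⁻¹ * O.valuation a :=
          mul_le_mul' le_rfl h
      _ = 1 := inv_mul_cancel₀ ha'

lemma Sz.unique {f : F} {κ κ' : K} (h : Sz c f κ) (h' : Sz c f κ') :
    O.valuation κ = O.valuation κ' :=
  le_antisymm ((h.mem_iff h'.1).1 h'.2.1) ((h'.mem_iff h.1).1 h.2.1)

lemma Sz.mul {f g : F} {κ κ' : K} (h : Sz c f κ) (h' : Sz c g κ') : Sz c (f * g) (κ * κ') := by
  have e : (κ * κ')⁻¹ • (f * g) = (κ⁻¹ • f) * (κ'⁻¹ • g) := by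
    rw [smul_mul_smul_comm, mul_inv]
  refine ⟨mul_ne_zero h.1 h'.1, ?_, ?_⟩
  · rw [e]; exact mul_mem h.2.1 h'.2.1
  · rw [e, c.res_mul h.2.1 h'.2.1]
    exact mul_ne_zero h.2.2 h'.2.2

lemma sz_alg {a : K} (ha : a ≠ 0) : Sz c (algebraMap K F a) a := by
  have e : a⁻¹ • algebraMap K F a = 1 := by
    rw [Algebra.smul_def, ← map_mul, inv_mul_cancel₀ ha, map_one]
  refine ⟨ha, ?_, ?_⟩
  · rw [e]; exact one_mem _
  · rw [e, c.res_one]; exact one_ne_zero

end VAL_

open VAL_ in
theorem val_proof : Stmt_VAL := by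
  intro K _ O F _ _ x y hVG c
  have hex : ∀ f : F, f ≠ 0 → ∃ κ : K, Sz c.1 f κ := fun f hf => hVG c f hf
  choose! s hs using hex
  let N : F → O.ValueGroup := fun f => if f = 0 then 0 else O.valuation (s f)
  have hN0 : N 0 = 0 := if_pos rfl
  have hN : ∀ f κ, f ≠ 0 → Sz c.1 f κ → N f = O.valuation κ := by
    intro f κ hf h
    have : N f = O.valuation (s f) := if_neg hf
    rw [this]
    exact (hs f hf).unique h
  have hNs : ∀ f, f ≠ 0 → N f = O.valuation (s f) := fun f hf => if_neg hf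
  have hle : ∀ f, f ≠ 0 → ∀ a : K, a ≠ 0 → (a⁻¹ • f ∈ c.1.W ↔ N f ≤ O.valuation a) := by
    intro f hf a ha
    rw [hNs f hf]
    exact (hs f hf).mem_iff ha
  let ν : Valuation F O.ValueGroup :=
    { toFun := N
      map_zero' := hN0
      map_one' := by
        have h1 : Sz c.1 (algebraMap K F 1) 1 := sz_alg one_ne_zero
        rw [map_one] at h1
        rw [hN 1 1 one_ne_zero h1, map_one]
      map_mul' := by
        intro f g
        by_cases hf : f = 0
        · rw [hf, zero_mul, hN0, zero_mul]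
        by_cases hg : g = 0
        · rw [hg, mul_zero, hN0, mul_zero]
        rw [hN _ _ (mul_ne_zero hf hg) ((hs f hf).mul (hs g hg)), map_mul, ← hNs f hf, ← hNs g hg]
      map_add_le_max' := by
        intro f g
        by_cases hf : f = 0
        · rw [hf, zero_add]; exact le_max_right _ _
        by_cases hg : g = 0
        · rw [hg, add_zero]; exact le_max_left _ _
        by_cases hfg : f + g = 0
        · rw [hfg, hN0]; exact zero_le
        rcases le_total (N f) (N g) with h | h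
        · rw [max_eq_right h, hNs g hg, ← hle _ hfg _ (hs g hg).1, smul_add]
          refine add_mem ((hle f hf _ (hs g hg).1).2 ?_) (hs g hg).2.1
          rw [← hNs g hg]; exact h
        · rw [max_eq_left h, hNs f hf, ← hle _ hfg _ (hs f hf).1, smul_add]
          refine add_mem (hs f hf).2.1 ((hle g hg _ (hs f hf).1).2 ?_)
          rw [← hNs f hf]; exact h }
  have hmem : ∀ f : F, ν f ≤ 1 ↔ f ∈ c.1.W := by
    intro f
    change N f ≤ 1 ↔ _
    by_cases hf : f = 0
    · rw [hf, hN0]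
      exact ⟨fun _ => zero_mem _, fun _ => zero_le⟩
    · have h1 := hle f hf 1 one_ne_zero
      rw [map_one, inv_one, one_smul] at h1
      exact h1.symm
  refine ⟨ν, ?_, hmem, ?_⟩
  · intro a
    change N _ = _
    by_cases ha : a = 0
    · rw [ha, map_zero, hN0, map_zero]
    · exact hN _ _ (by rw [Ne, map_eq_zero]; exact ha) (sz_alg ha)
  · intro f
    rw [ValuationSubring.mem_nonunits_iff_or, ← hmem, map_inv₀]
    by_cases hf : f = 0
    · rw [hf, map_zero]
      exact ⟨fun _ => Or.inl rfl, fun _ => zero_lt_one⟩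
    · have hν : ν f ≠ 0 := (Valuation.ne_zero_iff _).2 hf
      rw [not_le]
      constructor
      · intro h
        exact Or.inr ((one_lt_inv₀ (zero_lt_iff.2 hν)).2 h)
      · rintro (h | h)
        · exact absurd h hf
        · exact (one_lt_inv₀ (zero_lt_iff.2 hν)).1 h

end Pool.Agent.SFR
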