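import Pool.Agent.SFR.AllNT
import Pool.Agent.SFR.RED
import Pool.Agent.SFR.Cmp
import Pool.Agent.SFR.CDL
import Pool.Agent.SFR.DSN
import Pool.Agent.SFR.FRK
import Pool.Agent.SFR.FRP
import Pool.Agent.SFR.FUD
import Pool.Agent.SFR.FUN
import Pool.Agent.SFR.GAU
import Pool.Agent.SFR.INS
import Pool.Agent.SFR.LFT
import Pool.Agent.SFR.LST
import Pool.Agent.SFR.LVL
import Pool.Agent.SFR.NTS
import Pool.Agent.SFR.SPR
import Pool.Agent.SFR.STP
import Pool.Agent.SFR.TWI
import Pool.Agent.SFR.VAL
import Pool.Agent.SRF.LIH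
import Pool.Agent.CPT.SrfMain

/-!
# Reductions of finite dimensional spaces of functions, without hypotheses
-/

set_option autoImplicit false

noncomputable section

namespace Pool.Agent.SFR

theorem fun' : Stmt_FUN := fun_proof val_proof gau_proof

theorem twi : Stmt_TWI :=
  twi_proof cfi_proof cvg_proof csp_proof gau_proof CPT.Srf.fra
    (SRF.LIH_proof SRF.LIF_proof CPT.Srf.sec)

/-- The reduction of a space of sections. -/
theorem red : SFB.Stmt_RED :=
  red_proof cfi_proof cvg_proof val_proof lvl_proof dsn_proof (spr_proof val_proof)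
    (fud_proof lft_proof fun') frp_proof (frk_proof fun') (stp_proof val_proof cdl_proof lst_proof)
    twi (nts_proof nt) ins_proof

end Pool.Agent.SFR
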