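import Pool.Agent.SFR.Stmts

/-!
# SFR, module MUT: a space of large dimension contains an element whose norm vanishes to a high
order at some point
-/

set_option autoImplicit false

noncomputable section

namespace Pool.Agent.SFR

open scoped Classical
open Pool.Agent.EN2 Pool.Agent.SRF Pool.Agent.DIS Pool.Agent.SFB IsLocalRing

namespace MUT_

section van

variable {k : Type} [Field k] (hVAN : Stmt_VAN) (a : Fin 2 → k)

include hVAN in
theorem van_mul {m n : ℕ} {q r : MvPolynomial (Fin 2) k} (hq : Van a m q) (hr : Van a n r) :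
    Van a (m + n) (q * r) := (hVAN k a).2.2.1 m n q r hq hr

include hVAN in
theorem van_add {m : ℕ} {q r : MvPolynomial (Fin 2) k} (hq : Van a m q) (hr : Van a m r) :
    Van a m (q + r) := (hVAN k a).2.1 m q r hq hr

theorem van_zero (m : ℕ) : Van a m 0 := fun d _ => by simp

theorem van_nat0 (q : MvPolynomial (Fin 2) k) : Van a 0 q := fun d h => absurd h (by omega)

include hVAN in
theorem van_sum {m : ℕ} {ι : Type} (s : Finset ι) (q : ι → MvPolynomial (Fin 2) k)
    (hq : ∀ i, Van a m (q i)) : Van a m (∑ i ∈ s, q i) := by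
  induction s using Finset.induction_on with
  | empty => simpa using van_zero a m
  | insert i s hi ih =>
    rw [Finset.sum_insert hi]
    exact van_add hVAN a (hq i) ih

include hVAN in
theorem van_prod {m : ℕ} {ι : Type} (s : Finset ι) (q : ι → MvPolynomial (Fin 2) k)
    (hq : ∀ i, Van a m (q i)) : Van a (s.card * m) (∏ i ∈ s, q i) := by
  induction s using Finset.induction_on with
  | empty => simpa using van_nat0 a _
  | insert i s hi ih =>
    rw [Finset.prod_insert hi, Finset.card_insert_of_notMem hi, add_mul, one_mul, add_comm]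
    exact van_mul hVAN a (hq i) ih

include hVAN in
theorem van_mul_right {m : ℕ} {q : MvPolynomial (Fin 2) k} (hq : Van a m q)
    (r : MvPolynomial (Fin 2) k) : Van a m (q * r) := van_mul hVAN a hq (van_nat0 a r)

include hVAN in
theorem van_det {m : ℕ} {ι : Type} [Fintype ι] [DecidableEq ι] (M : Matrix ι ι (MvPolynomial (Fin 2) k))
    (hM : ∀ i j, Van a m (M i j)) : Van a (Fintype.card ι * m) M.det := by
  rw [Matrix.det_apply]
  refine van_sum hVAN a _ _ fun τ => ?_
  have h1 := van_prod hVAN a Finset.univ (fun i => M (τ i) i) (fun i => hM _ _)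
  rw [Finset.card_univ] at h1
  have h2 : (Equiv.Perm.sign τ • ∏ i, M (τ i) i) =
      (∏ i, M (τ i) i) * ((Equiv.Perm.sign τ : ℤ) : MvPolynomial (Fin 2) k) := by
    rw [Units.smul_def, zsmul_eq_mul, mul_comm]
  rw [h2]
  exact van_mul_right hVAN a h1 _

end van

section den

variable {R P : Type} [CommRing R] [IsDomain R] [Field P] (ψ : R →+* P)

theorem common (hfr : ∀ x : P, ∃ A B : R, ψ B ≠ 0 ∧ x * ψ B = ψ A)
    {ι : Type} [Fintype ι] (c : ι → P) : ∃ h : R, h ≠ 0 ∧ ∃ C : ι → R, ∀ i, ψ h * c i = ψ (C i) := by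
  choose A B h1 h2 using fun i => hfr (c i)
  refine ⟨∏ i, B i, ?_, fun i => A i * ∏ j ∈ Finset.univ.erase i, B j, fun i => ?_⟩
  · rw [Finset.prod_ne_zero_iff]
    intro i _ h
    exact h1 i (by rw [h, map_zero])
  · rw [← Finset.mul_prod_erase Finset.univ B (Finset.mem_univ i), map_mul, map_mul, ← h2]
    ring

end den

/-- the abstract form -/
theorem main (hVAN : Stmt_VAN) {k P Ω : Type} [Field k] [Infinite k] [Field P] [Field Ω]
    [Algebra k P] [Algebra P Ω] [Algebra k Ω] [IsScalarTower k P Ω] [FiniteDimensional P Ω]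
    (ψ : MvPolynomial (Fin 2) k →ₐ[k] P)
    (hfr : ∀ x : P, ∃ A B : MvPolynomial (Fin 2) k, ψ B ≠ 0 ∧ x * ψ B = ψ A)
    (Y : Submodule P Ω) (U : Submodule k Ω) [FiniteDimensional k U] (hUY : ∀ f ∈ U, f ∈ Y) (m : ℕ)
    (hdim : Module.finrank P Y * (m + 1).choose 2 < Module.finrank k U) (t : P) (ht : t ≠ 0) :
    ∃ f ∈ U, f ≠ 0 ∧ ∃ (a : Fin 2 → k) (h Q A B : MvPolynomial (Fin 2) k),
      MvPolynomial.eval a h ≠ 0 ∧ MvPolynomial.eval a A ≠ 0 ∧ MvPolynomial.eval a B ≠ 0 ∧
      Algebra.norm P f * ψ h = ψ Q ∧ t * ψ B = ψ A ∧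
      Van a (Module.finrank P Ω * m) Q := by
  let b := Module.finBasis P Ω
  let y := Module.finBasis P Y
  let u := Module.finBasis k U
  -- common denominators
  obtain ⟨h1, h1z, C, hC⟩ := common (ψ : MvPolynomial (Fin 2) k →+* P) hfr
    (fun i : Fin (Module.finrank P Y) × Fin (Module.finrank P Ω) × Fin (Module.finrank P Ω) =>
      Algebra.leftMulMatrix b (y i.1 : Ω) i.2.1 i.2.2)
  obtain ⟨h2, h2z, G, hG⟩ := common (ψ : MvPolynomial (Fin 2) k →+* P) hfr
    (fun i : Fin (Module.finrank k U) × Fin (Module.finrank P Y) =>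
      y.repr ⟨(u i.1 : Ω), hUY _ (u i.1).2⟩ i.2)
  obtain ⟨A, B, hB, hA⟩ := hfr t
  have hA0 : A ≠ 0 := by
    rintro rfl
    rw [map_zero] at hA
    exact (mul_ne_zero ht hB) hA
  have hB0 : B ≠ 0 := by
    rintro rfl
    exact hB (map_zero _)
  obtain ⟨a, ha⟩ : ∃ a : Fin 2 → k, MvPolynomial.eval a (h1 * h2 * A * B) ≠ 0 := by
    by_contra hcon
    push Not at hcon
    have : h1 * h2 * A * B = 0 := MvPolynomial.funext fun a => by rw [hcon a, map_zero]
    exact (mul_ne_zero (mul_ne_zero (mul_ne_zero h1z h2z) hA0) hB0) this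
  rw [map_mul, map_mul, map_mul] at ha
  have ha1 : MvPolynomial.eval a h1 ≠ 0 := fun h => ha (by rw [h]; ring)
  have ha2 : MvPolynomial.eval a h2 ≠ 0 := fun h => ha (by rw [h]; ring)
  have haA : MvPolynomial.eval a A ≠ 0 := fun h => ha (by rw [h]; ring)
  have haB : MvPolynomial.eval a B ≠ 0 := fun h => ha (by rw [h]; ring)
  obtain ⟨φ, hφ⟩ := (hVAN k a).2.2.2.2 m
  -- the linear map
  let g : (Fin (Module.finrank k U) → k) →ₗ[k] (Fin (Module.finrank P Y) → MvPolynomial (Fin 2) k) :=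
    LinearMap.pi fun l => Fintype.linearCombination k fun i => G (i, l)
  let Φ : (Fin (Module.finrank k U) → k) →ₗ[k]
      (Fin (Module.finrank P Y) → (Fin ((m + 1).choose 2) → k)) :=
    LinearMap.pi fun l => φ ∘ₗ (LinearMap.proj l) ∘ₗ g
  have hker : LinearMap.ker Φ ≠ ⊥ := by
    apply LinearMap.ker_ne_bot_of_finrank_lt
    rw [Module.finrank_pi_fintype, Module.finrank_fin_fun]
    simp only [Module.finrank_fin_fun, Finset.sum_const, Finset.card_univ, Fintype.card_fin,
      smul_eq_mul]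
    exact hdim
  obtain ⟨lam, hlam, hlam0⟩ := (Submodule.ne_bot_iff _).1 hker
  have hg : ∀ l, Van a m (g lam l) := by
    intro l
    apply hφ
    have := congrFun (LinearMap.mem_ker.1 hlam) l
    exact this
  let f : U := ∑ i, lam i • u i
  have hf0 : f ≠ 0 := by
    intro h
    apply hlam0
    have h3 := Fintype.linearIndependent_iff.1 u.linearIndependent lam h
    exact funext h3
  -- the coordinates of f
  let fY : Y := ⟨(f : Ω), hUY _ f.2⟩
  have hfY : fY = ∑ i, (algebraMap k P (lam i)) • (⟨(u i : Ω), hUY _ (u i).2⟩ : Y) := by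
    apply Subtype.ext
    show ((∑ i, lam i • u i : U) : Ω) = _
    rw [AddSubmonoidClass.coe_finsetSum, AddSubmonoidClass.coe_finsetSum]
    refine Finset.sum_congr rfl fun i _ => ?_
    show lam i • (u i : Ω) = algebraMap k P (lam i) • (u i : Ω)
    rw [algebraMap_smul]
  have hco : ∀ l, ψ h2 * y.repr fY l = ψ (g lam l) := by
    intro l
    rw [hfY, map_sum, Finsupp.finsetSum_apply, Finset.mul_sum]
    simp only [map_smul, Finsupp.smul_apply, smul_eq_mul]
    have h3 : g lam l = ∑ i, lam i • G (i, l) := by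
      simp [g, Fintype.linearCombination_apply]
    rw [h3, map_sum]
    refine Finset.sum_congr rfl fun i _ => ?_
    have h4 : ψ h2 * y.repr ⟨(u i : Ω), hUY _ (u i).2⟩ l = ψ (G (i, l)) := hG (i, l)
    rw [map_smul, Algebra.smul_def, ← h4]
    ring
  -- the matrix
  let E : Matrix (Fin (Module.finrank P Ω)) (Fin (Module.finrank P Ω)) (MvPolynomial (Fin 2) k) :=
    fun i j => ∑ l, g lam l * C (l, i, j)
  have hE : ∀ i j, Van a m (E i j) := fun i j =>
    van_sum hVAN a _ _ fun l => van_mul_right hVAN a (hg l) _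
  have hmat : (ψ (h1 * h2)) • Algebra.leftMulMatrix b (f : Ω) =
      (ψ : MvPolynomial (Fin 2) k →+* P).mapMatrix E := by
    have h5 : (f : Ω) = ∑ l, y.repr fY l • (y l : Ω) := by
      have h6 := y.sum_repr fY
      have h7 := congrArg (Subtype.val) h6
      rw [AddSubmonoidClass.coe_finsetSum] at h7
      exact h7.symm
    rw [h5, map_sum]
    ext i j
    show _ = (ψ : MvPolynomial (Fin 2) k →+* P) (∑ l, g lam l * C (l, i, j))
    rw [map_sum]
    simp only [map_smul, Matrix.smul_apply, Matrix.sum_apply, smul_eq_mul, Finset.mul_sum]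
    refine Finset.sum_congr rfl fun l _ => ?_
    have h4 : ψ h1 * Algebra.leftMulMatrix b (y l : Ω) i j = ψ (C (l, i, j)) := hC (l, i, j)
    have h8 : (ψ : MvPolynomial (Fin 2) k →+* P) (g lam l * C (l, i, j)) =
      ψ (g lam l) * ψ (C (l, i, j)) := map_mul ψ _ _
    rw [h8, ← h4, ← hco l, map_mul]
    ring
  refine ⟨f, f.2, fun h => hf0 (Subtype.ext h), a, (h1 * h2) ^ (Module.finrank P Ω), E.det, A, B, ?_, haA, haB,
    ?_, hA, ?_⟩
  · rw [map_pow, map_mul]
    exact pow_ne_zero _ (mul_ne_zero ha1 ha2)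
  · rw [Algebra.norm_eq_matrix_det b, map_pow]
    have h9 := congrArg Matrix.det hmat
    rw [Matrix.det_smul, Fintype.card_fin] at h9
    rw [mul_comm, h9]
    exact (RingHom.map_det (ψ : MvPolynomial (Fin 2) k →+* P) E).symm
  · have := van_det hVAN a E hE
    rwa [Fintype.card_fin] at this

end MUT_

open MUT_

theorem mut_proof (hVAN : Stmt_VAN) : Stmt_MUT := by
  intro k Ω _ _ _ _ σ _hσ hfin Y U hU hUY m hdim t ht
  let s : Fin 2 → Ω := ![σ 1 / σ 0, σ 2 / σ 0]
  have hs : Set.range s = {σ 1 / σ 0, σ 2 / σ 0} := by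
    simp only [s, Matrix.range_cons, Matrix.range_empty, Set.union_empty]
    rw [Set.singleton_union]
  have hmem : ∀ q : MvPolynomial (Fin 2) k, ev σ q ∈ PF k σ := by
    intro q
    have h1 : ev σ q ∈ Algebra.adjoin k (Set.range s) := by
      rw [Algebra.adjoin_range_eq_range_aeval]
      exact ⟨q, rfl⟩
    rw [hs] at h1
    exact IntermediateField.algebra_adjoin_le_adjoin _ _ h1
  let ψ : MvPolynomial (Fin 2) k →ₐ[k] PF k σ :=
    AlgHom.codRestrict (MvPolynomial.aeval s) (PF k σ).toSubalgebra hmem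
  have hcoe : ∀ q, ((ψ q : PF k σ) : Ω) = ev σ q := fun q => rfl
  have hfr : ∀ x : PF k σ, ∃ A B : MvPolynomial (Fin 2) k, ψ B ≠ 0 ∧ x * ψ B = ψ A := by
    intro x
    have hx : (x : Ω) ∈ IntermediateField.adjoin k (Set.range s) := by rw [hs]; exact x.2
    rw [IntermediateField.mem_adjoin_range_iff] at hx
    obtain ⟨r, q, h⟩ := hx
    by_cases h0 : MvPolynomial.aeval s q = 0
    · refine ⟨0, 1, ?_, ?_⟩
      · rw [map_one]; exact one_ne_zero
      · have : (x : Ω) = 0 := by rw [h, h0, div_zero]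
        rw [show x = 0 from Subtype.ext this, zero_mul, map_zero]
    · refine ⟨r, q, fun h1 => h0 (congrArg (Subtype.val) h1), Subtype.ext ?_⟩
      show (x : Ω) * MvPolynomial.aeval s q = MvPolynomial.aeval s r
      rw [h, div_mul_cancel₀ _ h0]
  obtain ⟨f, hfU, hf0, a, h, Q, A, B, h1, h2, h3, h4, h5, h6⟩ :=
    main hVAN ψ hfr Y U hUY m hdim t ht
  refine ⟨f, hfU, hf0, a, h, Q, A, B, h1, h2, h3, ?_, ?_, h6⟩
  · exact congrArg (Subtype.val) h4
  · exact congrArg (Subtype.val) h5

end Pool.Agent.SFR
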