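import Pool.Agent.SFR.Stmts

set_option autoImplicit false
set_option linter.style.haveILetI false

noncomputable section

namespace Pool.Agent.SFR

open scoped Classical
open Pool.Agent.EN2 Pool.Agent.SRF Pool.Agent.DIS Pool.Agent.SFB IsLocalRing

namespace NRM_

open MvPolynomial

section star

variable {k : Type} [Field k]

/-- the new exponent -/
def ge (M : ℕ) (d : Fin 2 →₀ ℕ) : Fin 2 →₀ ℕ :=
  Finsupp.single 0 (M - (d 0 + d 1)) + Finsupp.single 1 (d 1)

theorem ge0 (M : ℕ) (d : Fin 2 →₀ ℕ) : ge M d 0 = M - (d 0 + d 1) := by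
  simp [ge]

theorem ge1 (M : ℕ) (d : Fin 2 →₀ ℕ) : ge M d 1 = d 1 := by
  simp [ge]

/-- the polynomial `X₀ ^ M R(1 / X₀, X₁ / X₀)` -/
def st (M : ℕ) (R : MvPolynomial (Fin 2) k) : MvPolynomial (Fin 2) k :=
  ∑ d ∈ R.support, monomial (ge M d) (coeff d R)

theorem deg_le {R : MvPolynomial (Fin 2) k} {M : ℕ} (hM : R.totalDegree ≤ M)
    {d : Fin 2 →₀ ℕ} (hd : d ∈ R.support) : d 0 + d 1 ≤ M := by
  have h1 := le_totalDegree hd
  have h2 : (d.sum fun _ e => e) = d 0 + d 1 := by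
    rw [Finsupp.sum_fintype _ _ (fun _ => rfl), Fin.sum_univ_two]
  rw [h2] at h1
  exact h1.trans hM

theorem st_deg (M : ℕ) (R : MvPolynomial (Fin 2) k) (hM : R.totalDegree ≤ M) :
    (st M R).totalDegree ≤ M := by
  apply totalDegree_finsetSum_le
  intro d hd
  refine (totalDegree_monomial_le _ _).trans ?_
  have h2 : ((ge M d).sum fun _ e => e) = ge M d 0 + ge M d 1 := by
    rw [Finsupp.sum_fintype _ _ (fun _ => rfl), Fin.sum_univ_two]
  have h3 := deg_le hM hd
  change ((ge M d).sum fun _ e => e) ≤ M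
  rw [h2, ge0, ge1]
  omega

theorem st_inj (M : ℕ) (R : MvPolynomial (Fin 2) k) (hM : R.totalDegree ≤ M)
    (h : st M R = 0) : R = 0 := by
  by_contra hR
  obtain ⟨d, hd⟩ := Finset.nonempty_of_ne_empty (fun h' => hR (support_eq_empty.mp h'))
  have h1 := congrArg (coeff (ge M d)) h
  unfold st at h1
  rw [coeff_sum, coeff_zero, Finset.sum_eq_single d] at h1
  · rw [coeff_monomial, if_pos rfl] at h1
    exact (mem_support_iff.mp hd) h1
  · intro e he hed
    rw [coeff_monomial, if_neg]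
    intro h2
    apply hed
    have a1 := deg_le hM hd
    have a2 := deg_le hM he
    have b0 := DFunLike.congr_fun h2 0
    have b1 := DFunLike.congr_fun h2 1
    rw [ge0, ge0] at b0
    rw [ge1, ge1] at b1
    ext i
    fin_cases i
    · show e 0 = d 0
      omega
    · exact b1
  · intro h'; exact absurd hd h'

theorem st_eval {L : Type} [Field L] [Algebra k L] (M : ℕ) (R : MvPolynomial (Fin 2) k)
    (hM : R.totalDegree ≤ M) (s t : L) (hs : s ≠ 0) :
    aeval ![s, t] (st M R) = s ^ M * aeval ![s⁻¹, t / s] R := by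
  unfold st
  conv_rhs => rw [R.as_sum]
  rw [map_sum, map_sum, Finset.mul_sum]
  refine Finset.sum_congr rfl fun d hd => ?_
  have h3 := deg_le hM hd
  rw [aeval_monomial, aeval_monomial, Finsupp.prod_fintype _ _ (fun _ => pow_zero _),
    Finsupp.prod_fintype _ _ (fun _ => pow_zero _), Fin.prod_univ_two, Fin.prod_univ_two, ge0, ge1]
  simp only [Matrix.cons_val_zero, Matrix.cons_val_one]
  have h4 : s ^ M = s ^ (M - (d 0 + d 1)) * (s ^ d 0 * s ^ d 1) := by
    rw [← pow_add, ← pow_add]; congr 1; omega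
  rw [h4, div_pow, inv_pow]
  field_simp

end star

/-- norms of elements integral over polynomial rings -/
theorem norm_mem {k P Ω : Type} [Field k] [Field P] [Field Ω] [Algebra k P] [Algebra k Ω]
    [Algebra P Ω] [IsScalarTower k P Ω] (a b : P)
    (hinj : Function.Injective (aeval ![a, b] : MvPolynomial (Fin 2) k →ₐ[k] P))
    (hfrac : ∀ z : P, ∃ p q : MvPolynomial (Fin 2) k, z = aeval ![a, b] p / aeval ![a, b] q)
    (S : Subalgebra k Ω)
    (hS : ∀ x ∈ S, ∃ p : MvPolynomial (Fin 2) k, algebraMap P Ω (aeval ![a, b] p) = x)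
    (g : Ω) (hg : IsIntegral S g) :
    ∃ Q : MvPolynomial (Fin 2) k, Algebra.norm P g = aeval ![a, b] Q := by
  letI i1 : Algebra (MvPolynomial (Fin 2) k) P :=
    (aeval ![a, b] : MvPolynomial (Fin 2) k →ₐ[k] P).toRingHom.toAlgebra
  letI i2 : Algebra (MvPolynomial (Fin 2) k) Ω :=
    ((algebraMap P Ω).comp (aeval ![a, b] : MvPolynomial (Fin 2) k →ₐ[k] P).toRingHom).toAlgebra
  haveI : IsScalarTower (MvPolynomial (Fin 2) k) P Ω :=
    IsScalarTower.of_algebraMap_eq (fun _ => rfl)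
  have hP : ∀ p, algebraMap (MvPolynomial (Fin 2) k) P p = aeval ![a, b] p := fun _ => rfl
  haveI : FaithfulSMul (MvPolynomial (Fin 2) k) P :=
    (faithfulSMul_iff_algebraMap_injective _ _).mpr hinj
  haveI : IsFractionRing (MvPolynomial (Fin 2) k) P :=
    IsFractionRing.of_field (MvPolynomial (Fin 2) k) P hfrac
  -- `g` is integral over the polynomial ring
  have hint : IsIntegral (MvPolynomial (Fin 2) k) g := by
    let T : Subring Ω := (algebraMap (MvPolynomial (Fin 2) k) Ω).range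
    letI i3 : Algebra (MvPolynomial (Fin 2) k) T :=
      (algebraMap (MvPolynomial (Fin 2) k) Ω).rangeRestrict.toAlgebra
    haveI : IsScalarTower (MvPolynomial (Fin 2) k) T Ω :=
      IsScalarTower.of_algebraMap_eq (fun _ => rfl)
    haveI : Algebra.IsIntegral (MvPolynomial (Fin 2) k) T := by
      refine ⟨fun y => ?_⟩
      obtain ⟨y, p, rfl⟩ := y
      exact isIntegral_algebraMap (R := MvPolynomial (Fin 2) k) (A := T) (x := p)
    have hST : ∀ x : S, (x : Ω) ∈ T := fun x => by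
      obtain ⟨p, hp⟩ := hS x x.2
      exact ⟨p, hp⟩
    let φ : S →+* T := (S.val.toRingHom).codRestrict T hST
    have h2 : IsIntegral T ((RingHom.id Ω) g) :=
      IsIntegral.map_of_comp_eq φ (RingHom.id Ω) (by ext x; rfl) hg
    exact isIntegral_trans (R := MvPolynomial (Fin 2) k) (A := T) g h2
  have hn : IsIntegral (MvPolynomial (Fin 2) k) (Algebra.norm P g) :=
    Algebra.isIntegral_norm P hint
  obtain ⟨Q, hQ⟩ := IsIntegrallyClosed.isIntegral_iff.mp hn
  exact ⟨Q, hQ.symm⟩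

section inter

variable {k Ω : Type} [Field k] [Field Ω] [Algebra k Ω] (P : IntermediateField k Ω)

theorem aeval_coe (a b : P) (p : MvPolynomial (Fin 2) k) :
    ((aeval ![a, b] p : P) : Ω) = aeval ![(a : Ω), (b : Ω)] p := by
  have h1 : (![(a : Ω), (b : Ω)] : Fin 2 → Ω) = algebraMap P Ω ∘ ![a, b] := by
    funext i
    fin_cases i <;> rfl
  rw [h1]
  exact (aeval_algebraMap_apply Ω ![a, b] p).symm

theorem frac_of (a b : P) (h : P ≤ IntermediateField.adjoin k {(a : Ω), (b : Ω)}) (z : P) :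
    ∃ p q : MvPolynomial (Fin 2) k, z = aeval ![a, b] p / aeval ![a, b] q := by
  have h1 := h z.2
  have h2 : ({(a : Ω), (b : Ω)} : Set Ω) = Set.range ![(a : Ω), (b : Ω)] := by
    simp [Matrix.range_cons, Set.pair_comm]
  rw [h2, IntermediateField.mem_adjoin_range_iff] at h1
  obtain ⟨p, q, hpq⟩ := h1
  refine ⟨p, q, Subtype.ext ?_⟩
  rw [hpq]
  change _ = ((aeval ![a, b] p / aeval ![a, b] q : P) : Ω)
  rw [IntermediateField.coe_div, aeval_coe, aeval_coe]

end inter

end NRM_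

open NRM_ MvPolynomial in
theorem nrm_proof : Stmt_NRM := by
  intro k Ω _ _ _ σ hσ hfin n n₀ f hf
  have h0 := hσ.ne 0
  have h1 := hσ.ne 1
  have hs1 : σ 1 / σ 0 ∈ PF k σ := IntermediateField.subset_adjoin _ _ (by simp)
  have hs2 : σ 2 / σ 0 ∈ PF k σ := IntermediateField.subset_adjoin _ _ (by simp)
  set s1 : PF k σ := ⟨σ 1 / σ 0, hs1⟩ with hs1d
  set s2 : PF k σ := ⟨σ 2 / σ 0, hs2⟩ with hs2d
  have hs10 : s1 ≠ 0 := by
    intro h
    have h2 := congrArg (fun x : PF k σ => (x : Ω)) h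
    exact (div_ne_zero h1 h0) h2
  have hinjΩ : Function.Injective
      (aeval ![σ 1 / σ 0, σ 2 / σ 0] : MvPolynomial (Fin 2) k →ₐ[k] Ω) := hσ.indep
  have hinj0 : Function.Injective (aeval ![s1, s2] : MvPolynomial (Fin 2) k →ₐ[k] PF k σ) := by
    intro p q hpq
    apply hinjΩ
    have h2 := congrArg (fun x : PF k σ => (x : Ω)) hpq
    simp only [aeval_coe] at h2
    exact h2
  have hfrac0 := frac_of (PF k σ) s1 s2 (le_refl _)
  have hc : ∀ (a b : PF k σ) (p : MvPolynomial (Fin 2) k),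
      algebraMap (PF k σ) Ω (aeval ![a, b] p) = aeval ![(a : Ω), (b : Ω)] p :=
    fun a b p => aeval_coe (PF k σ) a b p
  -- the first chart
  obtain ⟨Q, hQ⟩ := norm_mem s1 s2 hinj0 hfrac0
    (Algebra.adjoin k (Set.range fun j => σ j / σ 0)) (by
      intro x hx
      have hle : Algebra.adjoin k (Set.range fun j => σ j / σ 0) ≤
          (aeval ![(s1 : Ω), (s2 : Ω)] : MvPolynomial (Fin 2) k →ₐ[k] Ω).range := by
        rw [Algebra.adjoin_le_iff]
        rintro _ ⟨j, rfl⟩
        fin_cases j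
        · exact ⟨1, by simp [div_self h0]⟩
        · exact ⟨X 0, by simp [hs1d]⟩
        · exact ⟨X 1, by simp [hs2d]⟩
      obtain ⟨p, hp⟩ := hle hx
      exact ⟨p, by rw [hc]; exact hp⟩) (f ^ n₀ / σ 0 ^ n) (hf 0)
  -- the second chart
  have hinj1 : Function.Injective
      (aeval ![s1⁻¹, s2 / s1] : MvPolynomial (Fin 2) k →ₐ[k] PF k σ) := by
    rw [injective_iff_map_eq_zero]
    intro R hR
    have h2 := st_eval R.totalDegree R (le_refl _) s1 s2 hs10
    rw [hR, mul_zero] at h2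
    exact st_inj R.totalDegree R (le_refl _) (hinj0 (by rw [h2, map_zero]))
  have hs1i : ((s1⁻¹ : PF k σ) : Ω) = σ 0 / σ 1 := by
    rw [IntermediateField.coe_inv, hs1d]
    exact inv_div _ _
  have hs21 : ((s2 / s1 : PF k σ) : Ω) = σ 2 / σ 1 := by
    rw [IntermediateField.coe_div, hs1d, hs2d]
    change σ 2 / σ 0 / (σ 1 / σ 0) = _
    field_simp
  have key : ∀ A : IntermediateField k Ω, σ 0 / σ 1 ∈ A → σ 2 / σ 1 ∈ A → PF k σ ≤ A := by
    intro A m1 m2
    change IntermediateField.adjoin k {σ 1 / σ 0, σ 2 / σ 0} ≤ A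
    rw [IntermediateField.adjoin_le_iff]
    rintro x hx
    rcases hx with rfl | hx
    · have e : σ 1 / σ 0 = (σ 0 / σ 1)⁻¹ := (inv_div _ _).symm
      rw [e]; exact A.inv_mem m1
    · rw [Set.mem_singleton_iff] at hx
      have e : σ 2 / σ 0 = (σ 2 / σ 1) / (σ 0 / σ 1) := by field_simp
      rw [hx, e]; exact A.div_mem m2 m1
  have hfrac1 := frac_of (PF k σ) s1⁻¹ (s2 / s1) (key _
    (by rw [← hs1i]; exact IntermediateField.subset_adjoin _ _ (by simp))
    (by rw [← hs21]; exact IntermediateField.subset_adjoin _ _ (by simp)))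
  obtain ⟨R, hR⟩ := norm_mem s1⁻¹ (s2 / s1) hinj1 hfrac1
    (Algebra.adjoin k (Set.range fun j => σ j / σ 1)) (by
      intro x hx
      have hle : Algebra.adjoin k (Set.range fun j => σ j / σ 1) ≤
          (aeval ![((s1⁻¹ : PF k σ) : Ω), ((s2 / s1 : PF k σ) : Ω)] :
            MvPolynomial (Fin 2) k →ₐ[k] Ω).range := by
        rw [Algebra.adjoin_le_iff]
        rintro _ ⟨j, rfl⟩
        fin_cases j
        · exact ⟨X 0, by rw [hs1i]; simp⟩
        · exact ⟨1, by simp [div_self h1]⟩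
        · exact ⟨X 1, by rw [hs21]; simp⟩
      obtain ⟨p, hp⟩ := hle hx
      exact ⟨p, by rw [hc]; exact hp⟩) (f ^ n₀ / σ 1 ^ n) (hf 1)
  set D := Module.finrank (PF k σ) Ω with hD
  -- comparison
  have hcmp : aeval ![s1, s2] Q = s1 ^ (D * n) * aeval ![s1⁻¹, s2 / s1] R := by
    rw [← hQ, ← hR]
    have e : f ^ n₀ / σ 0 ^ n = algebraMap (PF k σ) Ω (s1 ^ n) * (f ^ n₀ / σ 1 ^ n) := by
      rw [map_pow]
      change _ = (σ 1 / σ 0) ^ n * (f ^ n₀ / σ 1 ^ n)
      rw [div_pow]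
      field_simp
    rw [e, map_mul, Algebra.norm_algebraMap, ← pow_mul, ← hD, mul_comm n D]
  have hcmp2 : X 0 ^ R.totalDegree * Q = X 0 ^ (D * n) * st R.totalDegree R := by
    apply hinj0
    rw [map_mul, map_mul, map_pow, map_pow, aeval_X, hcmp,
      st_eval R.totalDegree R (le_refl _) s1 s2 hs10]
    simp only [Matrix.cons_val_zero]
    ring
  refine ⟨Q, ?_, ?_⟩
  · by_cases hQ0 : Q = 0
    · rw [hQ0, totalDegree_zero]; exact Nat.zero_le _
    have hX : ∀ m, (X 0 : MvPolynomial (Fin 2) k) ^ m ≠ 0 := fun m =>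
      pow_ne_zero m (X_ne_zero 0)
    have hst : st R.totalDegree R ≠ 0 := by
      intro h2
      rw [h2, mul_zero] at hcmp2
      exact (mul_ne_zero (hX _) hQ0) hcmp2
    have hdX : ∀ m, ((X 0 : MvPolynomial (Fin 2) k) ^ m).totalDegree = m := fun m =>
      totalDegree_X_pow 0 m
    have e := congrArg totalDegree hcmp2
    rw [totalDegree_mul_of_isDomain (hX _) hQ0, totalDegree_mul_of_isDomain (hX _) hst, hdX,
      hdX] at e
    have h3 := st_deg R.totalDegree R (le_refl _)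
    omega
  · rw [hQ]
    exact hc s1 s2 Q

end Pool.Agent.SFR
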