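import Pool.Agent.SFR.Stmts

/-!
# SFR / VAN: polynomials vanishing to order `m` at a point
-/

set_option autoImplicit false

noncomputable section

namespace Pool.Agent.SFR

open scoped Classical
open Pool.Agent.EN2 Pool.Agent.SRF Pool.Agent.DIS Pool.Agent.SFB IsLocalRing

namespace VAN_

variable {k : Type} [Field k] (a : Fin 2 → k)

/-- the translation -/
def tr : MvPolynomial (Fin 2) k →ₐ[k] MvPolynomial (Fin 2) k :=
  MvPolynomial.aeval (fun i => MvPolynomial.X i + MvPolynomial.C (a i))

lemma tr_inj : Function.Injective (tr a) := by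
  have h : (tr (fun i => - a i)).comp (tr a) = AlgHom.id k _ := by
    apply MvPolynomial.algHom_ext
    intro i
    change tr (fun i => - a i) (tr a (MvPolynomial.X i)) = MvPolynomial.X i
    unfold tr
    rw [MvPolynomial.aeval_X, map_add, MvPolynomial.aeval_X, MvPolynomial.aeval_C]
    change MvPolynomial.X i + MvPolynomial.C (-a i) + MvPolynomial.C (a i) = _
    rw [add_assoc, ← map_add, neg_add_cancel, map_zero, add_zero]
  intro p q hpq
  have := congrArg (tr (fun i => - a i)) hpq
  have h1 := fun p => congrArg (fun t => t p) h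
  exact ((h1 p).symm.trans this).trans (h1 q)

lemma tr_deg (q : MvPolynomial (Fin 2) k) : (tr a q).totalDegree ≤ q.totalDegree := by
  unfold tr
  rw [MvPolynomial.aeval_def, MvPolynomial.eval₂_eq]
  refine le_trans (MvPolynomial.totalDegree_finsetSum _ _) ?_
  apply Finset.sup_le
  intro d hd
  refine le_trans (MvPolynomial.totalDegree_mul _ _) ?_
  have h1 : ((algebraMap k (MvPolynomial (Fin 2) k)) (q.coeff d)).totalDegree = 0 :=
    MvPolynomial.totalDegree_C _
  rw [h1, zero_add]
  refine le_trans (MvPolynomial.totalDegree_finsetProd _ _) ?_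
  refine le_trans (Finset.sum_le_sum (g := fun i => d i) ?_)
    (MvPolynomial.le_totalDegree hd)
  intro i _
  refine le_trans (MvPolynomial.totalDegree_pow _ _) ?_
  have h2 : (MvPolynomial.X i + MvPolynomial.C (a i) : MvPolynomial (Fin 2) k).totalDegree ≤ 1 := by
    refine le_trans (MvPolynomial.totalDegree_add _ _) ?_
    rw [MvPolynomial.totalDegree_C, MvPolynomial.totalDegree_X]
    exact le_of_eq (max_eq_left (by norm_num))
  calc d i * _ ≤ d i * 1 := Nat.mul_le_mul_left _ h2
    _ = d i := mul_one _

lemma sum2 (d : Fin 2 →₀ ℕ) : ∑ i ∈ d.support, d i = d 0 + d 1 := by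
  have : ∑ i ∈ d.support, d i = ∑ i : Fin 2, d i := by
    apply Finset.sum_subset (Finset.subset_univ _)
    intro i _ hi
    exact Finsupp.notMem_support_iff.1 hi
  rw [this, Fin.sum_univ_two]

lemma part1 (m : ℕ) (q : MvPolynomial (Fin 2) k) (h : Van a m q) (hd : q.totalDegree < m) :
    q = 0 := by
  apply tr_inj a
  rw [map_zero]
  ext d
  rw [MvPolynomial.coeff_zero]
  by_cases hm : d 0 + d 1 < m
  · exact h d hm
  · apply MvPolynomial.coeff_eq_zero_of_totalDegree_lt
    rw [sum2]
    exact lt_of_le_of_lt (tr_deg a q) (lt_of_lt_of_le hd (not_lt.1 hm))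

lemma part3 (m n : ℕ) (q r : MvPolynomial (Fin 2) k) (hq : Van a m q) (hr : Van a n r) :
    Van a (m + n) (q * r) := by
  intro d hd
  rw [map_mul, MvPolynomial.coeff_mul]
  apply Finset.sum_eq_zero
  intro e he
  rw [Finset.HasAntidiagonal.mem_antidiagonal] at he
  have h0 : e.1 0 + e.2 0 = d 0 := by rw [← he]; rfl
  have h1 : e.1 1 + e.2 1 = d 1 := by rw [← he]; rfl
  by_cases hm : e.1 0 + e.1 1 < m
  · rw [hq e.1 hm, zero_mul]
  · rw [hr e.2 (by omega), mul_zero]

lemma part4 (m : ℕ) (h q : MvPolynomial (Fin 2) k) (ha : MvPolynomial.eval a h ≠ 0)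
    (hv : Van a m (h * q)) : Van a m q := by
  have hc : (tr a h).coeff 0 = MvPolynomial.eval a h := by
    rw [← MvPolynomial.constantCoeff_eq]
    have : (MvPolynomial.constantCoeff.comp (tr a).toRingHom : MvPolynomial (Fin 2) k →+* k) =
        MvPolynomial.eval a := by
      apply MvPolynomial.ringHom_ext
      · intro r
        change MvPolynomial.constantCoeff (tr a (MvPolynomial.C r)) = _
        unfold tr
        rw [MvPolynomial.aeval_C]
        change MvPolynomial.constantCoeff (MvPolynomial.C r) = _
        rw [MvPolynomial.constantCoeff_C, MvPolynomial.eval_C]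
      · intro i
        change MvPolynomial.constantCoeff (tr a (MvPolynomial.X i)) = _
        unfold tr
        rw [MvPolynomial.aeval_X, map_add, MvPolynomial.constantCoeff_X,
          MvPolynomial.constantCoeff_C, MvPolynomial.eval_X, zero_add]
    exact congrArg (fun t => t h) this
  have key : ∀ N : ℕ, ∀ d : Fin 2 →₀ ℕ, d 0 + d 1 = N → N < m → (tr a q).coeff d = 0 := by
    intro N
    induction N using Nat.strong_induction_on with
    | _ N ih =>
      intro d hd hN
      have h1 := hv d (by omega)
      rw [map_mul, MvPolynomial.coeff_mul] at h1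
      have h2 : ∑ x ∈ Finset.HasAntidiagonal.antidiagonal d,
          (tr a h).coeff x.1 * (tr a q).coeff x.2 = (tr a h).coeff 0 * (tr a q).coeff d := by
        rw [Finset.sum_eq_single (0, d)]
        · intro e he hne
          rw [Finset.HasAntidiagonal.mem_antidiagonal] at he
          have h0 : e.1 0 + e.2 0 = d 0 := by rw [← he]; rfl
          have h1 : e.1 1 + e.2 1 = d 1 := by rw [← he]; rfl
          have h3 : e.1 ≠ 0 := by
            intro h4
            apply hne
            rw [h4, zero_add] at he
            exact Prod.ext h4 he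
          have h5 : e.1 0 + e.1 1 ≠ 0 := by
            intro h6
            apply h3
            ext i
            fin_cases i
            · change e.1 0 = 0
              omega
            · change e.1 1 = 0
              omega
          rw [ih (e.2 0 + e.2 1) (by omega) e.2 rfl (by omega), mul_zero]
        · intro h0
          exact absurd (Finset.HasAntidiagonal.mem_antidiagonal.2 (zero_add d)) h0
      have h3 : (tr a h).coeff 0 * (tr a q).coeff d = 0 := h2.symm.trans h1
      rcases mul_eq_zero.1 h3 with h4 | h4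
      · rw [hc] at h4
        exact absurd h4 ha
      · exact h4
  intro d hd
  exact key _ d rfl hd

lemma card_aux (m : ℕ) : Fintype.card (Σ i : Fin m, Fin (i.1 + 1)) = (m + 1).choose 2 := by
  rw [Fintype.card_sigma]
  simp only [Fintype.card_fin]
  rw [Fin.sum_univ_eq_sum_range (fun i => i + 1) m]
  induction m with
  | zero => rfl
  | succ m ih =>
    have h1 : (m + 1 + 1).choose 2 = (m + 1).choose 1 + (m + 1).choose 2 :=
      Nat.choose_succ_succ' (m + 1) 1
    rw [Finset.sum_range_succ, ih, h1, Nat.choose_one_right]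
    omega

lemma part5 (m : ℕ) : ∃ φ : MvPolynomial (Fin 2) k →ₗ[k] (Fin ((m + 1).choose 2) → k),
      ∀ q, φ q = 0 → Van a m q := by
  let e : Fin ((m + 1).choose 2) ≃ (Σ i : Fin m, Fin (i.1 + 1)) :=
    (Fintype.equivFinOfCardEq (card_aux m)).symm
  let mon : (Σ i : Fin m, Fin (i.1 + 1)) → (Fin 2 →₀ ℕ) := fun j =>
    Finsupp.single 0 j.2.1 + Finsupp.single 1 (j.1.1 - j.2.1)
  refine ⟨LinearMap.pi (fun j => (MvPolynomial.lcoeff k (mon (e j))).comp (tr a).toLinearMap),
    ?_⟩
  intro q hq d hd
  have h1 := congrArg (fun t => t (e.symm ⟨⟨d 0 + d 1, hd⟩, ⟨d 0, by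
    change d 0 < d 0 + d 1 + 1
    omega⟩⟩)) hq
  change (tr a q).coeff (mon (e (e.symm _))) = 0 at h1
  rw [Equiv.apply_symm_apply] at h1
  have h2 : mon ⟨⟨d 0 + d 1, hd⟩, ⟨d 0, by
    change d 0 < d 0 + d 1 + 1
    omega⟩⟩ = d := by
    ext i
    fin_cases i
    · simp [mon]
    · simp [mon]
  rw [h2] at h1
  exact h1

end VAN_

theorem van_proof : Stmt_VAN := by
  intro k _ a
  refine ⟨VAN_.part1 a, ?_, VAN_.part3 a, VAN_.part4 a, VAN_.part5 a⟩
  intro m q r hq hr d hd
  rw [map_add, MvPolynomial.coeff_add, hq d hd, hr d hd, add_zero]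

end Pool.Agent.SFR
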