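import Pool.Agent.SFR.NTA
import Pool.Agent.SFR.VAN
import Pool.Agent.SFR.NRM
import Pool.Agent.SFR.MUT

/-!
# The norm trick, without hypotheses
-/

set_option autoImplicit false

noncomputable section

namespace Pool.Agent.SFR

/-- The norm trick. -/
theorem nt : SFB.Stmt_NT := nta_proof van_proof nrm_proof (mut_proof van_proof)

end Pool.Agent.SFR
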