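import Pool.Agent.SFB.Stmts

/-!
# Reductions of finite dimensional spaces of functions: definitions
-/

set_option autoImplicit false

noncomputable section

namespace Pool.Agent.SFR

open scoped Classical
open Pool.Agent.EN2 Pool.Agent.SRF Pool.Agent.DIS Pool.Agent.SFB IsLocalRing

/-- The polynomial `q` vanishes to order `m` at the point `a`. -/
def Van {k : Type} [Field k] (a : Fin 2 → k) (m : ℕ) (q : MvPolynomial (Fin 2) k) : Prop :=
  ∀ d : Fin 2 →₀ ℕ, d 0 + d 1 < m →
    (MvPolynomial.aeval (fun i => MvPolynomial.X i + MvPolynomial.C (a i)) q :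
      MvPolynomial (Fin 2) k).coeff d = 0

section plane

variable {k Ω : Type} [Field k] [Field Ω] [Algebra k Ω]

/-- The value of a polynomial at the affine coordinates of the plane. -/
def ev (σ : Fin 3 → Ω) (q : MvPolynomial (Fin 2) k) : Ω :=
  MvPolynomial.aeval ![σ 1 / σ 0, σ 2 / σ 0] q

end plane

section comp

variable {K : Type} [Field K] (O : ValuationSubring K) {F : Type} [Field F] [Algebra K F]
  (x y : F)

/-- `ν` is the valuation of the place `c`, with values in the value group of `O`. -/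
structure IsNu (c : Pl O F) (ν : Valuation F O.ValueGroup) : Prop where
  alg : ∀ a : K, ν (algebraMap K F a) = O.valuation a
  mem : ∀ f : F, ν f ≤ 1 ↔ f ∈ c.W
  lt : ∀ f : F, ν f < 1 ↔ f ∈ c.W.nonunits

/-- The subfield `K₁` of `K` is complete, discrete with uniformizer `ϖ`, with the same residue
field as `K`. -/
structure Lvl (K₁ : Subfield K) (ϖ : K) : Prop where
  mem : ϖ ∈ K₁
  ne : ϖ ≠ 0
  nonunit : ϖ ∈ O.nonunits
  disc : ∀ a ∈ K₁, a ≠ 0 → ∃ n : ℤ, O.valuation a = O.valuation ϖ ^ n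
  dvr : IsDiscreteValuationRing (O.comap K₁.subtype)
  complete : IsAdicComplete (IsLocalRing.maximalIdeal (O.comap K₁.subtype))
    (O.comap K₁.subtype)
  res : ∀ a ∈ O, ∃ b ∈ K₁, b ∈ O ∧ (a - b) ∈ O.nonunits

/-- The field `K₁(x, y)`. -/
def Pf (K₁ : Subfield K) : Subfield F :=
  Subfield.closure (algebraMap K F '' (K₁ : Set K) ∪ {x, y})

variable {O}

/-- The residues at `c` of the elements of `κ⁻¹ E`. -/
def Rs (c : Pl O F) (E : Set F) (κ : K) : Set (ResidueField c.W) :=
  {r | ∃ f ∈ E, κ⁻¹ • f ∈ c.W ∧ r = c.res (κ⁻¹ • f)}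

/-- The places `c`, `c'` have the same restriction to `E`. -/
def SameOn (E : Set F) (c c' : Pl O F) : Prop := ∀ f ∈ E, f ∈ c.W ↔ f ∈ c'.W

end comp

end Pool.Agent.SFR
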