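import Pool.Agent.SFR.Stmts

set_option autoImplicit false

noncomputable section

namespace Pool.Agent.SFR

open scoped Classical
open Pool.Agent.EN2 Pool.Agent.SRF Pool.Agent.DIS Pool.Agent.SFB IsLocalRing

namespace NTA_

lemma ev_inj {k Ω : Type} [Field k] [Field Ω] [Algebra k Ω] {σ : Fin 3 → Ω} (h : IsPl k σ)
    {q r : MvPolynomial (Fin 2) k} (hqr : ev σ q = ev σ r) : q = r := h.indep hqr

lemma ev_mul {k Ω : Type} [Field k] [Field Ω] [Algebra k Ω] (σ : Fin 3 → Ω)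
    (q r : MvPolynomial (Fin 2) k) : ev σ (q * r) = ev σ q * ev σ r := map_mul _ _ _

lemma ev_pow {k Ω : Type} [Field k] [Field Ω] [Algebra k Ω] (σ : Fin 3 → Ω)
    (q : MvPolynomial (Fin 2) k) (n : ℕ) : ev σ (q ^ n) = ev σ q ^ n := map_pow _ _ _

end NTA_

open NTA_ in
/-- NTA: the norm trick. -/
theorem nta_proof (hVAN : Stmt_VAN) (hNRM : Stmt_NRM) (hMUT : Stmt_MUT) : SFB.Stmt_NT := by
  intro k Ω _ _ _ _ σ hσ hfd Y U hU hUY n n₀ hn₀ hint
  by_contra hcon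
  push Not at hcon
  obtain ⟨v1, -, v3, v4, -⟩ := hVAN k (0 : Fin 2 → k)
  set D := Module.finrank (PF k σ) Ω with hD
  have hσ0 : σ 0 ≠ 0 := hσ.ne 0
  set m := n / n₀ + 1 with hm
  have hch : (n / n₀ + 2).choose 2 = (m + 1).choose 2 := rfl
  rw [hch] at hcon
  have ht : Algebra.norm (PF k σ) (σ 0) ≠ 0 := by
    rw [Algebra.norm_ne_zero_iff]
    exact hσ0
  obtain ⟨f, hfU, hf0, a, h, Q, A, B, hh, hA, hB, hQ, hAB, hvan⟩ :=
    hMUT k Ω σ hσ hfd Y U hU hUY m hcon _ ht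
  obtain ⟨w1, -, w3, w4, -⟩ := hVAN k a
  obtain ⟨Q', hdeg, hQ'⟩ := hNRM k Ω σ hσ hfd n n₀ f (hint f hfU)
  have hpos : 0 < D := Module.finrank_pos
  have hlt : n < m * n₀ := by
    have := Nat.lt_div_mul_add (a := n) hn₀
    rw [hm]
    nlinarith
  -- powers
  have vpow : ∀ (b : Fin 2 → k) (r : ℕ) (q : MvPolynomial (Fin 2) k) (j : ℕ), Van b r q →
      Van b (r * j) (q ^ j) := by
    intro b r q j hq
    obtain ⟨-, -, u3, -, -⟩ := hVAN k b
    induction j with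
    | zero => intro d hd; simp at hd
    | succ j ih =>
      have := u3 _ _ _ _ ih hq
      rw [pow_succ]
      have h2 : r * (j + 1) = r * j + r := by ring
      rw [h2]
      exact this
  have hn : (Algebra.norm (PF k σ) (f ^ n₀ / σ 0 ^ n) : Ω) =
      (Algebra.norm (PF k σ) f : Ω) ^ n₀ / (Algebra.norm (PF k σ) (σ 0) : Ω) ^ n := by
    have h0 : (Algebra.norm (PF k σ) (σ 0) : Ω) ≠ 0 := by
      simpa using ht
    rw [eq_div_iff (pow_ne_zero _ h0)]
    have h1 : Algebra.norm (PF k σ) (f ^ n₀ / σ 0 ^ n) * Algebra.norm (PF k σ) (σ 0) ^ n =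
        Algebra.norm (PF k σ) f ^ n₀ := by
      rw [← map_pow, ← map_mul, div_mul_cancel₀ _ (pow_ne_zero _ hσ0), map_pow]
    have h2 := congrArg (fun z : PF k σ => (z : Ω)) h1
    simpa using h2
  have key : Q ^ n₀ * B ^ n = h ^ n₀ * A ^ n * Q' := by
    apply ev_inj hσ
    rw [ev_mul, ev_mul, ev_mul, ev_pow, ev_pow, ev_pow, ev_pow, ← hQ, ← hAB, ← hQ', hn]
    have h0 : (Algebra.norm (PF k σ) (σ 0) : Ω) ≠ 0 := by
      simpa using ht
    field_simp
    ring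
  have hv : Van a (D * m * n₀) (h ^ n₀ * A ^ n * Q') := by
    rw [← key]
    have h1 := vpow a _ _ n₀ hvan
    have h2 : Van a 0 (B ^ n) := fun d hd => absurd hd (Nat.not_lt_zero _)
    have := w3 _ _ _ _ h1 h2
    simpa using this
  have hv' : Van a (D * m * n₀) Q' := by
    refine w4 _ _ _ ?_ hv
    rw [map_mul, map_pow, map_pow]
    exact mul_ne_zero (pow_ne_zero _ hh) (pow_ne_zero _ hA)
  have hz : Q' = 0 := by
    refine w1 _ _ hv' (lt_of_le_of_lt hdeg ?_)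
    calc D * n < D * (m * n₀) := by exact Nat.mul_lt_mul_of_pos_left hlt hpos
      _ = D * m * n₀ := by ring
  have h3 : Algebra.norm (PF k σ) (f ^ n₀ / σ 0 ^ n) = 0 := by
    apply Subtype.ext
    rw [hQ', hz]
    exact map_zero _
  rw [Algebra.norm_eq_zero_iff] at h3
  apply hf0
  have h4 : f ^ n₀ = 0 := by
    rcases div_eq_zero_iff.mp h3 with h | h
    · exact h
    · exact absurd h (pow_ne_zero _ hσ0)
  exact pow_eq_zero_iff (by omega) |>.mp h4

end Pool.Agent.SFR
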